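import Pool.Agent.T3h90.PP.Stm

/-!
# Project PP: the core theorem on exponential sums
-/

set_option autoImplicit false

namespace Pool.Agent.T3h90.PP

open Pool.Agent.T2h48.DW Pool.Agent.T2h48.AD
open Filter Topology ComplexConjugate

theorem ev_single {Γ : Subgroup ℂˣ} (m : ℕ) (δ : Γ) (b : ℂ) :
    ev m (MonoidAlgebra.single δ b) = b * ((δ : ℂˣ) : ℂ) ^ m := by
  unfold ev
  rw [MonoidAlgebra.lift_single, smul_eq_mul]
  rfl

theorem ev_eq_sum {Γ : Subgroup ℂˣ} (m : ℕ) (v : MonoidAlgebra ℂ Γ) :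
    ev m v = ∑ δ ∈ v.coeff.support, v.coeff δ * ((δ : ℂˣ) : ℂ) ^ m := by
  unfold ev
  rw [MonoidAlgebra.lift_apply', Finsupp.sum]
  rfl

theorem pow_inj {Γ : Subgroup ℂˣ} (hΓ : TF Γ) {T : ℕ} (hT : 1 ≤ T) {x y : Γ}
    (h : (((x : Γ) : ℂˣ) : ℂ) ^ T = (((y : Γ) : ℂˣ) : ℂ) ^ T) : x = y := by
  have h1 : (((x * y⁻¹ : Γ) : ℂˣ)) ^ T = 1 := by
    apply Units.ext
    push_cast
    rw [mul_pow, h, ← mul_pow, ← Units.val_inv_eq_inv_val, Units.mul_inv, one_pow]
  have h2 := hΓ _ (x * y⁻¹).2 T hT h1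
  have h3 : x * y⁻¹ = 1 := Subtype.ext h2
  exact mul_inv_eq_one.1 h3

/-- the last case of ALG is impossible -/
theorem no_inv (hP : S_PADIC) {Γ : Subgroup ℂˣ} (hΓ : TF Γ) {V : ℕ → ℤ} {v : MonoidAlgebra ℂ Γ}
    {a T q d : ℕ} (hT : 1 ≤ T) (hq : 2 ≤ q) (hd : 1 ≤ d)
    (hv : ∀ t : ℕ, (V (a + T * t) : ℂ) = ev (a + T * t) v) {δ₀ : Γ}
    (h0 : (((δ₀ : Γ) : ℂˣ) : ℂ) ^ T = (q : ℂ) ^ (d * T)) (h1 : v.coeff δ₀⁻¹ ≠ 0) : False := by
  classical
  set s := v.coeff.support with hs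
  let g : Γ → ℂ := fun δ => (((δ : Γ) : ℂˣ) : ℂ) ^ T
  have hg : ∀ x y, g x = g y → x = y := fun x y h => pow_inj hΓ hT h
  let c : ℂ → ℂ := fun x => ∑ δ ∈ s.filter (fun δ => g δ = x), v.coeff δ * (((δ : Γ) : ℂˣ) : ℂ) ^ a
  have hc : ∀ δ ∈ s, c (g δ) = v.coeff δ * (((δ : Γ) : ℂˣ) : ℂ) ^ a := by
    intro δ hδ
    have : s.filter (fun δ' => g δ' = g δ) = {δ} := by
      ext δ'
      rw [Finset.mem_filter, Finset.mem_singleton]
      constructor
      · exact fun h => hg _ _ h.2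
      · rintro rfl
        exact ⟨hδ, rfl⟩
    show ∑ δ' ∈ s.filter (fun δ' => g δ' = g δ), _ = _
    rw [this, Finset.sum_singleton]
  have hmem : δ₀⁻¹ ∈ s := Finsupp.mem_support_iff.2 h1
  have key := hP (s.image g) c ?_ ?_ (g δ₀⁻¹) (Finset.mem_image_of_mem _ hmem)
  · have h2 : g δ₀⁻¹ = algebraMap ℚ ℂ (((q : ℚ) ^ (d * T))⁻¹) := by
      show ((((δ₀⁻¹ : Γ) : ℂˣ)) : ℂ) ^ T = _
      rw [Subgroup.coe_inv, Units.val_inv_eq_inv_val, inv_pow, h0]
      simp
    rw [h2, isIntegral_algebraMap_iff (algebraMap ℚ ℂ).injective] at key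
    obtain ⟨z, hz⟩ := IsIntegrallyClosed.isIntegral_iff.1 key
    have hq0 : (q : ℚ) ^ (d * T) ≠ 0 := by positivity
    have h3 : (z : ℚ) * (q : ℚ) ^ (d * T) = 1 := by
      have : (z : ℚ) = ((q : ℚ) ^ (d * T))⁻¹ := by simpa using hz
      rw [this, inv_mul_cancel₀ hq0]
    have h4 : z * (q : ℤ) ^ (d * T) = 1 := by exact_mod_cast h3
    have h5 : (q : ℤ) ∣ 1 := by
      rw [← h4]
      exact Dvd.dvd.mul_left (dvd_pow_self _ (by positivity)) _
    have h6 := Int.le_of_dvd one_pos h5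
    omega
  · intro x hx
    obtain ⟨δ, hδ, rfl⟩ := Finset.mem_image.1 hx
    rw [hc δ hδ]
    exact mul_ne_zero (Finsupp.mem_support_iff.1 hδ) (pow_ne_zero _ (Units.ne_zero _))
  · intro t
    refine ⟨V (a + T * t), ?_⟩
    rw [hv, ev_eq_sum, Finset.sum_image (fun x _ y _ h => hg x y h)]
    refine Finset.sum_congr rfl fun δ hδ => ?_
    rw [hc δ hδ, pow_add, pow_mul]
    ring

theorem t_CORE (hRESTR : S_RESTR) (hTOP : S_TOP) (hQUOT : S_QUOT) (hINJ : S_INJ) (hALG : S_ALG)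
    (hBIG : S_BIGMU) (hC1 : S_CYC1) (hC2 : S_CYC2) (hGAL : S_GAL) (hPAD : S_PADIC) : S_CORE := by
  classical
  intro V K hV hK hpos hdvd
  obtain ⟨Γ, N, hFG, hTF, halg, hN, hres⟩ := hRESTR V K hV hK
  refine ⟨N, hN, ?_⟩
  intro μ c T q d h hμ hc hT hNT hq hd hh hid hlim hunb
  obtain ⟨v, κ, hint, hreal, hvk⟩ := hres c hc
  have hv : ∀ t, (V (c + T * t) : ℂ) = ev (c + T * t) v := fun t => by
    obtain ⟨T', rfl⟩ := hNT
    have := (hvk (T' * t)).1
    rwa [← mul_assoc] at this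
  have hκ : ∀ t, (K (c + T * t) : ℂ) = ev (c + T * t) κ := fun t => by
    obtain ⟨T', rfl⟩ := hNT
    have := (hvk (T' * t)).2
    rwa [← mul_assoc] at this
  -- the limit
  have hlim' : Tendsto (fun t : ℕ => ev (c + T * t) v / (q : ℂ) ^ (d * (c + T * t))) atTop
      (𝓝 (h : ℂ)) := by
    have h1 := (Complex.continuous_ofReal.tendsto _).comp hlim
    have h2 : (((h : ℝ) : ℝ) : ℂ) = (h : ℂ) := by push_cast; rfl
    rw [h2] at h1
    refine h1.congr fun t => ?_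
    rw [← hv]
    simp
  obtain ⟨δ₀, hδ₀, hδc, hδm⟩ := hTOP Γ hTF v c T q d h hT hq hh hlim'
  have hdiv : ∀ s : ℕ, T ∣ s → v ∣ dil (s + 1) v := fun s hs =>
    hQUOT Γ hTF halg V v c T s δ₀ hc hT hs hv hδc hδm (fun t => hdvd _ _ (by omega) (by omega))
  have hidv : (v - 1) ^ (μ - 1) = (v - κ) * κ ^ (μ - 1) := by
    rw [← sub_eq_zero]
    refine hINJ Γ hTF c T 0 hT _ fun t _ => ?_
    rw [map_sub, map_mul, map_pow, map_pow, map_sub, map_sub, map_one, ← hv, ← hκ, sub_eq_zero]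
    exact_mod_cast hid t
  have hnc : ∀ z : ℂ, v - κ ≠ MonoidAlgebra.single 1 z := by
    intro z hz
    obtain ⟨t, ht⟩ := hunb (⌈‖z‖⌉ + 1)
    have h1 : ((V (c + T * t) - K (c + T * t) : ℤ) : ℂ) = z := by
      push_cast
      rw [hv, hκ, ← map_sub, hz, ev_single]
      simp
    have h2 : ‖((V (c + T * t) - K (c + T * t) : ℤ) : ℂ)‖ =
        |((V (c + T * t) - K (c + T * t) : ℤ) : ℝ)| := by
      rw [Complex.norm_intCast]
    rw [h1] at h2
    have h3 : ((⌈‖z‖⌉ + 1 : ℤ) : ℝ) ≤ ((V (c + T * t) - K (c + T * t) : ℤ) : ℝ) := by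
      exact_mod_cast ht
    have h4 := le_abs_self ((V (c + T * t) - K (c + T * t) : ℤ) : ℝ)
    have h5 := Int.le_ceil ‖z‖
    push_cast at h3 h4 h2
    linarith
  have hpos' : ∀ t : ℕ, 1 ≤ V (c + T * t) ∧ 0 ≤ K (c + T * t) := fun t => hpos _ (by omega)
  rcases hALG Γ hFG hTF μ T v κ hμ hT hidv hdiv hreal hnc with ⟨h4, hb⟩ | ⟨h3, hvκ, hb⟩
  · left
    refine ⟨h4, ?_⟩
    rcases hb with ⟨b, δ, hb, he⟩ | ⟨h4', b, δ, hb, he⟩
    · refine hBIG V K μ c T q d h b ((δ : ℂˣ) : ℂ) h4 hT hq hd hh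
        (fun t => ⟨(hpos' t).1, (hpos' t).2, hid t⟩) hlim hunb (Or.inl ⟨hb, fun t => ?_⟩)
      push_cast
      rw [hv, hκ, ← map_sub, he, ev_single]
    · refine hBIG V K μ c T q d h b ((δ : ℂˣ) : ℂ) h4 hT hq hd hh
        (fun t => ⟨(hpos' t).1, (hpos' t).2, hid t⟩) hlim hunb (Or.inr ⟨h4', hb, fun t => ?_⟩)
      push_cast
      rw [hv, hκ, ← ev_single, ← he]
      simp only [map_sub, map_add, map_mul, map_ofNat]
  · right
    subst h3
    have hVK : ∀ t : ℕ, V (c + T * t) = K (c + T * t) ^ 2 - K (c + T * t) + 1 := by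
      intro t
      have h1 := hv t
      rw [hvκ] at h1
      simp only [map_sub, map_add, map_pow, map_one, ← hκ] at h1
      exact_mod_cast h1
    refine ⟨rfl, hVK, ?_⟩
    rcases hb with ⟨A, b, δ, hδ, hκe, hb, M, hM, hroot⟩ | hinv
    · have hδT : ∀ n : ℕ, 1 ≤ n → ((δ : ℂˣ) : ℂ) ^ n ≠ 1 := by
        intro n hn h1
        apply hδ
        apply Subtype.ext
        refine hTF _ δ.2 n hn ?_
        apply Units.ext
        push_cast
        exact h1
      have hA : IsIntegral ℤ (1 + (A : ℂ)) := by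
        have h1 := hint 1
        rw [hκe] at h1
        have h2 : (MonoidAlgebra.single (1 : Γ) (1 + (A : ℂ)) + MonoidAlgebra.single δ b).coeff 1 =
            1 + (A : ℂ) := by
          rw [MonoidAlgebra.coeff_add, MonoidAlgebra.coeff_single, MonoidAlgebra.coeff_single,
            Finsupp.add_apply, Finsupp.single_eq_same, Finsupp.single_eq_of_ne (Ne.symm hδ), add_zero]
        rwa [h2] at h1
      obtain ⟨A', hA', heq⟩ := hC1 K c T q d h A b ((δ : ℂˣ) : ℂ) hT hq hd hh hδT hA hb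
        (fun t => by
          rw [hκ, hκe, map_add, ev_single, ev_single]
          simp)
        (hlim.congr fun t => by rw [hVK])
      rcases hC2 A' M hM (by
        have h1 := hroot
        rw [hA'] at h1
        exact_mod_cast h1) with h0 | h1 | h3
      · left
        intro t
        have := heq t
        rw [h0] at this
        simpa using this
      · right
        intro t
        have := heq t
        rw [h1] at this
        have e1 : K (c + T * t) - 1 - -1 = K (c + T * t) := by ring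
        rw [e1] at this
        rw [this]
        ring
      · exfalso
        refine hGAL K hK (fun m hm => (hpos m hm).2) c T q d (1 + A') hc hT hq hd fun t => ?_
        have := heq t
        rw [h3] at this
        rw [← this]
        ring
    · exfalso
      refine no_inv hPAD hTF hT hq hd hv hδ₀ ?_
      rw [hinv]
      intro h0
      exact hδc ((map_eq_zero (starRingEnd ℂ)).1 h0)

end Pool.Agent.T3h90.PP
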