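import Pool.Agent.T3h90.PP.Stm

/-!
# Project PP, task ABL: there is no planar family in abelian groups with `#D(K) ^ 2 = #K ^ d`
-/

set_option autoImplicit false

namespace Pool.Agent.T3h90.PP

open Pool.Agent.T2h48.DW Pool.Agent.T2h48.AD
open Filter Topology ComplexConjugate

namespace ABL

/-- `(g, d₁, d₂, d₃, d₄, e)` with `d_i ∈ D`, `g d₂ = d₁`, `g d₄ = d₃`, `e = 1`, `d₁ ≠ d₂`, `d₁ ≠ d₃` -/
def phi2 : GF 6 :=
  .and (.inD 1) (.and (.inD 2) (.and (.inD 3) (.and (.inD 4) (.and (.mul 0 2 1) (.and (.mul 0 4 3)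
    (.and (.mul 5 5 5) (.and (.neg (.mul 5 1 2)) (.neg (.mul 5 1 3)))))))))

/-- `(x, y, z)` with `x y = z` and not `y x = z` -/
def phi3 : GF 3 := .and (.mul 0 1 2) (.neg (.mul 1 0 2))

section group
variable {P : Type} [Group P] [Finite P] (D : P → Prop) (M : P → P → P → Prop)

theorem two_of_zero (hM : ∀ x y z, M x y z ↔ x * y = z)
    (h : Nat.card {x : Fin 6 → P // phi2.Holds D M x} = 0) :
    ∀ a b c d : P, D a → D b → D c → D d → a * b⁻¹ = c * d⁻¹ → a ≠ b → a = c := by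
  intro a b c d ha hb hc hd he hne
  by_contra hac
  have h1 : IsEmpty {x : Fin 6 → P // phi2.Holds D M x} := (Nat.card_eq_zero.1 h).resolve_right
    (fun h2 => h2.not_finite inferInstance)
  refine h1.false ⟨![a * b⁻¹, a, b, c, d, 1], ?_⟩
  refine ⟨ha, hb, hc, hd, ?_, ?_, ?_, ?_, ?_⟩
  · show M (a * b⁻¹) b a
    rw [hM]; group
  · show M (a * b⁻¹) d c
    rw [hM, he]; group
  · show M 1 1 1
    rw [hM]; group
  · show ¬ M 1 a b
    rw [hM, one_mul]; exact hne
  · show ¬ M 1 a c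
    rw [hM, one_mul]; exact hac

omit [Finite P] in
theorem zero_of_two (hM : ∀ x y z, M x y z ↔ x * y = z)
    (h : ∀ a b c d : P, D a → D b → D c → D d → a * b⁻¹ = c * d⁻¹ → a ≠ b → a = c) :
    Nat.card {x : Fin 6 → P // phi2.Holds D M x} = 0 := by
  rw [Nat.card_eq_zero]
  left
  refine ⟨fun ⟨x, h1, h2, h3, h4, h5, h6, h7, h8, h9⟩ => ?_⟩
  have h5' : x 0 * x 2 = x 1 := (hM _ _ _).1 h5
  have h6' : x 0 * x 4 = x 3 := (hM _ _ _).1 h6
  have h7' : x 5 * x 5 = x 5 := (hM _ _ _).1 h7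
  have h8' : ¬ x 5 * x 1 = x 2 := fun h => h8 ((hM _ _ _).2 h)
  have h9' : ¬ x 5 * x 1 = x 3 := fun h => h9 ((hM _ _ _).2 h)
  have he : x 5 = 1 := by simpa using h7'
  rw [he, one_mul] at h8' h9'
  refine h9' (h (x 1) (x 2) (x 3) (x 4) h1 h2 h3 h4 ?_ h8')
  rw [← h5', ← h6']; group

theorem comm_of_zero (hM : ∀ x y z, M x y z ↔ x * y = z)
    (h : Nat.card {x : Fin 3 → P // phi3.Holds D M x} = 0) : ∀ a b : P, a * b = b * a := by
  intro a b
  by_contra hab
  have h1 : IsEmpty {x : Fin 3 → P // phi3.Holds D M x} := (Nat.card_eq_zero.1 h).resolve_right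
    (fun h2 => h2.not_finite inferInstance)
  refine h1.false ⟨![a, b, a * b], ?_, ?_⟩
  · show M a b (a * b)
    rw [hM]
  · show ¬ M b a (a * b)
    rw [hM]; exact fun h => hab h.symm

omit [Group P] [Finite P] in
theorem zero_of_comm (h : ∀ x y z : P, M x y z → M y x z) :
    Nat.card {x : Fin 3 → P // phi3.Holds D M x} = 0 := by
  rw [Nat.card_eq_zero]
  left
  exact ⟨fun ⟨x, h1, h2⟩ => h2 (h _ _ _ h1)⟩

end group

open Pool.Agent.H152R2 in
/-- the multiplier argument in multiplicative notation -/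
theorem pl_mul (h4 : S_PL) (P : Type) [CommGroup P] [Finite P] (n ℓ : ℕ) (D : Finset P)
    (hcard : Nat.card P = n ^ 2 + n + 1) (hD : D.card = n + 1)
    (hinj : ∀ a ∈ D, ∀ b ∈ D, ∀ c ∈ D, ∀ d ∈ D, a * b⁻¹ = c * d⁻¹ → a ≠ b → a = c)
    (hℓ : ℓ.Prime) (hdvd : ℓ ∣ n) (hn : 0 < n) (x y z : P) (hx : x ∈ D) (hy : y ∈ D) (hz : z ∈ D)
    (hxy : x ≠ y) (hxz : x ≠ z) (hyz : y ≠ z) (hx1 : x ^ (ℓ + 1) = 1) (hy1 : y ^ (ℓ + 1) = 1)
    (hz1 : z ^ (ℓ + 1) = 1) : False := by
  classical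
  have := Fintype.ofFinite P
  have hcard' : Fintype.card P = n ^ 2 + n + 1 := by rw [← Nat.card_eq_fintype_card, hcard]
  -- all elements `≠ 1` are quotients
  have himg : D.offDiag.image (fun p : P × P => p.1 * p.2⁻¹) = Finset.univ.erase 1 := by
    refine Finset.eq_of_subset_of_card_le ?_ ?_
    · intro g hg
      obtain ⟨p, hp, rfl⟩ := Finset.mem_image.1 hg
      rw [Finset.mem_offDiag] at hp
      exact Finset.mem_erase.2 ⟨fun h => hp.2.2 (mul_inv_eq_one.1 h), Finset.mem_univ _⟩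
    · rw [Finset.card_image_of_injOn, Finset.offDiag_card, Finset.card_erase_of_mem (Finset.mem_univ _),
        Finset.card_univ, hcard', hD]
      · have : (n + 1) * (n + 1) = n ^ 2 + n + (n + 1) := by ring
        omega
      · rintro ⟨a, b⟩ hp ⟨c, d⟩ hq he
        rw [Finset.mem_coe, Finset.mem_offDiag] at hp hq
        simp only at hp hq he
        have h1 := hinj a hp.1 b hp.2.1 c hq.1 d hq.2.1 he hp.2.2
        subst h1
        rw [mul_right_inj, inv_inj] at he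
        rw [he]
  have hpds : IsPDS n (D.map (Additive.ofMul (α := P)).toEmbedding) := by
    refine ⟨?_, ?_, ?_⟩
    · exact hcard
    · rw [Finset.card_map, hD]
    · intro g hg
      have h1 : Additive.toMul g ∈ Finset.univ.erase (1 : P) :=
        Finset.mem_erase.2 ⟨fun h => hg (Additive.toMul.injective h), Finset.mem_univ _⟩
      rw [← himg] at h1
      obtain ⟨⟨a, b⟩, hp, he⟩ := Finset.mem_image.1 h1
      rw [Finset.mem_offDiag] at hp
      simp only at hp he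
      refine ⟨(Additive.ofMul a, Additive.ofMul b), ⟨?_, ?_, ?_⟩, ?_⟩
      · exact Finset.mem_map_of_mem _ hp.1
      · exact Finset.mem_map_of_mem _ hp.2.1
      · apply Additive.toMul.injective
        rw [← he, toMul_sub, div_eq_mul_inv]
        rfl
      · rintro ⟨c₁, d₁⟩ ⟨hc₁, hd₁, hcd⟩
        obtain ⟨c, hc, rfl⟩ := Finset.mem_map.1 hc₁
        obtain ⟨d, hd, rfl⟩ := Finset.mem_map.1 hd₁
        have he2 : a * b⁻¹ = c * d⁻¹ := by
          have := congrArg Additive.toMul hcd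
          rw [toMul_sub, ← he, div_eq_mul_inv] at this
          exact this.symm
        have h1 := hinj a hp.1 b hp.2.1 c hc d hd he2 hp.2.2
        subst h1
        rw [mul_right_inj, inv_inj] at he2
        subst he2
        rfl
  refine h4 (Additive P) n ℓ _ hpds hℓ hdvd hn (Additive.ofMul x) (Finset.mem_map_of_mem _ hx)
    (Additive.ofMul y) (Finset.mem_map_of_mem _ hy) (Additive.ofMul z) (Finset.mem_map_of_mem _ hz)
    (fun h => hxy (Additive.ofMul.injective h)) (fun h => hxz (Additive.ofMul.injective h))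
    (fun h => hyz (Additive.ofMul.injective h)) ?_ ?_ ?_
  · rw [← ofMul_pow, hx1, ofMul_one]
  · rw [← ofMul_pow, hy1, ofMul_one]
  · rw [← ofMul_pow, hz1, ofMul_one]

theorem exists_ext (F : Type) [Field F] [Finite F] (m : ℕ) (hm : 1 ≤ m) :
    ∃ (K : Type) (_ : Field K) (_ : Finite K) (_ : Algebra F K), Module.finrank F K = m := by
  obtain ⟨p, hp⟩ := CharP.exists F
  have hpp : Fact p.Prime := ⟨CharP.char_is_prime F p⟩
  have : NeZero m := ⟨by omega⟩
  exact ⟨FiniteField.Extension F p m, inferInstance, inferInstance, inferInstance,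
    FiniteField.finrank_extension F p m⟩

/-- the quotients are unique in a planar difference set -/
theorem two_of_sds {P : Type} [Group P] [Finite P] (D : P → Prop) (n : ℕ) (hn : 2 ≤ n)
    (hl : ∀ g : P, g ≠ 1 → Nat.card {p : P × P // D p.1 ∧ D p.2 ∧ p.1 * p.2⁻¹ = g} * (n - 1) =
      n ^ (3 - 2) - 1) :
    ∀ a b c d : P, D a → D b → D c → D d → a * b⁻¹ = c * d⁻¹ → a ≠ b → a = c := by
  intro a b c d ha hb hc hd he hne
  have h1 := hl (a * b⁻¹) (fun h => hne (mul_inv_eq_one.1 h))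
  have h2 : n ^ (3 - 2) - 1 = n - 1 := by simp
  rw [h2] at h1
  have h3 : Nat.card {p : P × P // D p.1 ∧ D p.2 ∧ p.1 * p.2⁻¹ = a * b⁻¹} = 1 :=
    Nat.eq_of_mul_eq_mul_right (by omega : 0 < n - 1) (by rw [h1, one_mul])
  obtain ⟨hs, _⟩ := Nat.card_eq_one_iff_unique.1 h3
  have h4 := hs.elim ⟨(a, b), ha, hb, rfl⟩ ⟨(c, d), hc, hd, he.symm⟩
  exact congrArg (fun q => q.1.1) h4

end ABL

open ABL in
theorem t_ABL (h1 : S_CNT) (h2 : S_SMLP) (h3 : S_DIRI) (h4 : S_PL)
    (h5 : Pool.Agent.T2h48.DW.S_RING) : S_ABL := by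
  classical
  intro F _ _ a G D M hG c T d hc hT hd hall hinf
  obtain ⟨W₂, hW₂, hW₂c⟩ := h1 F a G D M 6 phi2
  obtain ⟨W₃, hW₃, hW₃c⟩ := h1 F a G D M 3 phi3
  obtain ⟨L, N₀, hL, hLz⟩ := h2 _ (h5.2.1 W₂ W₃ hW₂ hW₃)
  obtain ⟨t₀, ht₀, K₀, iF0, iFin0, iA0, hK₀, ⟨n₀, hn₀, iG0, hM0, hv0, hk0, hl0⟩, hcomm0⟩ := hinf N₀
  have hm₀ : 1 ≤ c + T * t₀ := by omega
  have hfin0 : Finite (Pt G K₀) := Subtype.finite
  -- both counts vanish at `m₀`
  have z2 : W₂ (c + T * t₀) = 0 := by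
    rw [← hW₂c K₀ (c + T * t₀) hm₀ hK₀]
    have := zero_of_two (P := Pt G K₀) (fun g => D.Holds g.1)
      (fun x y z => M.Holds (Fin.append (Fin.append x.1 y.1) z.1)) hM0
      (two_of_sds (P := Pt G K₀) (fun g => D.Holds g.1) n₀ hn₀ hl0)
    exact_mod_cast this
  have z3 : W₃ (c + T * t₀) = 0 := by
    rw [← hW₃c K₀ (c + T * t₀) hm₀ hK₀]
    have := zero_of_comm (P := Pt G K₀) (fun g => D.Holds g.1)
      (fun x y z => M.Holds (Fin.append (Fin.append x.1 y.1) z.1)) hcomm0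
    exact_mod_cast this
  have hzero := hLz (c + T * t₀) ht₀ (by rw [z2, z3, add_zero])
  -- the number of elements of `D(K₀)`
  obtain ⟨hsq0, -⟩ := hall K₀ t₀ hK₀
  set k₀ := Nat.card {x : Pt G K₀ // D.Holds x.1} with hk₀
  have hk₀n : k₀ = n₀ + 1 := by
    have e1 : n₀ ^ (3 - 1) - 1 = (n₀ + 1) * (n₀ - 1) := by
      obtain ⟨n₁, rfl⟩ : ∃ n₁, n₀ = n₁ + 1 := ⟨n₀ - 1, by omega⟩
      have : (n₁ + 1) ^ (3 - 1) = (n₁ + 1 + 1) * (n₁ + 1 - 1) + 1 := by
        simp only [Nat.add_sub_cancel]; ring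
      rw [this, Nat.add_sub_cancel]
    rw [e1] at hk0
    exact Nat.eq_of_mul_eq_mul_right (by omega : 0 < n₀ - 1) hk0
  -- `k₀` is a prime power
  obtain ⟨p, hp⟩ := CharP.exists F
  have hpp : p.Prime := CharP.char_is_prime F p
  have hpF : Fact p.Prime := ⟨hpp⟩
  have := Fintype.ofFinite F
  obtain ⟨f, -, hf⟩ := FiniteField.card F p
  have hq : Nat.card F = p ^ (f : ℕ) := by rw [Nat.card_eq_fintype_card, hf]
  obtain ⟨j, -, hj⟩ : ∃ j ≤ (f : ℕ) * (d * (c + T * t₀)), k₀ = p ^ j := by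
    refine (Nat.dvd_prime_pow hpp).1 ?_
    rw [pow_mul, ← hq, ← hsq0]
    exact dvd_pow_self _ two_ne_zero
  -- the prime `ℓ`
  obtain ⟨ℓ, t, hℓ, hvℓ, hℓd⟩ := h3 p j (Nat.card (Pt G K₀)) (T * L) hpp
    Nat.card_pos (Nat.mul_pos hT hL)
  set s := (c + T * t₀) * t with hs
  set t₁ := t₀ + L * s with ht₁
  have hm : c + T * t₁ = (c + T * t₀) * (1 + T * L * t) := by
    rw [ht₁, hs]; ring
  obtain ⟨K, iF, iFin, iA, hK⟩ := exists_ext F (c + T * t₁) (by omega)
  obtain ⟨iG, hM⟩ := hG K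
  have hfin : Finite (Pt G K) := Subtype.finite
  have hzm : W₂ (c + T * t₁) + W₃ (c + T * t₁) = 0 := by
    have := hzero (T * s)
    have e : c + T * t₀ + L * (T * s) = c + T * t₁ := by rw [ht₁]; ring
    rw [e] at this
    exact this
  have e2 := hW₂c K (c + T * t₁) (by omega) hK
  have e3 := hW₃c K (c + T * t₁) (by omega) hK
  have y2 : Nat.card {x : Fin 6 → Pt G K // phi2.Holds (fun g => D.Holds g.1)
      (fun x y z => M.Holds (Fin.append (Fin.append x.1 y.1) z.1)) x} = 0 := by omega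
  have y3 : Nat.card {x : Fin 3 → Pt G K // phi3.Holds (fun g => D.Holds g.1)
      (fun x y z => M.Holds (Fin.append (Fin.append x.1 y.1) z.1)) x} = 0 := by omega
  have hcomm := comm_of_zero (P := Pt G K) (fun g => D.Holds g.1)
      (fun x y z => M.Holds (Fin.append (Fin.append x.1 y.1) z.1)) hM y3
  have htwo := two_of_zero (P := Pt G K) (fun g => D.Holds g.1)
      (fun x y z => M.Holds (Fin.append (Fin.append x.1 y.1) z.1)) hM y2
  obtain ⟨hsq, hv⟩ := hall K t₁ hK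
  set k := Nat.card {x : Pt G K // D.Holds x.1} with hk
  have hkk₀ : k = k₀ ^ (1 + T * L * t) := by
    have e : k ^ 2 = (k₀ ^ (1 + T * L * t)) ^ 2 := by
      rw [hsq, hm, ← pow_mul, mul_comm (1 + T * L * t) 2, pow_mul k₀, hsq0, ← pow_mul]
      congr 1; ring
    exact Nat.pow_left_injective (n := 2) (by norm_num) e
  have hk3 : 3 ≤ k := by
    rw [hkk₀]
    calc 3 ≤ k₀ := by omega
      _ = k₀ ^ 1 := (pow_one _).symm
      _ ≤ k₀ ^ (1 + T * L * t) := Nat.pow_le_pow_right (by omega) (by omega)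
  -- the embedding
  obtain ⟨jj⟩ : Nonempty (K₀ →ₐ[F] K) := FiniteField.nonempty_algHom_of_finrank_dvd (by
    rw [hK₀, hK, hm]; exact dvd_mul_right _ _)
  let ι : Pt G K₀ →* Pt G K := MonoidHom.mk' (fun x => ⟨fun i => jj (x.1 i), (holds_map G jj x.1).2 x.2⟩)
    (by
      intro x y
      symm
      rw [← hM]
      show M.Holds (Fin.append (Fin.append (fun i => jj (x.1 i)) (fun i => jj (y.1 i)))
        (fun i => jj ((x * y).1 i)))
      rw [append_map, holds_map M jj, hM0])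
  have hι : Function.Injective ι := by
    intro x y hxy
    apply Subtype.ext
    funext i
    exact RingHom.injective (jj : K₀ →+* K) (congrFun (congrArg Subtype.val hxy) i)
  -- three elements
  have := Fintype.ofFinite (Pt G K)
  have := Fintype.ofFinite (Pt G K₀)
  have hcard0 : (Finset.univ.filter fun x : Pt G K₀ => D.Holds x.1).card = k₀ := by
    rw [hk₀, Nat.card_eq_fintype_card, Fintype.card_subtype]
  obtain ⟨x, hx, y, hy, z, hz, hxy, hxz, hyz⟩ := Finset.two_lt_card.1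
    (by rw [hcard0]; omega : 2 < (Finset.univ.filter fun x : Pt G K₀ => D.Holds x.1).card)
  let iC : CommGroup (Pt G K) := { iG with mul_comm := hcomm }
  have hord : ∀ x : Pt G K₀, (ι x) ^ (ℓ + 1) = 1 := by
    intro x
    obtain ⟨r, hr⟩ := hvℓ
    rw [← map_pow, hr, pow_mul, pow_card_eq_one', one_pow, map_one]
  have hDmem : ∀ x : Pt G K₀, x ∈ (Finset.univ.filter fun x : Pt G K₀ => D.Holds x.1) →
      ι x ∈ (Finset.univ.filter fun x : Pt G K => D.Holds x.1) := by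
    intro x hx
    rw [Finset.mem_filter] at hx ⊢
    exact ⟨Finset.mem_univ _, (holds_map D jj x.1).2 hx.2⟩
  refine pl_mul h4 (Pt G K) (k - 1) ℓ (Finset.univ.filter fun x : Pt G K => D.Holds x.1) ?_ ?_ ?_ hℓ
    ?_ (by omega) (ι x) (ι y) (ι z) (hDmem x hx) (hDmem y hy) (hDmem z hz) (hι.ne hxy) (hι.ne hxz)
    (hι.ne hyz) (hord x) (hord y) (hord z)
  · obtain ⟨k', hk'⟩ : ∃ k', k = k' + 1 := ⟨k - 1, by omega⟩
    rw [hk', Nat.add_sub_cancel]
    rw [hk'] at hv
    have : (k' + 1) ^ 2 + 1 = k' ^ 2 + k' + 1 + (k' + 1) := by ring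
    omega
  · have : (Finset.univ.filter fun x : Pt G K => D.Holds x.1).card = k := by
      rw [hk, Nat.card_eq_fintype_card, Fintype.card_subtype]
    rw [this]; omega
  · intro a ha b hb c hc d hd
    exact htwo a b c d (Finset.mem_filter.1 ha).2 (Finset.mem_filter.1 hb).2
      (Finset.mem_filter.1 hc).2 (Finset.mem_filter.1 hd).2
  · rw [hkk₀, hj]
    exact hℓd

end Pool.Agent.T3h90.PP
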