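import Pool.Agent.T3h90.PP.Stm0

/-!
# Project PP, task ALG: the algebra of the group ring equation
-/

set_option autoImplicit false

namespace Pool.Agent.T3h90.PP

open Filter Topology LaurentPolynomial ComplexConjugate

namespace ALG

variable {Γ : Subgroup ℂˣ}

theorem coeff_CT (b : ℂ) (n m : ℤ) : (C b * T n : ℂ[T;T⁻¹]).coeff m = if n = m then b else 0 := by
  rw [← single_eq_C_mul_T, AddMonoidAlgebra.coeff_single, Finsupp.single_apply]

/-- the homomorphism of group rings given by `w` -/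
noncomputable def Phi (w : Γ →* Multiplicative ℤ) : MonoidAlgebra ℂ Γ →ₐ[ℂ] ℂ[T;T⁻¹] :=
  MonoidAlgebra.lift ℂ ℂ[T;T⁻¹] Γ
    { toFun := fun δ => T (Multiplicative.toAdd (w δ))
      map_one' := by simp
      map_mul' := fun a b => by rw [map_mul, toAdd_mul, T_add] }

theorem Phi_single (w : Γ →* Multiplicative ℤ) (δ : Γ) (c : ℂ) :
    Phi w (MonoidAlgebra.single δ c) = C c * T (Multiplicative.toAdd (w δ)) := by
  rw [Phi, MonoidAlgebra.lift_single, smul_eq_C_mul]
  rfl

theorem lev_C (z : ℂˣ) (c : ℂ) : lev z (C c) = c := by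
  rw [lev, eval₂_C, RingHom.id_apply]

theorem lev_T (z : ℂˣ) (n : ℤ) : lev z (T n) = ((z ^ n : ℂˣ) : ℂ) := by
  rw [lev, eval₂_T]

theorem lev_Phi_dil (w : Γ →* Multiplicative ℤ) (z : ℂˣ) (s : ℕ) (x : MonoidAlgebra ℂ Γ) :
    lev z (Phi w (dil s x)) = lev (z ^ s) (Phi w x) := by
  induction x using MonoidAlgebra.induction_linear with
  | zero => simp
  | add f g hf hg => rw [map_add, map_add, map_add, map_add, map_add, hf, hg]
  | single δ c =>
    have : dil s (MonoidAlgebra.single δ c) = MonoidAlgebra.single (δ ^ s) c := by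
      simp [dil]
    rw [this, Phi_single, Phi_single, map_mul, map_mul, lev_C, lev_C, lev_T, lev_T, map_pow,
      toAdd_pow, ← zpow_natCast, ← zpow_mul]
    simp

theorem coeff_Phi (w : Γ →* Multiplicative ℤ) {U : Finset Γ}
    (hw : ∀ x ∈ U, ∀ y ∈ U, w x = w y → x = y) {x : MonoidAlgebra ℂ Γ}
    (hx : x.coeff.support ⊆ U) {δ : Γ} (hδ : δ ∈ U) :
    (Phi w x).coeff (Multiplicative.toAdd (w δ)) = x.coeff δ := by
  classical
  have h1 : x = ∑ γ ∈ U, MonoidAlgebra.single γ (x.coeff γ) := by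
    ext γ
    rw [MonoidAlgebra.coeff_sum, Finset.sum_apply']
    by_cases hγ : γ ∈ U
    · rw [Finset.sum_eq_single γ]
      · simp
      · intro b _ hb
        simp [hb]
      · exact fun h => absurd hγ h
    · rw [Finset.sum_eq_zero]
      · by_contra h
        exact hγ (hx (Finsupp.mem_support_iff.2 h))
      · intro b hb
        have : b ≠ γ := fun h => hγ (h ▸ hb)
        simp [this]
  conv_lhs => rw [h1]
  rw [map_sum, AddMonoidAlgebra.coeff_sum, Finset.sum_apply', Finset.sum_eq_single δ]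
  · rw [Phi_single, coeff_CT, if_pos rfl]
  · intro b hb hbδ
    have : Multiplicative.toAdd (w b) ≠ Multiplicative.toAdd (w δ) := fun h =>
      hbδ (hw b hb δ hδ (Multiplicative.toAdd.injective h))
    rw [Phi_single, coeff_CT, if_neg this]
  · exact fun h => absurd hδ h

theorem Phi_inj (w : Γ →* Multiplicative ℤ) {U : Finset Γ}
    (hw : ∀ x ∈ U, ∀ y ∈ U, w x = w y → x = y) {x y : MonoidAlgebra ℂ Γ}
    (hx : x.coeff.support ⊆ U) (hy : y.coeff.support ⊆ U) (h : Phi w x = Phi w y) : x = y := by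
  ext δ
  by_cases hδ : δ ∈ U
  · rw [← coeff_Phi w hw hx hδ, ← coeff_Phi w hw hy hδ, h]
  · have h1 : x.coeff δ = 0 := by
      by_contra h; exact hδ (hx (Finsupp.mem_support_iff.2 h))
    have h2 : y.coeff δ = 0 := by
      by_contra h; exact hδ (hy (Finsupp.mem_support_iff.2 h))
    rw [h1, h2]

theorem Phi_supp (w : Γ →* Multiplicative ℤ) (x : MonoidAlgebra ℂ Γ) {n : ℤ}
    (h : (Phi w x).coeff n ≠ 0) : ∃ δ ∈ x.coeff.support, Multiplicative.toAdd (w δ) = n := by
  classical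
  by_contra hcon
  push Not at hcon
  apply h
  rw [Phi, MonoidAlgebra.lift_apply, Finsupp.sum, AddMonoidAlgebra.coeff_sum, Finset.sum_apply']
  refine Finset.sum_eq_zero fun δ hδ => ?_
  have := hcon δ hδ
  simp [this]

/-- an element with a monomial image is a monomial -/
theorem Phi_mono (w : Γ →* Multiplicative ℤ) {U : Finset Γ}
    (hw : ∀ x ∈ U, ∀ y ∈ U, w x = w y → x = y) {x : MonoidAlgebra ℂ Γ}
    (hx : x.coeff.support ⊆ U) {b : ℂ} (hb : b ≠ 0) {n : ℤ} (h : Phi w x = C b * T n) :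
    ∃ δ : Γ, x = MonoidAlgebra.single δ b := by
  classical
  obtain ⟨δ, hδ, hn⟩ := Phi_supp w x (n := n) (by rw [h, coeff_CT, if_pos rfl]; exact hb)
  refine ⟨δ, Phi_inj w hw hx ?_ ?_⟩
  · intro γ hγ
    have : γ = δ := by
      by_contra hne
      rw [Finsupp.mem_support_iff, MonoidAlgebra.coeff_single, Finsupp.single_apply,
        if_neg (Ne.symm hne)] at hγ
      exact hγ rfl
    rw [this]; exact hx hδ
  · rw [h, Phi_single, hn]

/-- conjugation of the coefficients and `T ↦ T⁻¹` -/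
noncomputable def bar : ℂ[T;T⁻¹] →+* ℂ[T;T⁻¹] :=
  (invert (R := ℂ)).toRingEquiv.toRingHom.comp (AddMonoidAlgebra.mapRingHom ℤ (starRingEnd ℂ))

theorem coeff_bar (L : ℂ[T;T⁻¹]) (i : ℤ) : (bar L).coeff i = conj (L.coeff (-i)) := by
  simp [bar]

/-- a Laurent polynomial that is a zero of `1 + X + ⋯` is constant -/
theorem ne_zero_of_not_const (N : ℂ[T;T⁻¹]) (μ : ℕ) (hμ : 1 ≤ μ) (hN : ∀ c, N ≠ C c) :
    ∑ i ∈ Finset.range μ, N ^ i ≠ 0 := by
  intro h
  have h1 : N ^ μ - 1 = 0 := by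
    rw [← mul_geom_sum, h, mul_zero]
  have h2 : (Polynomial.X ^ μ - 1 : Polynomial ℂ) =
      ∏ ζ ∈ Polynomial.nthRootsFinset μ (1 : ℂ), (Polynomial.X - Polynomial.C ζ) :=
    Polynomial.X_pow_sub_one_eq_prod (by omega) (Complex.isPrimitiveRoot_exp μ (by omega))
  have h3 := congrArg (Polynomial.eval₂ (C : ℂ →+* ℂ[T;T⁻¹]) N) h2
  rw [Polynomial.eval₂_sub, Polynomial.eval₂_pow, Polynomial.eval₂_X, Polynomial.eval₂_one, h1,
    Polynomial.eval₂_finsetProd] at h3
  obtain ⟨ζ, _, hζ⟩ := Finset.prod_eq_zero_iff.1 h3.symm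
  rw [Polynomial.eval₂_sub, Polynomial.eval₂_X, Polynomial.eval₂_C, sub_eq_zero] at hζ
  exact hN ζ hζ

theorem om_ne (A : ℝ) : om - A ≠ 0 := by
  intro h
  have := congrArg Complex.im h
  simp [om] at this

theorem om_ne' (A : ℝ) : conj om - A ≠ 0 := by
  intro h
  have := congrArg Complex.im h
  simp [om] at this

theorem om_sq : om ^ 2 + om + 1 = 0 := by
  have h3 : √(3 : ℝ) * √3 = 3 := Real.mul_self_sqrt (by norm_num)
  apply Complex.ext
  · simp [om, pow_two]
    nlinarith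
  · simp [om, pow_two]
    ring

theorem om_sq' : (conj om) ^ 2 + conj om + 1 = 0 := by
  have := congrArg conj om_sq
  simpa using this

/-- roots of integer order -/
theorem exists_zpow (c : ℂ) (hc : c ≠ 0) (j : ℤ) (hj : j ≠ 0) :
    ∃ z : ℂˣ, ((z ^ j : ℂˣ) : ℂ) = c := by
  rcases lt_or_gt_of_ne hj with h | h
  · obtain ⟨n, hn⟩ : ∃ n : ℕ, j = -(n : ℤ) := ⟨j.natAbs, by omega⟩
    obtain ⟨z, hz⟩ := IsAlgClosed.exists_pow_nat_eq c⁻¹ (n := n) (by omega)
    have hz0 : z ≠ 0 := by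
      rintro rfl
      rw [zero_pow (by omega)] at hz
      exact hc (by simpa using hz.symm)
    refine ⟨Units.mk0 z hz0, ?_⟩
    rw [hn, zpow_neg, zpow_natCast]
    simp [hz]
  · obtain ⟨n, hn⟩ : ∃ n : ℕ, j = (n : ℤ) := ⟨j.natAbs, by omega⟩
    obtain ⟨z, hz⟩ := IsAlgClosed.exists_pow_nat_eq c (n := n) (by omega)
    have hz0 : z ≠ 0 := by
      rintro rfl
      rw [zero_pow (by omega)] at hz
      exact hc hz.symm
    refine ⟨Units.mk0 z hz0, ?_⟩
    rw [hn, zpow_natCast]
    simp [hz]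

end ALG

open ALG in
theorem t_ALG (h1 : S_SPEC) (h2 : S_INTEG) (h3 : S_ROOTU) (h4 : S_ONEV) : S_ALG := by
  classical
  intro Γ hFG hTF μ t v κ hμ ht heq hdvd hκ1 hnc
  -- the finite set
  set U : Finset Γ := v.coeff.support ∪ (v.coeff.support).image (·⁻¹) ∪ κ.coeff.support ∪
    (v - κ).coeff.support ∪ (v + 2 * κ - 2).coeff.support ∪ (κ ^ 2 - κ + 1).coeff.support ∪ {1}
    with hU
  have hUv : v.coeff.support ⊆ U := by
    intro x hx; simp only [hU, Finset.mem_union]; tauto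
  have hUκ : κ.coeff.support ⊆ U := by
    intro x hx; simp only [hU, Finset.mem_union]; tauto
  have hUd : (v - κ).coeff.support ⊆ U := by
    intro x hx; simp only [hU, Finset.mem_union]; tauto
  have hU4 : (v + 2 * κ - 2).coeff.support ⊆ U := by
    intro x hx; simp only [hU, Finset.mem_union]; tauto
  have hU3 : (κ ^ 2 - κ + 1).coeff.support ⊆ U := by
    intro x hx; simp only [hU, Finset.mem_union]; tauto
  have hU1 : (1 : Γ) ∈ U := by simp [hU]
  have hUs : ∀ (δ : Γ) (c : ℂ), δ ∈ U → (MonoidAlgebra.single δ c).coeff.support ⊆ U := by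
    intro δ c hδ γ hγ
    have : γ = δ := by
      by_contra hne
      rw [Finsupp.mem_support_iff, MonoidAlgebra.coeff_single, Finsupp.single_apply,
        if_neg (Ne.symm hne)] at hγ
      exact hγ rfl
    rw [this]; exact hδ
  obtain ⟨w, hw0⟩ := h1 Γ hFG hTF (((U ×ˢ U).image (fun x => x.1 * x.2⁻¹)).erase 1)
    (Finset.notMem_erase _ _)
  have hw : ∀ x ∈ U, ∀ y ∈ U, w x = w y → x = y := by
    intro x hx y hy hxy
    by_contra hne
    refine hw0 (x * y⁻¹) (Finset.mem_erase.2 ⟨fun h => hne (mul_inv_eq_one.1 h),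
      Finset.mem_image.2 ⟨(x, y), Finset.mem_product.2 ⟨hx, hy⟩, rfl⟩⟩) ?_
    rw [map_mul, map_inv, hxy, mul_inv_cancel]
  -- the image
  have hC1 : ∀ c : ℂ, Phi w (MonoidAlgebra.single 1 c) = C c := by
    intro c; rw [Phi_single, map_one, toAdd_one, T_zero, mul_one]
  have hnc' : ∀ c : ℂ, Phi w (v - κ) ≠ C c := by
    intro c hc
    exact hnc c (Phi_inj w hw hUd (hUs 1 c hU1) (by rw [hc, hC1]))
  have heq' : (Phi w v - 1) ^ (μ - 1) = (Phi w v - Phi w κ) * (Phi w κ) ^ (μ - 1) := by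
    have := congrArg (Phi w) heq
    simpa using this
  have hκ0 : Phi w κ ≠ 0 := by
    intro h0
    rw [h0, zero_pow (by omega), mul_zero] at heq'
    have h5 : Phi w v - 1 = 0 := pow_eq_zero_iff (by omega) |>.1 heq'
    refine hnc' 1 ?_
    rw [map_sub, h0, sub_zero, map_one, ← sub_eq_zero, h5]
  have hvκ : Phi w v - Phi w κ ≠ 1 := by
    intro h0
    exact hnc' 1 (by rw [map_sub, h0, map_one])
  obtain ⟨N, hNv, hNκ, hNd⟩ := h2 (Phi w v) (Phi w κ) (μ - 1) (by omega) heq' hκ0 hvκ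
  have hμ1 : μ - 1 + 1 = μ := by omega
  rw [hμ1] at hNv
  have hNc : ∀ c, N ≠ C c := by
    intro c hc
    refine hnc' (c ^ (μ - 1)) ?_
    rw [map_sub, hNd, hc, map_pow]
  have hv0 : Phi w v ≠ 0 := by
    rw [hNv]; exact ne_zero_of_not_const N μ (by omega) hNc
  -- the zeros
  have hroot : ∀ z : ℂˣ, lev z (Phi w v) = 0 → ∃ M : ℕ, 1 ≤ M ∧ z ^ M = 1 := by
    refine h3 (Phi w v) t ht hv0 ?_
    intro s hs z hz
    obtain ⟨c, hc⟩ := hdvd s hs
    rw [← lev_Phi_dil, hc, map_mul, map_mul, hz, zero_mul]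
  have hnorm : ∀ z : ℂˣ, lev z (∑ i ∈ Finset.range μ, N ^ i) = 0 → ‖(z : ℂ)‖ = 1 := by
    intro z hz
    rw [← hNv] at hz
    obtain ⟨M, hM, hz1⟩ := hroot z hz
    have : (z : ℂ) ^ M = 1 := by rw [← Units.val_pow_eq_pow_val, hz1, Units.val_one]
    exact Complex.norm_eq_one_of_pow_eq_one this (by omega)
  have him : ((∑ i ∈ Finset.range (μ - 1), N ^ i).coeff 0).im = 0 := by
    rw [← hNκ]
    have := coeff_Phi w hw hUκ hU1
    rw [map_one, toAdd_one] at this
    rw [this, hκ1]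
  rcases h4 N μ hμ hNc hnorm him with ⟨hμ4, A, B, j, hj, hN, hAB⟩ | ⟨hμ3, hcase⟩
  · left
    refine ⟨hμ4, ?_⟩
    rcases hAB with ⟨hA, hB⟩ | ⟨hμ4', hA, hB⟩
    · left
      have hB0 : B ≠ 0 := by
        rintro rfl; simp at hB
      have hd : Phi w (v - κ) = C (B ^ (μ - 1)) * T (((μ - 1 : ℕ) : ℤ) * j) := by
        rw [map_sub, hNd, hN, hA, map_zero, zero_add, mul_pow, T_pow, map_pow]
      obtain ⟨δ, hδ⟩ := Phi_mono w hw hUd (pow_ne_zero _ hB0) hd
      exact ⟨B ^ (μ - 1), δ, by rw [norm_pow, hB, one_pow], hδ⟩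
    · right
      refine ⟨hμ4', ?_⟩
      have hB0 : B ≠ 0 := by
        rintro rfl; simp at hB
      subst hμ4'
      have hd : Phi w (v + 2 * κ - 2) = C (B ^ 3) * T (((3 : ℕ) : ℤ) * j) := by
        have e1 : Phi w (v + 2 * κ - 2) = (1 + N) ^ 3 := by
          rw [map_sub, map_add, map_mul, map_ofNat, hNv, hNκ]
          simp only [Finset.sum_range_succ, Finset.sum_range_zero]
          ring
        have e2 : 1 + N = C B * T j := by
          rw [hN, hA, map_neg, map_one]; ring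
        rw [e1, e2, mul_pow, T_pow, map_pow]
      obtain ⟨δ, hδ⟩ := Phi_mono w hw hU4 (pow_ne_zero _ hB0) hd
      refine ⟨B ^ 3, δ, ?_, hδ⟩
      rw [norm_pow, ← pow_mul, mul_comm, pow_mul, hB]; norm_num
  · right
    subst hμ3
    simp only [Finset.sum_range_succ, Finset.sum_range_zero, pow_zero, pow_one, zero_add,
      Nat.add_one_sub_one] at hNv hNκ
    have hvκ3 : v = κ ^ 2 - κ + 1 := by
      refine Phi_inj w hw hUv hU3 ?_
      rw [map_add, map_sub, map_pow, map_one, hNv, hNκ]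
      ring
    refine ⟨rfl, hvκ3, ?_⟩
    rcases hcase with ⟨A, B, j, hj, hN, hB⟩ | hsym
    · left
      have hB0 : B ≠ 0 := by
        rintro rfl
        simp only [norm_zero] at hB
        nlinarith [sq_nonneg (A + 1 / 2)]
      have hκe : Phi w κ = C (1 + (A : ℂ)) + C B * T j := by
        rw [hNκ, hN, map_add, map_one]; ring
      obtain ⟨δ, hδ, hδj⟩ := Phi_supp w κ (n := j) (by
        rw [hκe, AddMonoidAlgebra.coeff_add, Finsupp.add_apply, coeff_CT, if_pos rfl, C_apply,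
          if_neg hj, zero_add]
        exact hB0)
      refine ⟨A, B, δ, ?_, ?_, hB, ?_⟩
      · rintro rfl
        rw [map_one, toAdd_one] at hδj
        exact hj hδj.symm
      · refine Phi_inj w hw hUκ ?_ ?_
        · rw [MonoidAlgebra.coeff_add]
          exact Finsupp.support_add.trans
            (Finset.union_subset (hUs 1 _ hU1) (hUs δ _ (hUκ hδ)))
        · rw [map_add, hC1, Phi_single, hδj, hκe]
      · have hz : ∀ ρ : ℂ, ρ - A ≠ 0 → ρ ^ 2 + ρ + 1 = 0 →
            ∃ M : ℕ, 1 ≤ M ∧ (ρ - A) ^ M = B ^ M := by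
          intro ρ hρ hρ2
          obtain ⟨z, hz⟩ := exists_zpow ((ρ - A) / B) (div_ne_zero hρ hB0) j hj
          have e1 : lev z N = ρ := by
            rw [hN, map_add, map_mul, lev_C, lev_C, lev_T, hz]
            field_simp
            ring
          obtain ⟨M, hM, hzM⟩ := hroot z (by
            rw [hNv, map_add, map_add, map_pow, map_one, e1, ← hρ2]; ring)
          refine ⟨M, hM, ?_⟩
          have e2 : ((ρ - A) / B) ^ M = 1 := by
            rw [← hz]
            have : (z ^ j) ^ M = 1 := by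
              rw [← zpow_natCast, ← zpow_mul, mul_comm, zpow_mul, zpow_natCast, hzM, one_zpow]
            rw [← Units.val_pow_eq_pow_val, this, Units.val_one]
          rw [div_pow, div_eq_one_iff_eq (pow_ne_zero _ hB0)] at e2
          exact e2
        obtain ⟨M₁, hM₁, e₁⟩ := hz om (om_ne A) om_sq
        obtain ⟨M₂, hM₂, e₂⟩ := hz (conj om) (om_ne' A) om_sq'
        refine ⟨M₁ * M₂, Nat.mul_pos hM₁ hM₂, ?_⟩
        rw [pow_mul, e₁, mul_comm M₁ M₂, pow_mul, e₂, ← pow_mul, ← pow_mul, mul_comm]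
    · right
      have hbN : bar N = - N - 1 := by
        ext i
        rw [coeff_bar, hsym (-i), neg_neg, AddMonoidAlgebra.coeff_sub, Finsupp.sub_apply,
          AddMonoidAlgebra.coeff_neg, Finsupp.neg_apply, ← T_zero, T_apply]
        congr 1
        by_cases hi : i = 0
        · simp [hi]
        · have : ¬ (0 : ℤ) = i := fun h => hi h.symm
          simp [hi, this]
      have hbv : bar (Phi w v) = Phi w v := by
        rw [hNv, map_add, map_add, map_pow, map_one, hbN]; ring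
      have hsymm : ∀ i : ℤ, conj ((Phi w v).coeff (-i)) = (Phi w v).coeff i := by
        intro i; rw [← coeff_bar, hbv]
      intro δ
      by_cases hδ : δ ∈ v.coeff.support ∨ δ⁻¹ ∈ v.coeff.support
      · have hδU : δ ∈ U := by
          rcases hδ with h | h
          · exact hUv h
          · have : δ ∈ (v.coeff.support).image (·⁻¹) := Finset.mem_image.2 ⟨δ⁻¹, h, inv_inv δ⟩
            simp only [hU, Finset.mem_union]; tauto
        have hδU' : δ⁻¹ ∈ U := by
          rcases hδ with h | h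
          · have : δ⁻¹ ∈ (v.coeff.support).image (·⁻¹) := Finset.mem_image.2 ⟨δ, h, rfl⟩
            simp only [hU, Finset.mem_union]; tauto
          · exact hUv h
        have e1 := coeff_Phi w hw hUv hδU
        have e2 := coeff_Phi w hw hUv hδU'
        rw [map_inv, toAdd_inv] at e2
        rw [← e1, ← e2, ← hsymm (-Multiplicative.toAdd (w δ)), neg_neg]
      · push Not at hδ
        rw [Finsupp.notMem_support_iff.1 hδ.1, Finsupp.notMem_support_iff.1 hδ.2, map_zero]

end Pool.Agent.T3h90.PP
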