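import Pool.Agent.T3h90.PP.Stm0

/-! Task BIGMU of project PP. -/

set_option autoImplicit false

namespace Pool.Agent.T3h90.PP

open Filter Topology

namespace BigmuAux

/-- unbounded sequences are unbounded along tails -/
lemma unbdd_tail (f : ℕ → ℤ) (hf : ∀ B : ℤ, ∃ t : ℕ, B ≤ f t) (B : ℤ) (t₀ : ℕ) :
    ∃ t, t₀ ≤ t ∧ B ≤ f t := by
  obtain ⟨t, ht⟩ := hf (max B (1 + ∑ i ∈ Finset.range t₀, |f i|))
  refine ⟨t, ?_, (le_max_left _ _).trans ht⟩
  by_contra hlt
  push Not at hlt
  have h1 : |f t| ≤ ∑ i ∈ Finset.range t₀, |f i| :=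
    Finset.single_le_sum (f := fun i => |f i|) (fun _ _ => abs_nonneg _) (Finset.mem_range.2 hlt)
  have h2 := (le_max_right B (1 + ∑ i ∈ Finset.range t₀, |f i|)).trans ht
  have h3 := le_abs_self (f t)
  linarith

/-- the parameter `n` -/
lemma exists_n (V K : ℤ) (r : ℕ) (hr : 1 ≤ r) (hV : 1 ≤ V) (hK : 0 ≤ K)
    (h : (V - 1) ^ r = (V - K) * K ^ r) : ∃ n : ℕ, V - 1 = n * K ∧ V - K = (n : ℤ) ^ r := by
  rcases hK.eq_or_lt with h0 | h0
  · subst h0
    rw [zero_pow (by omega), mul_zero] at h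
    have h1 : V - 1 = 0 := by
      by_contra h2
      exact pow_ne_zero r h2 h
    exact ⟨1, by simp [h1], by simp; linarith⟩
  · have h1 : K ^ r ∣ (V - 1) ^ r := ⟨V - K, by rw [h]; ring⟩
    have h2 : K ∣ V - 1 := (Int.pow_dvd_pow_iff (by omega)).1 h1
    obtain ⟨m, hm⟩ := h2
    have hm0 : 0 ≤ m := by
      by_contra hneg
      push Not at hneg
      have : K * m < 0 := mul_neg_of_pos_of_neg h0 hneg
      linarith
    obtain ⟨n, rfl⟩ := Int.eq_ofNat_of_zero_le hm0
    refine ⟨n, by rw [hm]; ring, ?_⟩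
    rw [hm, mul_pow] at h
    have hKr : K ^ r ≠ 0 := pow_ne_zero r h0.ne'
    apply mul_right_cancel₀ hKr
    rw [← h]
    ring

/-- ratios: a geometric sequence with a positive limit is constant -/
lemma geom_const (c v L : ℝ) (hL : L ≠ 0) (h : Tendsto (fun t : ℕ => c * v ^ t) atTop (𝓝 L)) :
    v = 1 ∧ c = L := by
  have h1 : Tendsto (fun t : ℕ => c * v ^ (t + 1)) atTop (𝓝 L) := h.comp (tendsto_add_atTop_nat 1)
  have h2 : Tendsto (fun t : ℕ => c * v ^ (t + 1)) atTop (𝓝 (v * L)) := by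
    have := h.const_mul v
    refine this.congr fun t => ?_
    ring
  have h3 := tendsto_nhds_unique h1 h2
  have hv : v = 1 := by
    have : v * L = 1 * L := by rw [one_mul]; exact h3.symm
    exact mul_right_cancel₀ hL this
  refine ⟨hv, ?_⟩
  subst hv
  simp only [one_pow, mul_one] at h
  exact tendsto_nhds_unique tendsto_const_nhds h

/-- a geometric sequence between positive constants is constant -/
lemma geom_bdd (c v A B : ℝ) (hc : 0 < c) (hv : 0 < v) (hA : 0 < A)
    (h1 : ∀ᶠ t : ℕ in atTop, A ≤ c * v ^ t) (h2 : ∀ᶠ t : ℕ in atTop, c * v ^ t ≤ B) : v = 1 := by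
  rcases lt_trichotomy v 1 with h | h | h
  · exfalso
    have h3 : Tendsto (fun t : ℕ => c * v ^ t) atTop (𝓝 0) := by
      have := (tendsto_pow_atTop_nhds_zero_of_lt_one hv.le h).const_mul c
      rwa [mul_zero] at this
    have h4 := ge_of_tendsto h3 h1
    linarith
  · exact h
  · exfalso
    have h3 : Tendsto (fun t : ℕ => c * v ^ t) atTop atTop :=
      (tendsto_pow_atTop_atTop_of_one_lt h).const_mul_atTop hc
    have h4 := h3.eventually (eventually_gt_atTop B)
    obtain ⟨t, h5, h6⟩ := (h2.and h4).exists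
    linarith

end BigmuAux

open BigmuAux

/-- task BIGMU -/
theorem t_BIGMU : S_BIGMU := by
  intro V K μ a T q d h b x hμ hT hq hd hh H1 H2 H3 H4
  have hq1 : (1 : ℝ) < q := by exact_mod_cast (by omega : 1 < q)
  have hq0 : (0 : ℝ) < q := by linarith
  have hh1 : (1 : ℝ) ≤ h := by exact_mod_cast hh
  have hh0 : (h : ℝ) ≠ 0 := by linarith
  choose n hn1 hn2 using fun t => exists_n (V (a + T * t)) (K (a + T * t)) (μ - 1) (by omega)
    (H1 t).1 (H1 t).2.1 (H1 t).2.2
  set Qt : ℕ → ℝ := fun t => (q : ℝ) ^ (d * (a + T * t)) with hQt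
  have hQpos : ∀ t, 0 < Qt t := fun t => by positivity
  have hQtop : Tendsto Qt atTop atTop := by
    have h1 : Tendsto (fun t : ℕ => (q : ℝ) ^ t) atTop atTop := tendsto_pow_atTop_atTop_of_one_lt hq1
    refine tendsto_atTop_mono (fun t => ?_) h1
    simp only [hQt]
    refine pow_le_pow_right₀ hq1.le ?_
    calc t ≤ T * t := Nat.le_mul_of_pos_left t (by omega)
      _ ≤ a + T * t := Nat.le_add_left _ _
      _ ≤ d * (a + T * t) := Nat.le_mul_of_pos_left _ (by omega)
  have hQgeo : ∀ t, Qt t = (q : ℝ) ^ (d * a) * ((q : ℝ) ^ (d * T)) ^ t := by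
    intro t
    simp only [hQt]
    rw [← pow_mul, ← pow_add]
    congr 1
    ring
  -- `V → ∞`
  have hVtop : Tendsto (fun t => (V (a + T * t) : ℝ)) atTop atTop := by
    have h1 : Tendsto (fun t => (V (a + T * t) : ℝ) / Qt t * Qt t) atTop atTop :=
      H2.pos_mul_atTop (by linarith) hQtop
    refine h1.congr fun t => ?_
    rw [div_mul_cancel₀ _ (hQpos t).ne']
  -- the geometric sums
  have hsum : ∀ t, n t ≠ 1 → V (a + T * t) = ∑ i ∈ Finset.range μ, (n t : ℤ) ^ i := by
    intro t ht
    have h1 : ((n t : ℤ) - 1) ≠ 0 := by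
      intro h2
      apply ht
      have : (n t : ℤ) = 1 := by linarith
      exact_mod_cast this
    apply mul_left_cancel₀ h1
    rw [mul_comm ((n t : ℤ) - 1) (∑ i ∈ Finset.range μ, (n t : ℤ) ^ i), geom_sum_mul]
    have h2 := hn1 t
    have h3 := hn2 t
    have h4 : (n t : ℤ) ^ μ = n t * (n t : ℤ) ^ (μ - 1) := by
      rw [← pow_succ']; congr 1; omega
    rw [h4, ← h3]
    linear_combination (-1 : ℤ) * h2
  rcases H4 with ⟨hb, hx⟩ | ⟨hμ4, hb, hx⟩
  · -- first case
    have hxn : ∀ t, (n t : ℝ) ^ (μ - 1) = ‖x‖ ^ (a + T * t) := by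
      intro t
      have h1 := congrArg norm (hx t)
      rw [norm_mul, hb, one_mul, norm_pow, hn2] at h1
      push_cast at h1
      rw [norm_pow, Complex.norm_natCast] at h1
      exact h1
    have hx1 : 1 < ‖x‖ := by
      by_contra hle
      push Not at hle
      obtain ⟨t, ht⟩ := H3 2
      have h1 := hxn t
      have h2 : ‖x‖ ^ (a + T * t) ≤ 1 := pow_le_one₀ (norm_nonneg _) hle
      rw [← h1] at h2
      rw [hn2] at ht
      have h3 : (2 : ℝ) ≤ (n t : ℝ) ^ (μ - 1) := by exact_mod_cast ht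
      linarith
    have hxtop : Tendsto (fun t : ℕ => ‖x‖ ^ (a + T * t)) atTop atTop := by
      refine (tendsto_pow_atTop_atTop_of_one_lt hx1).comp ?_
      refine tendsto_atTop_mono (fun t => ?_) tendsto_id
      calc t ≤ T * t := Nat.le_mul_of_pos_left t (by omega)
        _ ≤ a + T * t := Nat.le_add_left _ _
    have hntop : Tendsto (fun t => (n t : ℝ)) atTop atTop := by
      rw [tendsto_atTop] at hxtop ⊢
      intro B
      filter_upwards [hxtop ((max B 1) ^ (μ - 1))] with t ht
      rw [← hxn] at ht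
      have h1 : max B 1 ≤ (n t : ℝ) :=
        le_of_pow_le_pow_left₀ (by omega) (Nat.cast_nonneg _) ht
      exact (le_max_left _ _).trans h1
    -- `V / n ^ (μ - 1) → 1`
    have hVn : Tendsto (fun t => (V (a + T * t) : ℝ) / (n t : ℝ) ^ (μ - 1)) atTop (𝓝 1) := by
      have h1 : Tendsto (fun t => 1 + ∑ i ∈ Finset.range (μ - 1), (n t : ℝ) ^ i / (n t : ℝ) ^ (μ - 1))
          atTop (𝓝 (1 + ∑ i ∈ Finset.range (μ - 1), (0 : ℝ))) := by
        refine tendsto_const_nhds.add (tendsto_finsetSum _ fun i hi => ?_)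
        have hi' := Finset.mem_range.1 hi
        have h2 : Tendsto (fun y : ℝ => y ^ i / y ^ (μ - 1)) atTop (𝓝 0) := by
          have := tendsto_pow_div_pow_atTop_zero (𝕜 := ℝ) hi'
          exact this
        exact h2.comp hntop
      rw [Finset.sum_const_zero, add_zero] at h1
      refine h1.congr' ?_
      filter_upwards [hntop.eventually (eventually_ge_atTop 2)] with t ht
      have hn1' : n t ≠ 1 := by
        intro h2
        rw [h2] at ht
        norm_num at ht
      rw [hsum t hn1']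
      push_cast
      have h3 : μ = (μ - 1) + 1 := by omega
      conv_rhs => rw [h3, Finset.sum_range_succ]
      have hne : (n t : ℝ) ^ (μ - 1) ≠ 0 := by positivity
      simp only [Nat.add_sub_cancel]
      rw [add_div, div_self hne, Finset.sum_div]
      ring
    have hlim : Tendsto (fun t => (n t : ℝ) ^ (μ - 1) / Qt t) atTop (𝓝 (h : ℝ)) := by
      have h1 := H2.div hVn one_ne_zero
      rw [div_one] at h1
      refine h1.congr' ?_
      filter_upwards [hVtop.eventually (eventually_gt_atTop 0),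
        hntop.eventually (eventually_ge_atTop 2)] with t ht ht2
      have h2 : (n t : ℝ) ^ (μ - 1) ≠ 0 := by positivity
      have h3 := (hQpos t).ne'
      have h4 := ht.ne'
      simp only [hQt, Pi.div_apply] at h3 ⊢
      field_simp
    have hgeo : Tendsto (fun t : ℕ => (‖x‖ ^ a / (q : ℝ) ^ (d * a)) *
        (‖x‖ ^ T / (q : ℝ) ^ (d * T)) ^ t) atTop (𝓝 (h : ℝ)) := by
      refine hlim.congr fun t => ?_
      rw [hxn, hQgeo, pow_add, pow_mul, div_pow]
      field_simp
    obtain ⟨hv, hc⟩ := geom_const _ _ _ hh0 hgeo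
    have hxq : ‖x‖ = (q : ℝ) ^ d := by
      have h1 : (q : ℝ) ^ (d * T) ≠ 0 := by positivity
      rw [div_eq_one_iff_eq h1, pow_mul] at hv
      exact (pow_left_inj₀ (norm_nonneg _) (by positivity) (by omega)).1 hv
    intro t
    have h1 := hxn t
    rw [hxq, ← pow_mul] at h1
    rw [hn2]
    exact_mod_cast h1
  · -- second case
    exfalso
    subst hμ4
    -- shape of `V + 2 K - 2`
    have hshape : ∀ t, (n t = 1 ∧ V (a + T * t) = K (a + T * t) + 1) ∨
        (V (a + T * t) = 1 + n t + (n t : ℤ) ^ 2 + (n t : ℤ) ^ 3 ∧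
          V (a + T * t) + 2 * K (a + T * t) - 2 = ((n t : ℤ) + 1) ^ 3) := by
      intro t
      by_cases ht : n t = 1
      · left
        refine ⟨ht, ?_⟩
        have := hn1 t
        rw [ht] at this
        push_cast at this
        linarith
      · right
        have h1 := hsum t ht
        simp only [Finset.sum_range_succ, Finset.range_zero, Finset.sum_empty, pow_zero, pow_one,
          zero_add] at h1
        refine ⟨h1, ?_⟩
        have h2 := hn2 t
        have h3 : (4 - 1 : ℕ) = 3 := rfl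
        rw [h3] at h2
        have h4 : K (a + T * t) = V (a + T * t) - (n t : ℤ) ^ 3 := by linarith
        rw [h4, h1]
        ring
    -- eventually bounds
    have hbd : ∀ᶠ t in atTop, (V (a + T * t) : ℝ) ≤ ((V (a + T * t) + 2 * K (a + T * t) - 2 : ℤ) : ℝ)
        ∧ ((V (a + T * t) + 2 * K (a + T * t) - 2 : ℤ) : ℝ) ≤ 3 * V (a + T * t) := by
      filter_upwards [hVtop.eventually (eventually_ge_atTop 2)] with t ht
      have ht' : 2 ≤ V (a + T * t) := by exact_mod_cast ht
      have key : V (a + T * t) ≤ V (a + T * t) + 2 * K (a + T * t) - 2 ∧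
          V (a + T * t) + 2 * K (a + T * t) - 2 ≤ 3 * V (a + T * t) := by
        rcases hshape t with ⟨h1, h2⟩ | ⟨h1, h2⟩
        · constructor <;> linarith
        · have hn0 : (0 : ℤ) ≤ n t := by positivity
          have hn01 : (1 : ℤ) ≤ n t := by
            by_contra h3
            have h4 : (n t : ℤ) = 0 := by linarith
            rw [h4] at h1
            norm_num at h1
            linarith
          rw [h2, h1]
          constructor <;> nlinarith [sq_nonneg ((n t : ℤ) - 1), mul_nonneg hn0 (sq_nonneg ((n t : ℤ) - 1)), mul_nonneg hn0 hn0]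
      exact_mod_cast key
    have hWn : ∀ᶠ t in atTop, ((V (a + T * t) + 2 * K (a + T * t) - 2 : ℤ) : ℝ) =
        ‖b‖ * ‖x‖ ^ (a + T * t) := by
      filter_upwards [hbd, hVtop.eventually (eventually_ge_atTop 2)] with t ht ht2
      have h1 := congrArg norm (hx t)
      rw [norm_mul, norm_pow] at h1
      rw [← h1]
      have h2 : ((V (a + T * t) + 2 * K (a + T * t) - 2 : ℤ) : ℂ) =
          (((V (a + T * t) + 2 * K (a + T * t) - 2 : ℤ) : ℝ) : ℂ) := by push_cast; ring
      rw [h2, Complex.norm_real, Real.norm_of_nonneg (by linarith [ht.1])]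
    have hb0 : 0 < ‖b‖ := by
      rcases (norm_nonneg b).eq_or_lt with h1 | h1
      · rw [← h1] at hb; norm_num at hb
      · exact h1
    have hx0 : 0 < ‖x‖ := by
      rcases (norm_nonneg x).eq_or_lt with h1 | h1
      · exfalso
        obtain ⟨t, h2, h3, h4, h5⟩ := (hWn.and (hbd.and ((hVtop.eventually (eventually_ge_atTop 2)).and
          (eventually_ge_atTop 1)))).exists
        rw [← h1, zero_pow (by
          have : 1 ≤ T * t := Nat.mul_pos (by omega) (by omega)
          omega), mul_zero] at h2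
        linarith [h3.1]
      · exact h1
    set c : ℝ := ‖b‖ * ‖x‖ ^ a / (q : ℝ) ^ (d * a) with hc
    set v : ℝ := ‖x‖ ^ T / (q : ℝ) ^ (d * T) with hv
    have hcv : ∀ t : ℕ, ‖b‖ * ‖x‖ ^ (a + T * t) / Qt t = c * v ^ t := by
      intro t
      rw [hQgeo, pow_add, pow_mul, hc, hv, div_pow]
      field_simp
    have hlow : ∀ᶠ t : ℕ in atTop, (h : ℝ) / 2 ≤ c * v ^ t := by
      filter_upwards [H2.eventually (lt_mem_nhds (show (h : ℝ) / 2 < h by linarith)), hWn, hbd]
        with t h1 h2 h3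
      rw [← hcv, ← h2]
      refine h1.le.trans ?_
      exact div_le_div_of_nonneg_right h3.1 (hQpos t).le
    have hupp : ∀ᶠ t : ℕ in atTop, c * v ^ t ≤ 3 * (2 * h) := by
      filter_upwards [H2.eventually (gt_mem_nhds (show (h : ℝ) < 2 * h by linarith)), hWn, hbd]
        with t h1 h2 h3
      rw [← hcv, ← h2]
      calc ((V (a + T * t) + 2 * K (a + T * t) - 2 : ℤ) : ℝ) / Qt t ≤
          3 * V (a + T * t) / Qt t := div_le_div_of_nonneg_right h3.2 (hQpos t).le
        _ = 3 * (V (a + T * t) / Qt t) := by ring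
        _ ≤ 3 * (2 * h) := by
          have : (V (a + T * t) : ℝ) / Qt t ≤ 2 * h := h1.le
          linarith
    have hv1 : v = 1 := geom_bdd c v (h / 2) (3 * (2 * h)) (by positivity) (by positivity)
      (by linarith) hlow hupp
    have hxq : ‖x‖ = (q : ℝ) ^ d := by
      have h1 : (q : ℝ) ^ (d * T) ≠ 0 := by positivity
      rw [hv, div_eq_one_iff_eq h1, pow_mul] at hv1
      exact (pow_left_inj₀ (norm_nonneg _) (by positivity) (by omega)).1 hv1
    have hWQ : ∀ᶠ t in atTop, ((V (a + T * t) + 2 * K (a + T * t) - 2 : ℤ) : ℝ) = ‖b‖ * Qt t := by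
      filter_upwards [hWn] with t ht
      rw [ht, hxq, ← pow_mul]
    -- `V / (n + 1) ^ 3 → h / ‖b‖`
    have hlimV : Tendsto (fun t => (V (a + T * t) : ℝ) /
        ((V (a + T * t) + 2 * K (a + T * t) - 2 : ℤ) : ℝ)) atTop (𝓝 ((h : ℝ) / ‖b‖)) := by
      have h1 := H2.div_const ‖b‖
      refine h1.congr' ?_
      filter_upwards [hWQ] with t ht
      rw [ht, div_div]
      simp only [hQt]
      rw [mul_comm ((q : ℝ) ^ (d * (a + T * t))) ‖b‖]
    -- it is near one along a subsequence
    have hone : (h : ℝ) / ‖b‖ = 1 := by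
      by_contra hne
      set δ : ℝ := |(h : ℝ) / ‖b‖ - 1| / 2 with hδ
      have hδ0 : 0 < δ := by
        have : 0 < |(h : ℝ) / ‖b‖ - 1| := abs_pos.2 (sub_ne_zero.2 hne)
        positivity
      have h1 : ∀ᶠ t in atTop, |(V (a + T * t) : ℝ) /
          ((V (a + T * t) + 2 * K (a + T * t) - 2 : ℤ) : ℝ) - (h : ℝ) / ‖b‖| < δ := by
        have := hlimV.eventually (Metric.ball_mem_nhds _ hδ0)
        filter_upwards [this] with t ht
        rwa [Real.dist_eq] at ht
      obtain ⟨t₀, ht₀⟩ := eventually_atTop.1 (h1.and (hVtop.eventually (eventually_ge_atTop 2)))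
      obtain ⟨B, hB⟩ := exists_nat_gt (2 / δ)
      obtain ⟨t, ht, htB⟩ := unbdd_tail (fun t => V (a + T * t) - K (a + T * t)) H3
        ((B : ℤ) ^ 3 + 2) t₀
      obtain ⟨h2, h3⟩ := ht₀ t ht
      have h4 : (4 - 1 : ℕ) = 3 := rfl
      rw [hn2, h4] at htB
      have hnB : B < n t := by
        have h5 : (B : ℤ) ^ 3 < (n t : ℤ) ^ 3 := by linarith
        have h6 : B ^ 3 < (n t) ^ 3 := by exact_mod_cast h5
        exact lt_of_pow_lt_pow_left₀ 3 (Nat.zero_le _) h6
      have hn1' : n t ≠ 1 := by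
        intro h5
        rw [h5] at htB
        have : (0 : ℤ) ≤ (B : ℤ) ^ 3 := by positivity
        norm_num at htB
        linarith
      rcases hshape t with ⟨h5, _⟩ | ⟨h5, h6⟩
      · exact hn1' h5
      · rw [h6, h5] at h2
        push_cast at h2
        have hnB' : (B : ℝ) < n t := by exact_mod_cast hnB
        set y : ℝ := (n t : ℝ) with hy
        have hy0 : 0 ≤ y := by positivity
        have hyp : (0 : ℝ) < y + 1 := by linarith
        have e1 : (1 + y + y ^ 2 + y ^ 3) / (y + 1) ^ 3 - 1 = -(2 * y / (y + 1) ^ 2) := by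
          field_simp; ring
        have e2 : 2 * y / (y + 1) ^ 2 ≤ 2 / (y + 1) := by
          rw [div_le_div_iff₀ (by positivity) hyp]
          nlinarith
        have e3 : 2 / (y + 1) < δ := by
          rw [div_lt_iff₀ hδ0] at hB
          rw [div_lt_iff₀ hyp]
          nlinarith
        have e4 : |(1 + y + y ^ 2 + y ^ 3) / (y + 1) ^ 3 - 1| < δ := by
          rw [e1, abs_neg, abs_of_nonneg (by positivity)]
          linarith
        have e5 : |(h : ℝ) / ‖b‖ - 1| ≤ |(1 + y + y ^ 2 + y ^ 3) / (y + 1) ^ 3 - (h : ℝ) / ‖b‖| +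
            |(1 + y + y ^ 2 + y ^ 3) / (y + 1) ^ 3 - 1| := by
          have := abs_sub_le ((h : ℝ) / ‖b‖) ((1 + y + y ^ 2 + y ^ 3) / (y + 1) ^ 3) 1
          rwa [abs_sub_comm ((h : ℝ) / ‖b‖) ((1 + y + y ^ 2 + y ^ 3) / (y + 1) ^ 3)] at this
        have e6 : |(h : ℝ) / ‖b‖ - 1| = 2 * δ := by rw [hδ]; ring
        linarith
    have hhb : (h : ℝ) ^ 2 = 8 := by
      rw [div_eq_one_iff_eq hb0.ne'] at hone
      rw [hone, hb]
    have hh2 : h ^ 2 = 8 := by exact_mod_cast hhb
    have : h ≤ 2 ∨ 3 ≤ h := by omega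
    rcases this with h1 | h1
    · interval_cases h <;> omega
    · nlinarith

end Pool.Agent.T3h90.PP
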