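import Pool.Agent.T3h90.PP.Stm

/-! Task CNT: counting the solutions of quantifier-free formulas in a definable group -/

set_option autoImplicit false

namespace Pool.Agent.T3h90.PP

open Pool.Agent.T2h48.DW Pool.Agent.T2h48.AD

/-- renaming of the variables -/
noncomputable def cntRen {F : Type} [CommRing F] {n n' : ℕ} (f : Fin n → Fin n') : QF F n → QF F n'
  | QF.eq g => QF.eq (MvPolynomial.rename f g)
  | QF.neg φ => QF.neg (cntRen f φ)
  | QF.and φ ψ => QF.and (cntRen f φ) (cntRen f ψ)

theorem holds_cntRen {F K : Type} [CommRing F] [CommRing K] [Algebra F K] {n n' : ℕ}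
    (f : Fin n → Fin n') (φ : QF F n) (x : Fin n' → K) :
    (cntRen f φ).Holds x ↔ φ.Holds (fun i => x (f i)) := by
  induction φ with
  | eq g =>
    show MvPolynomial.aeval x (MvPolynomial.rename f g) = 0 ↔ _
    rw [MvPolynomial.aeval_rename]
    rfl
  | neg φ ih => exact not_congr ih
  | and φ ψ h1 h2 => exact and_congr h1 h2

/-- the conjunction of the `G (x_i)` -/
theorem cnt_all {F : Type} [CommRing F] {a N : ℕ} (G : QF F a) (l : List (Fin N)) :
    ∃ ψ : QF F (N * a), ∀ (K : Type) [CommRing K] [Algebra F K] (x : Fin (N * a) → K),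
      ψ.Holds x ↔ ∀ i ∈ l, G.Holds (fun j => x (finProdFinEquiv (i, j))) := by
  induction l with
  | nil =>
    refine ⟨QF.eq 0, fun K _ _ x => ?_⟩
    show MvPolynomial.aeval x (0 : MvPolynomial (Fin (N * a)) F) = 0 ↔ _
    simp
  | cons i l ih =>
    obtain ⟨ψ, hψ⟩ := ih
    refine ⟨QF.and (cntRen (fun j => finProdFinEquiv (i, j)) G) ψ, fun K _ _ x => ?_⟩
    show (cntRen (fun j => finProdFinEquiv (i, j)) G).Holds x ∧ ψ.Holds x ↔ _
    rw [holds_cntRen, hψ K x, List.forall_mem_cons]

/-- the translation of the formulas -/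
noncomputable def cntTr {F : Type} [CommRing F] {a N : ℕ} (D : QF F a) (M : QF F (a + a + a)) :
    GF N → QF F (N * a)
  | GF.inD i => cntRen (fun j => finProdFinEquiv (i, j)) D
  | GF.mul i j k => cntRen (Fin.append (Fin.append (fun l => finProdFinEquiv (i, l))
      (fun l => finProdFinEquiv (j, l))) (fun l => finProdFinEquiv (k, l))) M
  | GF.neg φ => QF.neg (cntTr D M φ)
  | GF.and φ ψ => QF.and (cntTr D M φ) (cntTr D M ψ)

theorem holds_cntTr {F K : Type} [Field F] [Field K] [Algebra F K] {a N : ℕ} (G D : QF F a)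
    (M : QF F (a + a + a)) (φ : GF N) (x : Fin N → Pt G K) (y : Fin (N * a) → K)
    (hxy : ∀ i j, y (finProdFinEquiv (i, j)) = (x i).1 j) :
    (cntTr D M φ).Holds y ↔ φ.Holds (fun g => D.Holds g.1)
      (fun x y z => M.Holds (Fin.append (Fin.append x.1 y.1) z.1)) x := by
  induction φ with
  | inD i =>
    show (cntRen (fun j => finProdFinEquiv (i, j)) D).Holds y ↔ D.Holds (x i).1
    rw [holds_cntRen]
    have : (fun j => y (finProdFinEquiv (i, j))) = (x i).1 := funext fun j => hxy i j
    rw [this]
  | mul i j k =>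
    show (cntRen (Fin.append (Fin.append (fun l => finProdFinEquiv (i, l))
      (fun l => finProdFinEquiv (j, l))) (fun l => finProdFinEquiv (k, l))) M).Holds y ↔
      M.Holds (Fin.append (Fin.append (x i).1 (x j).1) (x k).1)
    rw [holds_cntRen]
    have e : (fun l => y (Fin.append (Fin.append (fun l => finProdFinEquiv (i, l))
      (fun l => finProdFinEquiv (j, l))) (fun l => finProdFinEquiv (k, l)) l)) =
      Fin.append (Fin.append (x i).1 (x j).1) (x k).1 := by
      funext l
      refine Fin.addCases (fun l => ?_) (fun l => ?_) l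
      · rw [Fin.append_left, Fin.append_left]
        refine Fin.addCases (fun l => ?_) (fun l => ?_) l
        · rw [Fin.append_left, Fin.append_left, hxy]
        · rw [Fin.append_right, Fin.append_right, hxy]
      · rw [Fin.append_right, Fin.append_right, hxy]
    rw [e]
  | neg φ ih => exact not_congr ih
  | and φ ψ h1 h2 => exact and_congr h1 h2

theorem t_CNT (h : Pool.Agent.T2h48.DW.S_DWORK) : S_CNT := by
  intro F _ _ a G D M N φ
  obtain ⟨ψ, hψ⟩ := cnt_all (F := F) (a := a) (N := N) G (List.finRange N)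
  obtain ⟨W, hW, hWK⟩ := h F (N * a) (QF.and ψ (cntTr D M φ))
  refine ⟨W, hW, fun K _ _ m hm hK => ?_⟩
  rw [← hWK K m hm hK]
  congr 1
  refine Nat.card_congr
    { toFun := fun x => ⟨fun s => (x.1 (finProdFinEquiv.symm s).1).1 (finProdFinEquiv.symm s).2, ?_, ?_⟩
      invFun := fun y => ⟨fun i => ⟨fun j => y.1 (finProdFinEquiv (i, j)), ?_⟩, ?_⟩
      left_inv := ?_
      right_inv := ?_ }
  · rw [hψ K]
    intro i _
    simp only [Equiv.symm_apply_apply]
    exact (x.1 i).2
  · rw [holds_cntTr G D M φ x.1 _ (fun i j => by simp only [Equiv.symm_apply_apply])]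
    exact x.2
  · exact (hψ K y.1).1 y.2.1 i (List.mem_finRange i)
  · rw [← holds_cntTr G D M φ _ y.1 (fun i j => rfl)]
    exact y.2.2
  · intro x
    apply Subtype.ext
    funext i
    apply Subtype.ext
    funext j
    simp only [Equiv.symm_apply_apply]
  · intro y
    apply Subtype.ext
    funext s
    simp only [Prod.mk.eta, Equiv.apply_symm_apply]

end Pool.Agent.T3h90.PP
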