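import Pool.Agent.T3h90.PP.Stm0

/-!
# Task CYC2
-/

set_option autoImplicit false

namespace Pool.Agent.T3h90.PP

open ComplexConjugate

theorem om_sq : om ^ 2 = -1 - om := by
  have h3 : (√3 : ℝ) * √3 = 3 := Real.mul_self_sqrt (by norm_num)
  apply Complex.ext
  · simp [om, pow_two, Complex.mul_re]
    nlinarith
  · simp [om, pow_two, Complex.mul_im]
    ring

theorem om_conj : conj om = -1 - om := by
  apply Complex.ext
  · simp [om]
    norm_num
  · simp [om]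

theorem t_CYC2 : S_CYC2 := by
  intro A M hM h
  -- the norm `n = A ^ 2 + A + 1`
  have hn0 : 0 < A ^ 2 + A + 1 := by nlinarith [sq_nonneg (2 * A + 1)]
  set u : ℂ := om - A with hu
  set w : ℂ := conj om - A with hw
  have hw' : w = -1 - om - A := by rw [hw, om_conj]
  have huw : u * w = ((A ^ 2 + A + 1 : ℤ) : ℂ) := by
    rw [hw', hu]
    push_cast
    linear_combination (-1 : ℂ) * om_sq
  have hsum : u + w = -1 - 2 * A := by rw [hw', hu]; ring
  have hnC : ((A ^ 2 + A + 1 : ℤ) : ℂ) ≠ 0 := by exact_mod_cast hn0.ne'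
  have hu0 : u ≠ 0 := fun h0 => hnC (by rw [← huw, h0, zero_mul])
  have hw0 : w ≠ 0 := fun h0 => hnC (by rw [← huw, h0, mul_zero])
  have hr : (u / w) ^ M = 1 := by rw [div_pow, h, div_self (pow_ne_zero _ hw0)]
  have hr' : (w / u) ^ M = 1 := by rw [div_pow, ← h, div_self (pow_ne_zero _ hu0)]
  have hi1 : IsIntegral ℤ (u / w) := by
    refine IsIntegral.of_pow hM ?_
    rw [hr]; exact isIntegral_one
  have hi2 : IsIntegral ℤ (w / u) := by
    refine IsIntegral.of_pow hM ?_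
    rw [hr']; exact isIntegral_one
  have hi : IsIntegral ℤ (u / w + w / u) := hi1.add hi2
  have hval : u / w + w / u = algebraMap ℚ ℂ (2 - 3 / ((A ^ 2 + A + 1 : ℤ) : ℚ)) := by
    have e1 : u / w + w / u = ((u + w) ^ 2 - 2 * (u * w)) / (u * w) := by
      field_simp
      ring
    rw [e1, hsum, huw]
    rw [eq_ratCast]
    have e2 : (((2 - 3 / ((A ^ 2 + A + 1 : ℤ) : ℚ)) : ℚ) : ℂ) = 2 - 3 / ((A ^ 2 + A + 1 : ℤ) : ℂ) := by
      push_cast
      ring
    rw [e2, div_eq_iff hnC, sub_mul, div_mul_cancel₀ _ hnC]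
    push_cast
    ring
  rw [hval] at hi
  have hi' : IsIntegral ℤ (2 - 3 / ((A ^ 2 + A + 1 : ℤ) : ℚ)) :=
    (isIntegral_algebraMap_iff (algebraMap ℚ ℂ).injective).1 hi
  obtain ⟨k, hk⟩ := IsIntegrallyClosed.isIntegral_iff.1 hi'
  have hnQ : ((A ^ 2 + A + 1 : ℤ) : ℚ) ≠ 0 := by exact_mod_cast hn0.ne'
  have hk' : (k : ℚ) * ((A ^ 2 + A + 1 : ℤ) : ℚ) = 2 * ((A ^ 2 + A + 1 : ℤ) : ℚ) - 3 := by
    have : (k : ℚ) = 2 - 3 / ((A ^ 2 + A + 1 : ℤ) : ℚ) := by simpa using hk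
    rw [this]; field_simp
  have hk2 : (2 - k) * (A ^ 2 + A + 1) = 3 := by
    have : k * (A ^ 2 + A + 1) = 2 * (A ^ 2 + A + 1) - 3 := by exact_mod_cast hk'
    linarith
  have hdvd : (A ^ 2 + A + 1) ∣ 3 := ⟨2 - k, by linarith⟩
  have hle : A ^ 2 + A + 1 ≤ 3 := Int.le_of_dvd (by norm_num) hdvd
  have hA1 : A ≤ 1 := by nlinarith
  have hA2 : -2 ≤ A := by nlinarith
  interval_cases A
  · right; right; norm_num
  · right; left; rfl
  · left; rfl
  · right; right; norm_num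

end Pool.Agent.T3h90.PP
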