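import Pool.Agent.T3h90.PP.Stm0

/-! Task DIRI of project PP. -/

set_option autoImplicit false

namespace Pool.Agent.T3h90.PP

namespace DiriAux

/-- `p` is a square modulo a prime `ℓ ≡ -1` modulo `8 p` -/
lemma isSquare_of (p ℓ : ℕ) [Fact p.Prime] [Fact ℓ.Prime] (h : 8 * p ∣ ℓ + 1) (hlt : p < ℓ) :
    IsSquare ((p : ℕ) : ZMod ℓ) := by
  have hp : p.Prime := Fact.out
  have hℓ : ℓ.Prime := Fact.out
  have h8 : 8 ∣ ℓ + 1 := (dvd_mul_right 8 p).trans h
  have hpd : p ∣ ℓ + 1 := (dvd_mul_left p 8).trans h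
  have hℓ2 : ℓ ≠ 2 := by omega
  rcases hp.eq_two_or_odd' with rfl | hodd
  · have := (ZMod.exists_sq_eq_two_iff hℓ2).2 (by omega)
    exact_mod_cast this
  · have hp2 : p ≠ 2 := by rintro rfl; revert hodd; decide
    have hne : ((p : ℕ) : ZMod ℓ) ≠ 0 := by
      rw [Ne, ZMod.natCast_eq_zero_iff]
      intro h1
      have := Nat.le_of_dvd hp.pos h1
      omega
    have hne' : (((p : ℕ) : ℤ) : ZMod ℓ) ≠ 0 := by exact_mod_cast hne
    have h1 := legendreSym.quadratic_reciprocity' (p := p) (q := ℓ) hp2 hℓ2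
    have h2 : legendreSym p (ℓ : ℤ) = legendreSym p (-1) := by
      have h3 : ((ℓ : ℤ) : ZMod p) = ((-1 : ℤ) : ZMod p) := by
        have : ((ℓ + 1 : ℕ) : ZMod p) = 0 := (ZMod.natCast_eq_zero_iff _ _).2 hpd
        push_cast at this ⊢
        linear_combination this
      unfold legendreSym
      rw [h3]
    rw [h2, legendreSym.at_neg_one hp2, ZMod.χ₄_eq_neg_one_pow (Nat.odd_iff.1 hodd)] at h1
    have h4 : (-1 : ℤ) ^ (p / 2 * (ℓ / 2)) * (-1) ^ (p / 2) = 1 := by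
      rw [← pow_add]
      have : p / 2 * (ℓ / 2) + p / 2 = p / 2 * (ℓ / 2 + 1) := by ring
      rw [this]
      have hev : Even (ℓ / 2 + 1) := by
        rw [Nat.even_iff]; omega
      exact (hev.mul_left _).neg_one_pow
    rw [h4] at h1
    have h5 := (legendreSym.eq_one_iff ℓ hne').1 h1
    exact_mod_cast h5

end DiriAux

open DiriAux

/-- task DIRI -/
theorem t_DIRI : S_DIRI := by
  intro p j v T hp hv hT
  have hq : 8 * p * v * T ≠ 0 := by
    have := hp.pos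
    positivity
  have : NeZero (8 * p * v * T) := ⟨hq⟩
  obtain ⟨ℓ, hℓgt, hℓ, hmod⟩ := Nat.forall_exists_prime_gt_and_eq_mod (q := 8 * p * v * T)
    (a := -1) isUnit_one.neg p
  have hdvd : 8 * p * v * T ∣ ℓ + 1 := by
    rw [← ZMod.natCast_eq_zero_iff]
    push_cast
    rw [hmod]; ring
  have h1 : 8 * p ∣ ℓ + 1 := ⟨v * T * ((ℓ + 1) / (8 * p * v * T)), by
    conv_lhs => rw [← Nat.mul_div_cancel' hdvd]
    ring⟩
  have : Fact p.Prime := ⟨hp⟩
  have : Fact ℓ.Prime := ⟨hℓ⟩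
  have hsq := isSquare_of p ℓ h1 hℓgt
  have hne : ((p : ℕ) : ZMod ℓ) ≠ 0 := by
    rw [Ne, ZMod.natCast_eq_zero_iff]
    intro h1
    have := Nat.le_of_dvd hp.pos h1
    omega
  have hs := (ZMod.euler_criterion ℓ hne).1 hsq
  obtain ⟨m, hm⟩ := hdvd
  have hℓ8 : ℓ + 1 = 8 * (p * v * T * m) := by rw [hm]; ring
  set s := ℓ / 2 with hsdef
  have hs1 : s + 1 = T * (4 * p * v * m) := by
    have : s + 1 = 4 * (p * v * T * m) := by omega
    rw [this]; ring
  have hspos : 1 ≤ s := by have := hℓ.two_le; omega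
  refine ⟨ℓ, 4 * p * v * m * (s - 1), hℓ, ⟨8 * p * T * m, by rw [hm]; ring⟩, ?_⟩
  have hexp : 1 + T * (4 * p * v * m * (s - 1)) = s * s := by
    have h2 : T * (4 * p * v * m * (s - 1)) = (s + 1) * (s - 1) := by rw [hs1]; ring
    rw [h2]
    obtain ⟨k, hk⟩ : ∃ k, s = k + 1 := ⟨s - 1, by omega⟩
    rw [hk]
    simp only [Nat.add_sub_cancel]
    ring
  rw [hexp]
  have hge : 1 ≤ (p ^ j) ^ (s * s) := Nat.one_le_pow _ _ (Nat.pow_pos hp.pos)
  rw [← ZMod.natCast_eq_zero_iff, Nat.cast_sub hge]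
  push_cast
  rw [← pow_mul]
  have : j * (s * s) = s * (j * s) := by ring
  rw [this, pow_mul, hs, one_pow, sub_self]

end Pool.Agent.T3h90.PP
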