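import Pool.Agent.T3h90.PP.Stm
import Pool.Agent.T2h48.DW.T_ARITH

/-! Task GAL: `(K m - A') ^ 2 = 3 q ^ (d m)` is impossible along a progression -/

set_option autoImplicit false

namespace Pool.Agent.T3h90.PP

open Pool.Agent.T2h48.DW
open Filter Topology ComplexConjugate

theorem gal_cos (a' : ℕ) (ha : 1 ≤ a') (m : ℕ) (x : ℝ)
    (hx : x = Real.cos (2 * Real.pi * (m : ℝ) / (12 * a'))) :
    Complex.exp (2 * Real.pi * Complex.I / (12 * a')) ^ m +
      (Complex.exp (2 * Real.pi * Complex.I / (12 * a')))⁻¹ ^ m = 2 * (x : ℂ) := by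
  rw [hx, Complex.ofReal_cos, Complex.two_cos, ← Complex.exp_neg, ← Complex.exp_nat_mul,
    ← Complex.exp_nat_mul]
  have ha0 : (a' : ℂ) ≠ 0 := by
    have : a' ≠ 0 := by omega
    exact_mod_cast this
  congr 2
  · push_cast
    field_simp
  · push_cast
    field_simp

theorem t_GAL (h : S_GALU) : S_GAL := by
  classical
  intro K hK hpos a T q d A' ha hT hq hd hall
  obtain ⟨S, n, hS0, -, hKS⟩ := hK
  -- the square root of `q ^ d`
  set r : ℝ := √((q : ℝ) ^ d) with hr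
  have hq1 : (1 : ℝ) < q := by exact_mod_cast (by omega : 1 < q)
  have hqd : (1 : ℝ) < (q : ℝ) ^ d := one_lt_pow₀ hq1 (by omega)
  have hr1 : 1 < r := by
    rw [hr, Real.lt_sqrt (by norm_num)]
    simpa using hqd
  have hr0 : 0 < r := by linarith
  have hr2 : r ^ 2 = (q : ℝ) ^ d := Real.sq_sqrt (by positivity)
  have h3 : (0 : ℝ) < √3 := Real.sqrt_pos.2 (by norm_num)
  have h33 : √3 ^ 2 = (3 : ℝ) := Real.sq_sqrt (by norm_num)
  have hsq : ∀ t : ℕ, (((K (a + T * t) : ℤ) : ℝ) - A') ^ 2 = (√3 * r ^ (a + T * t)) ^ 2 := by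
    intro t
    have h1 : ((((K (a + T * t) - A') ^ 2 : ℤ)) : ℝ) = ((3 * (q : ℤ) ^ (d * (a + T * t)) : ℤ) : ℝ) := by
      rw [hall t]
    push_cast at h1
    rw [h1, mul_pow, h33, ← pow_mul, mul_comm (a + T * t) 2, pow_mul r 2, hr2, ← pow_mul]
  have htend : Tendsto (fun m : ℕ => √3 * r ^ m) atTop atTop :=
    (tendsto_pow_atTop_atTop_of_one_lt hr1).const_mul_atTop h3
  obtain ⟨m₀, hm₀⟩ := (htend.eventually_gt_atTop (A' : ℝ)).exists_forall_of_atTop
  have hplus : ∀ t : ℕ, m₀ ≤ a + T * t → ((K (a + T * t) : ℤ) : ℝ) = A' + √3 * r ^ (a + T * t) := by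
    intro t ht
    have h1 := hsq t
    rcases sq_eq_sq_iff_eq_or_eq_neg.1 h1 with h2 | h2
    · linarith
    · exfalso
      have h4 := hm₀ _ ht
      have h5 : (0 : ℝ) ≤ K (a + T * t) := by exact_mod_cast hpos (a + T * t) (by omega)
      linarith
  -- the beginning
  obtain ⟨a', ha', hma', t₁, ht₁⟩ : ∃ a' : ℕ, 1 ≤ a' ∧ m₀ ≤ a' ∧ ∃ t₁, a' = a + T * t₁ := by
    refine ⟨a + T * m₀, by omega, ?_, m₀, rfl⟩
    have : m₀ ≤ T * m₀ := Nat.le_mul_of_pos_left _ hT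
    omega
  have hplus' : ∀ t : ℕ, ((K (a' + T * t) : ℤ) : ℝ) = A' + √3 * r ^ (a' + T * t) := by
    intro t
    have h1 := hplus (t₁ + t) (by
      have : a' ≤ a + T * (t₁ + t) := by rw [ht₁, mul_add]; omega
      omega)
    have h2 : a + T * (t₁ + t) = a' + T * t := by rw [ht₁]; ring
    rw [h2] at h1
    exact h1
  obtain ⟨M, hM⟩ : ∃ M : ℕ, M = 12 * a' * T := ⟨_, rfl⟩
  have hM1 : 1 ≤ M := by
    rw [hM]
    have : 0 < 12 * a' * T := by positivity
    omega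
  -- the root of unity
  obtain ⟨ζ, hζ⟩ : ∃ ζ : ℂ, ζ = Complex.exp (2 * Real.pi * Complex.I / (12 * a')) := ⟨_, rfl⟩
  have hζ0 : ζ ≠ 0 := by rw [hζ]; exact Complex.exp_ne_zero _
  have ha0 : (a' : ℝ) ≠ 0 := by
    have : a' ≠ 0 := by omega
    exact_mod_cast this
  have hζM : ζ ^ (12 * a') = 1 := by
    rw [hζ, ← Complex.exp_nat_mul]
    have ha0' : (a' : ℂ) ≠ 0 := by exact_mod_cast ha0
    have : ((12 * a' : ℕ) : ℂ) * (2 * Real.pi * Complex.I / (12 * a')) = 2 * Real.pi * Complex.I := by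
      push_cast
      field_simp
    rw [this, Complex.exp_two_pi_mul_I]
  have hζM' : ζ ^ M = 1 := by rw [hM, pow_mul, hζM, one_pow]
  have hζi : ζ⁻¹ ^ M = 1 := by rw [inv_pow, hζM', inv_one]
  -- the two values
  have hv1 : ∀ t : ℕ, ζ ^ (a' + M * t) + ζ⁻¹ ^ (a' + M * t) = ((√3 : ℝ) : ℂ) := by
    intro t
    rw [pow_add, pow_add, pow_mul, pow_mul, hζM', hζi, one_pow, mul_one, mul_one, hζ,
      gal_cos a' ha' a' (√3 / 2) ?_]
    · push_cast
      ring
    · have : 2 * Real.pi * (a' : ℝ) / (12 * a') = Real.pi / 6 := by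
        field_simp
        ring
      rw [this, Real.cos_pi_div_six]
  obtain ⟨c, hcM, hcp, hc5⟩ : ∃ c : ℕ, M < c ∧ c.Prime ∧ c % 12 = 5 := by
    have hu : IsUnit (5 : ZMod 12) := by decide
    obtain ⟨c, h1, h2, h4⟩ := Nat.forall_exists_prime_gt_and_eq_mod hu M
    refine ⟨c, h1, h2, ?_⟩
    have h5 : ((c : ℕ) : ZMod 12) = ((5 : ℕ) : ZMod 12) := by rw [h4]; rfl
    rw [ZMod.natCast_eq_natCast_iff'] at h5
    exact h5
  have hcop : Nat.Coprime c M := by
    rw [Nat.Prime.coprime_iff_not_dvd hcp]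
    intro hdvd
    exact absurd (Nat.le_of_dvd (by omega) hdvd) (by omega)
  have hv2 : ∀ t : ℕ, ζ ^ (c * a' + M * t) + ζ⁻¹ ^ (c * a' + M * t) = -((√3 : ℝ) : ℂ) := by
    intro t
    obtain ⟨k, hk⟩ : ∃ k, c = 5 + 12 * k := ⟨c / 12, by omega⟩
    have e1 : c * a' + M * t = 5 * a' + (12 * a') * (k + T * t) := by
      rw [hk, hM]; ring
    have hζi12 : ζ⁻¹ ^ (12 * a') = 1 := by rw [inv_pow, hζM, inv_one]
    rw [e1, pow_add, pow_add, pow_mul ζ (12 * a'), pow_mul ζ⁻¹ (12 * a'), hζM, hζi12, one_pow,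
      mul_one, mul_one, hζ, gal_cos a' ha' (5 * a') (-(√3 / 2)) ?_]
    · push_cast
      ring
    · have : 2 * Real.pi * ((5 * a' : ℕ) : ℝ) / (12 * a') = Real.pi - Real.pi / 6 := by
        push_cast
        field_simp
        ring
      rw [this, Real.cos_pi_sub, Real.cos_pi_div_six]
  -- the element of the group ring
  obtain ⟨g, hg⟩ : ∃ g : ℂ → ℂˣ, ∀ z, z ≠ 0 → ((g z : ℂˣ) : ℂ) = z :=
    ⟨fun z => if hz : z ≠ 0 then Units.mk0 z hz else 1, fun z hz => by simp [hz]⟩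
  have hrc : (r : ℂ) ≠ 0 := by exact_mod_cast hr0.ne'
  obtain ⟨G, hGdef⟩ : ∃ G : MonoidAlgebra ℤ ℂˣ, G = ∑ β ∈ S, MonoidAlgebra.single (g β) (n β) -
      MonoidAlgebra.single 1 A' - MonoidAlgebra.single (g (r * ζ)) 1 -
      MonoidAlgebra.single (g (r * ζ⁻¹)) 1 := ⟨_, rfl⟩
  obtain ⟨evm, hevm⟩ : ∃ evm : ℕ → (ℂˣ →* ℂ), ∀ m γ, evm m γ = (((γ : ℂˣ)) : ℂ) ^ m :=
    ⟨fun m => ((powMonoidHom m : ℂ →* ℂ).comp (Units.coeHom ℂ)), fun m γ => rfl⟩
  have hev : ∀ m, 1 ≤ m → MonoidAlgebra.lift ℤ ℂ ℂˣ (evm m) G =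
      (K m : ℂ) - A' - (r : ℂ) ^ m * (ζ ^ m + ζ⁻¹ ^ m) := by
    intro m hm
    rw [hGdef, map_sub, map_sub, map_sub, map_sum, hKS m hm]
    have h1 : ∑ β ∈ S, MonoidAlgebra.lift ℤ ℂ ℂˣ (evm m) (MonoidAlgebra.single (g β) (n β)) =
        ∑ β ∈ S, (n β : ℂ) * β ^ m := by
      refine Finset.sum_congr rfl fun β hβ => ?_
      rw [MonoidAlgebra.lift_single, hevm, zsmul_eq_mul, hg β (fun h0 => hS0 (h0 ▸ hβ))]
    rw [h1, MonoidAlgebra.lift_single, MonoidAlgebra.lift_single, MonoidAlgebra.lift_single,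
      map_one, hevm, hevm, hg _ (mul_ne_zero hrc hζ0), hg _ (mul_ne_zero hrc (inv_ne_zero hζ0)),
      mul_pow, mul_pow, one_smul, one_smul, zsmul_eq_mul, mul_one]
    ring
  have hzero : ∀ t : ℕ, MonoidAlgebra.lift ℤ ℂ ℂˣ (evm (a' + M * t)) G = 0 := by
    intro t
    rw [hev _ (by omega), hv1 t]
    have h1 := hplus' (12 * a' * t)
    have h2 : a' + T * (12 * a' * t) = a' + M * t := by rw [hM]; ring
    rw [h2] at h1
    have h4 : ((K (a' + M * t) : ℤ) : ℂ) = A' + ((√3 : ℝ) : ℂ) * (r : ℂ) ^ (a' + M * t) := by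
      have := congrArg (fun x : ℝ => (x : ℂ)) h1
      push_cast at this
      exact this
    rw [h4]
    ring
  -- the transfer
  have hkey : ∀ t' : ℕ, MonoidAlgebra.lift ℤ ℂ ℂˣ (evm (c * a' + M * t')) G = 0 := by
    intro t'
    have h1 := transfer (MonoidHom.id ℂˣ) (a := a') (M := M) (A := ℂ) (evm (c * a' + M * t'))
      (by
        intro s cc hs hcc
        have h2 := h ℂˣ s (fun z => (z : ℂ)) cc M a' c hM1 hcop
          (fun i hi => by
            have h4 := hs i hi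
            rw [MonoidHom.id_apply] at h4
            rw [← Units.val_pow_eq_pow_val, h4, Units.val_one]) hcc
        rw [← h2]
        refine Finset.sum_congr rfl fun z hz => ?_
        have h4 := hs z hz
        rw [MonoidHom.id_apply] at h4
        rw [hevm, pow_add, pow_mul _ M, ← Units.val_pow_eq_pow_val z M, h4, Units.val_one, one_pow,
          mul_one]) G
      (by
        intro t
        have h2 := hzero t
        rw [MonoidAlgebra.lift_apply', Finsupp.sum] at h2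
        rw [← h2]
        refine Finset.sum_congr rfl fun γ _ => ?_
        rw [hevm]
        rfl)
    rw [MonoidAlgebra.lift_apply', Finsupp.sum]
    rw [← h1]
    refine Finset.sum_congr rfl fun γ _ => ?_
    rfl
  -- the contradiction
  obtain ⟨t', ht'⟩ : ∃ t' : ℕ, m₀ ≤ c * a' + M * t' := ⟨m₀, by
    have : m₀ ≤ M * m₀ := Nat.le_mul_of_pos_left _ hM1
    omega⟩
  have hs1 : 1 ≤ c * a' + M * t' := by
    have : 0 < c * a' := Nat.mul_pos hcp.pos (by omega)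
    omega
  have h4 := hkey t'
  rw [hev _ hs1, hv2 t'] at h4
  have h5 : ((K (c * a' + M * t') : ℤ) : ℝ) = A' - √3 * r ^ (c * a' + M * t') := by
    have h6 : ((K (c * a' + M * t') : ℤ) : ℂ) =
        (((A' : ℝ) - √3 * r ^ (c * a' + M * t') : ℝ) : ℂ) := by
      push_cast
      linear_combination h4
    exact_mod_cast h6
  have h6 : (0 : ℝ) ≤ K (c * a' + M * t') := by exact_mod_cast hpos _ hs1
  have h7 := hm₀ _ ht'
  linarith

end Pool.Agent.T3h90.PP
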