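import Pool.Agent.T3h90.PP.Stm0

/-!
# Task GALU
-/

set_option autoImplicit false

namespace Pool.Agent.T3h90.PP

open Polynomial

theorem t_GALU : S_GALU := by
  intro ι s z n M a c hM hc hz h0
  classical
  have hM0 : M ≠ 0 := by omega
  have : NeZero M := ⟨hM0⟩
  have hζ : IsPrimitiveRoot (Complex.exp (2 * Real.pi * Complex.I / M)) M :=
    Complex.isPrimitiveRoot_exp M hM0
  set ζ : ℂ := Complex.exp (2 * Real.pi * Complex.I / M) with hζd
  have hex : ∀ i ∈ s, ∃ x : ℕ, ζ ^ x = z i := fun i hi => by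
    obtain ⟨x, -, hx⟩ := hζ.eq_pow_of_pow_eq_one (hz i hi)
    exact ⟨x, hx⟩
  choose! x hx using hex
  let P : ℤ[X] := ∑ i ∈ s, Polynomial.C (n i) * X ^ (a * x i)
  have hP : ∀ y : ℂ, aeval y P = ∑ i ∈ s, (n i : ℂ) * y ^ (a * x i) := by
    intro y
    simp [P, map_sum]
  have hζ0 : aeval ζ P = 0 := by
    rw [hP, ← h0]
    refine Finset.sum_congr rfl fun i hi => ?_
    rw [← hx i hi, ← pow_mul, mul_comm a]
  have hint : IsIntegral ℤ ζ := hζ.isIntegral (Nat.pos_of_ne_zero hM0)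
  have hd : minpoly ℤ ζ ∣ P := minpoly.isIntegrallyClosed_dvd hint hζ0
  have he : minpoly ℤ ζ = minpoly ℤ (ζ ^ c) := hζ.minpoly_eq_pow_coprime hc
  have h1 : aeval (ζ ^ c) P = 0 := by
    obtain ⟨Q, hQ⟩ := hd
    rw [hQ, map_mul, he, minpoly.aeval, zero_mul]
  rw [hP] at h1
  rw [← h1]
  refine Finset.sum_congr rfl fun i hi => ?_
  rw [← hx i hi, ← pow_mul, ← pow_mul]
  congr 2
  ring

end Pool.Agent.T3h90.PP
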