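import Pool.Agent.T3h90.PP.Stm0

set_option autoImplicit false
set_option linter.all false

namespace Pool.Agent.T3h90.PP

open Filter Topology LaurentPolynomial ComplexConjugate

theorem ev_apply {Γ : Subgroup ℂˣ} (m : ℕ) (v : MonoidAlgebra ℂ Γ) :
    ev m v = ∑ δ ∈ v.coeff.support, v.coeff δ * ((δ : ℂˣ) : ℂ) ^ m := by
  unfold ev
  rw [MonoidAlgebra.lift_apply, Finsupp.sum]
  rfl

theorem t_INJ : S_INJ := by
  intro Γ hΓ a T t₀ hT v hv
  classical
  -- the monoid homomorphisms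
  let φ : Γ → (Multiplicative ℕ →* ℂ) := fun δ =>
    { toFun := fun t => (((δ : ℂˣ) : ℂ) ^ T) ^ (Multiplicative.toAdd t)
      map_one' := by simp
      map_mul' := fun x y => by rw [toAdd_mul, pow_add] }
  have hφ : Function.Injective φ := by
    intro δ δ' h
    have h1 := DFunLike.congr_fun h (Multiplicative.ofAdd 1)
    have h2 : (((δ : ℂˣ) : ℂ) ^ T) ^ 1 = (((δ' : ℂˣ) : ℂ) ^ T) ^ 1 := h1
    rw [pow_one, pow_one] at h2
    have h3 : (δ : ℂˣ) ^ T = (δ' : ℂˣ) ^ T := by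
      apply Units.ext
      rw [Units.val_pow_eq_pow_val, Units.val_pow_eq_pow_val, h2]
    have h4 : ((δ * δ'⁻¹ : Γ) : ℂˣ) ^ T = 1 := by
      rw [Subgroup.coe_mul, mul_pow, h3, Subgroup.coe_inv, inv_pow, mul_inv_cancel]
    have h5 := hΓ _ (δ * δ'⁻¹).2 T hT h4
    have h6 : δ * δ'⁻¹ = 1 := Subtype.ext h5
    exact mul_inv_eq_one.1 h6
  have hli := (linearIndependent_monoidHom (Multiplicative ℕ) ℂ).comp φ hφ
  rw [linearIndependent_iff'] at hli
  have h0 := hli v.coeff.support (fun δ => v.coeff δ * ((δ : ℂˣ) : ℂ) ^ (a + T * t₀)) (by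
    funext t
    rw [Finset.sum_apply]
    have h1 := hv (t₀ + Multiplicative.toAdd t) (Nat.le_add_right _ _)
    rw [ev_apply] at h1
    rw [Pi.zero_apply, ← h1]
    apply Finset.sum_congr rfl
    intro δ _
    show v.coeff δ * ((δ : ℂˣ) : ℂ) ^ (a + T * t₀) * (((δ : ℂˣ) : ℂ) ^ T) ^ (Multiplicative.toAdd t) = _
    rw [mul_assoc, ← pow_mul, ← pow_add]
    congr 2
    ring)
  apply MonoidAlgebra.ext
  ext δ
  rw [MonoidAlgebra.coeff_zero, Finsupp.zero_apply]
  by_contra hne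
  have h1 := h0 δ (Finsupp.mem_support_iff.2 hne)
  rcases mul_eq_zero.1 h1 with h2 | h2
  · exact hne h2
  · exact pow_ne_zero _ (Units.ne_zero _) h2

end Pool.Agent.T3h90.PP
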