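import Pool.Agent.T3h90.PP.Stm0

/-! INTEG -/

set_option autoImplicit false

namespace Pool.Agent.T3h90.PP

open Filter Topology LaurentPolynomial ComplexConjugate

theorem INTEG.isInt : IsIntegrallyClosed (ℂ[T;T⁻¹]) := by
  refine isIntegrallyClosed_of_isLocalization (ℂ[T;T⁻¹]) (Submonoid.powers (Polynomial.X : Polynomial ℂ)) ?_
  exact powers_le_nonZeroDivisors_of_noZeroDivisors Polynomial.X_ne_zero

/-- INTEG -/
theorem t_INTEG : S_INTEG := by
  intro v κ r hr h hκ h1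
  have := INTEG.isInt
  have hr0 : r ≠ 0 := by omega
  have hd : κ ∣ v - 1 := by
    have h0 : κ ^ r ∣ (v - 1) ^ r := by
      rw [h]
      exact dvd_mul_left _ _
    exact (IsIntegrallyClosed.pow_dvd_pow_iff hr0).1 h0
  obtain ⟨N, hN⟩ := hd
  have hκr : κ ^ r ≠ 0 := pow_ne_zero _ hκ
  have h2 : v - κ = N ^ r := by
    have h3 : N ^ r * κ ^ r = (v - κ) * κ ^ r := by
      rw [← h, hN, mul_pow, mul_comm]
    exact (mul_right_cancel₀ hκr h3).symm
  have hN1 : N - 1 ≠ 0 := by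
    intro h3
    apply h1
    rw [h2, sub_eq_zero.1 h3, one_pow]
  have h4 : κ = ∑ i ∈ Finset.range r, N ^ i := by
    have h5 : κ * (N - 1) = (∑ i ∈ Finset.range r, N ^ i) * (N - 1) := by
      rw [geom_sum_mul, ← h2, mul_sub, ← hN]
      ring
    exact mul_right_cancel₀ hN1 h5
  refine ⟨N, ?_, h4, h2⟩
  have h6 : v = N * κ + 1 := by
    rw [mul_comm, ← hN]
    ring
  rw [geom_sum_succ, ← h4, h6]

end Pool.Agent.T3h90.PP
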