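import Pool.Agent.T3h90.PP.Stm

/-!
# Task LAG
-/

set_option autoImplicit false

namespace Pool.Agent.T3h90.PP

open Pool.Agent.T2h48.DW Pool.Agent.T2h48.AD

theorem t_LAG : S_LAG := by
  intro F _ _ a G M hG K K' _ _ _ _ _ _ hdvd
  obtain ⟨j⟩ := FiniteField.nonempty_algHom_of_finrank_dvd hdvd
  obtain ⟨iG, hM⟩ := hG K
  obtain ⟨iG', hM'⟩ := hG K'
  let ι : Pt G K →* Pt G K' := MonoidHom.mk' (fun x => ⟨fun i => j (x.1 i), (holds_map G j x.1).2 x.2⟩)
    (by
      intro x y
      symm
      rw [← hM']
      show M.Holds (Fin.append (Fin.append (fun i => j (x.1 i)) (fun i => j (y.1 i)))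
        (fun i => j ((x * y).1 i)))
      rw [append_map, holds_map M j, hM])
  have hι : Function.Injective ι := by
    intro x y hxy
    apply Subtype.ext
    funext i
    exact RingHom.injective (j : K →+* K') (congrFun (congrArg Subtype.val hxy) i)
  have h1 : Nat.card ι.range = Nat.card (Pt G K) :=
    (Nat.card_congr (MonoidHom.ofInjective hι).toEquiv).symm
  rw [← h1]
  exact Subgroup.card_subgroup_dvd_card _

end Pool.Agent.T3h90.PP
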