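import Pool.Agent.T3h90.PP.Stm
import Pool.Agent.T2h48.LF.Stm

/-! Task LWP: the leading term of a counting sequence along a progression -/

set_option autoImplicit false

namespace Pool.Agent.T3h90.PP

open Pool.Agent.T2h48.DW Pool.Agent.T2h48.LF Finset
open Filter Topology

/-- the leading term on a progression (compare `Pool.Agent.T2h48.LF.bounded`) -/
theorem lwp_prog {F : Type} [Field F] {ν : (K : Type) → [Field K] → [Finite K] → [Algebra F K] → ℕ}
    (h : AsyL F ν) : ∃ T : ℕ, 1 ≤ T ∧ ∀ a : ℕ, 1 ≤ a → ∃ h d C : ℕ,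
      ∀ (K : Type) [Field K] [Finite K] [Algebra F K] (t : ℕ), Module.finrank F K = a + T * t →
      (h = 0 → ν K = 0) ∧
      |(ν K : ℝ) - h * (Nat.card K : ℝ) ^ d| * √(Nat.card K : ℝ) ≤ C * (Nat.card K : ℝ) ^ d := by
  classical
  obtain ⟨r, f, d, C, hf, hK⟩ := h
  refine ⟨∏ i, f i, ?_, fun a ha => ?_⟩
  · exact Nat.one_le_iff_ne_zero.2 (Finset.prod_ne_zero_iff.2 fun i _ => by have := hf i; omega)
  set s := univ.filter fun i : Fin r => f i ∣ a with hs
  have hdvd : ∀ (t : ℕ) (i : Fin r), f i ∣ a + (∏ i, f i) * t ↔ f i ∣ a := by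
    intro t i
    exact Nat.dvd_add_left (Dvd.dvd.mul_right (Finset.dvd_prod_of_mem f (mem_univ i)) t)
  have hMt : ∀ (t : ℕ) (q : ℝ), Mt f d (a + (∏ i, f i) * t) q = ∑ i ∈ s, (f i : ℝ) * q ^ d i := by
    intro t q
    unfold Mt
    rw [Finset.sum_filter]
    refine Finset.sum_congr rfl fun i _ => ?_
    simp only [hdvd t i]
  have hEt : ∀ (t : ℕ) (q : ℝ), Et f d (a + (∏ i, f i) * t) q = ∑ i ∈ s, q ^ d i := by
    intro t q
    unfold Et
    rw [Finset.sum_filter]
    refine Finset.sum_congr rfl fun i _ => ?_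
    simp only [hdvd t i]
  rcases s.eq_empty_or_nonempty with hse | hsn
  · refine ⟨0, 0, 0, fun K _ _ _ t ht => ?_⟩
    have h1 := hK K
    have hq : (1 : ℝ) ≤ Nat.card K := by exact_mod_cast Nat.card_pos
    have hsq : (1 : ℝ) ≤ √(Nat.card K : ℝ) := by
      rw [Real.one_le_sqrt]
      exact hq
    rw [ht, hMt, hEt, hse, Finset.sum_empty, Finset.sum_empty, mul_zero, sub_zero,
      abs_of_nonneg (Nat.cast_nonneg _)] at h1
    have e4 : (ν K : ℝ) ≤ 0 := by
      have : (0 : ℝ) ≤ ν K := Nat.cast_nonneg _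
      nlinarith
    have e5 : ν K = 0 := by
      have : (0 : ℝ) ≤ ν K := Nat.cast_nonneg _
      exact_mod_cast le_antisymm e4 this
    refine ⟨fun _ => e5, ?_⟩
    rw [e5]
    simp
  · obtain ⟨i₀, hi₀, hmax⟩ := s.exists_max_image d hsn
    refine ⟨∑ i ∈ s.filter (fun i => d i = d i₀), f i, d i₀, C * r + ∑ i, f i,
      fun K _ _ _ t ht => ⟨?_, ?_⟩⟩
    · intro h0
      exfalso
      have : f i₀ ≤ ∑ i ∈ s.filter (fun i => d i = d i₀), f i :=
        Finset.single_le_sum (fun i _ => Nat.zero_le _) (by simp [hi₀])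
      have := hf i₀
      omega
    · have h1 := hK K
      have hq : (1 : ℝ) ≤ Nat.card K := by exact_mod_cast Nat.card_pos
      have hsq : (1 : ℝ) ≤ √(Nat.card K : ℝ) := by
        rw [Real.one_le_sqrt]
        exact hq
      have hsq2 : √(Nat.card K : ℝ) * √(Nat.card K : ℝ) = Nat.card K :=
        Real.mul_self_sqrt (by positivity)
      set q : ℝ := (Nat.card K : ℝ) with hqdef
      rw [ht, hMt, hEt] at h1
      have e3 : ∑ i ∈ s, q ^ d i ≤ r * q ^ d i₀ := by
        calc ∑ i ∈ s, q ^ d i ≤ ∑ i ∈ s, q ^ d i₀ :=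
              Finset.sum_le_sum fun i hi => pow_le_pow_right₀ hq (hmax i hi)
          _ = s.card * q ^ d i₀ := by rw [Finset.sum_const, nsmul_eq_mul]
          _ ≤ r * q ^ d i₀ := by
              refine mul_le_mul_of_nonneg_right ?_ (by positivity)
              have := Finset.card_le_univ s
              rw [Fintype.card_fin] at this
              exact_mod_cast this
      have e4 : ∑ i ∈ s, (f i : ℝ) * q ^ d i =
          ((∑ i ∈ s.filter (fun i => d i = d i₀), f i : ℕ) : ℝ) * q ^ d i₀ +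
          ∑ i ∈ s.filter (fun i => ¬ d i = d i₀), (f i : ℝ) * q ^ d i := by
        rw [← Finset.sum_filter_add_sum_filter_not s (fun i => d i = d i₀)]
        congr 1
        rw [Nat.cast_sum, Finset.sum_mul]
        refine Finset.sum_congr rfl fun i hi => ?_
        rw [(Finset.mem_filter.1 hi).2]
      have e5 : (∑ i ∈ s.filter (fun i => ¬ d i = d i₀), (f i : ℝ) * q ^ d i) * √q ≤
          (∑ i, f i : ℕ) * q ^ d i₀ := by
        rw [Finset.sum_mul, Nat.cast_sum, Finset.sum_mul]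
        refine le_trans (Finset.sum_le_sum fun i hi => ?_)
          (Finset.sum_le_sum_of_subset_of_nonneg (Finset.subset_univ _) fun i _ _ => by positivity)
        obtain ⟨hi1, hi2⟩ := Finset.mem_filter.1 hi
        have hlt : d i + 1 ≤ d i₀ := lt_of_le_of_ne (hmax i hi1) hi2
        rw [mul_assoc]
        refine mul_le_mul_of_nonneg_left ?_ (by positivity)
        calc q ^ d i * √q ≤ q ^ d i * q := by
              refine mul_le_mul_of_nonneg_left ?_ (by positivity)
              nlinarith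
          _ = q ^ (d i + 1) := (pow_succ _ _).symm
          _ ≤ q ^ d i₀ := pow_le_pow_right₀ hq hlt
      have e6 : (0 : ℝ) ≤ ∑ i ∈ s.filter (fun i => ¬ d i = d i₀), (f i : ℝ) * q ^ d i :=
        Finset.sum_nonneg fun i _ => by positivity
      set A : ℝ := ((∑ i ∈ s.filter (fun i => d i = d i₀), f i : ℕ) : ℝ) * q ^ d i₀ with hA
      set R : ℝ := ∑ i ∈ s.filter (fun i => ¬ d i = d i₀), (f i : ℝ) * q ^ d i with hR
      have e7 : |(ν K : ℝ) - A| ≤ |(ν K : ℝ) - ∑ i ∈ s, (f i : ℝ) * q ^ d i| + R := by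
        have : (ν K : ℝ) - A = ((ν K : ℝ) - ∑ i ∈ s, (f i : ℝ) * q ^ d i) + R := by rw [e4]; ring
        rw [this]
        refine (abs_add_le _ _).trans ?_
        rw [abs_of_nonneg e6]
      calc |(ν K : ℝ) - A| * √q ≤ (|(ν K : ℝ) - ∑ i ∈ s, (f i : ℝ) * q ^ d i| + R) * √q :=
            mul_le_mul_of_nonneg_right e7 (by positivity)
        _ = |(ν K : ℝ) - ∑ i ∈ s, (f i : ℝ) * q ^ d i| * √q + R * √q := by ring
        _ ≤ C * (∑ i ∈ s, q ^ d i) + (∑ i, f i : ℕ) * q ^ d i₀ := add_le_add h1 e5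
        _ ≤ C * (r * q ^ d i₀) + (∑ i, f i : ℕ) * q ^ d i₀ := by
            have : (C : ℝ) * (∑ i ∈ s, q ^ d i) ≤ C * (r * q ^ d i₀) :=
              mul_le_mul_of_nonneg_left e3 (Nat.cast_nonneg _)
            linarith
        _ = ((C * r + ∑ i, f i : ℕ) : ℝ) * q ^ d i₀ := by
            push_cast
            ring

theorem t_LWP (h : Pool.Agent.T2h48.LF.S_FORMF) : S_LWP := by
  intro F _ _ n φ W hW
  classical
  obtain ⟨T, hT, H⟩ := lwp_prog (h F n φ)
  refine ⟨T, hT, fun a ha => ?_⟩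
  obtain ⟨h₀, d, C, hK⟩ := H a ha
  -- the extensions
  obtain ⟨p, hp⟩ := CharP.exists F
  have hpp : Fact p.Prime := ⟨CharP.char_is_prime F p⟩
  have hne : ∀ t : ℕ, NeZero (a + T * t) := fun t => ⟨by omega⟩
  have hmain : ∀ t : ℕ, (h₀ = 0 → W (a + T * t) = 0) ∧
      |(W (a + T * t) : ℝ) - h₀ * (Nat.card F : ℝ) ^ (d * (a + T * t))| *
        √((Nat.card F : ℝ) ^ (a + T * t)) ≤ C * (Nat.card F : ℝ) ^ (d * (a + T * t)) := by
    intro t
    have := hne t
    have hfin : Finite (FiniteField.Extension F p (a + T * t)) := Module.finite_of_finite F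
    have hrank := FiniteField.finrank_extension F p (a + T * t)
    have hcard := FiniteField.natCard_extension F p (a + T * t)
    have h1 := hW (FiniteField.Extension F p (a + T * t)) (a + T * t) (by omega) hrank
    have h2 := hK (FiniteField.Extension F p (a + T * t)) t hrank
    have e : ((Nat.card (FiniteField.Extension F p (a + T * t)) : ℕ) : ℝ) ^ d =
        (Nat.card F : ℝ) ^ (d * (a + T * t)) := by
      rw [hcard]
      push_cast
      rw [← pow_mul, mul_comm]
    have e' : ((Nat.card (FiniteField.Extension F p (a + T * t)) : ℕ) : ℝ) =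
        (Nat.card F : ℝ) ^ (a + T * t) := by
      rw [hcard]
      push_cast
      rfl
    obtain ⟨h3, h4⟩ := h2
    refine ⟨fun h0 => ?_, ?_⟩
    · rw [← h1, h3 h0]
      rfl
    · rw [e, e'] at h4
      rw [← h1]
      push_cast
      exact h4
  have hF : 2 ≤ Nat.card F := Finite.one_lt_card
  have hF' : (2 : ℝ) ≤ Nat.card F := by exact_mod_cast hF
  refine ⟨h₀, d, ?_, fun h0 t => (hmain t).1 h0⟩
  -- the limit
  rw [tendsto_iff_norm_sub_tendsto_zero]
  have hb : ∀ t : ℕ, ‖(W (a + T * t) : ℝ) / (Nat.card F : ℝ) ^ (d * (a + T * t)) - h₀‖ ≤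
      (C : ℝ) / √((2 : ℝ) ^ t) := by
    intro t
    have h1 := (hmain t).2
    have hQ : (0 : ℝ) < (Nat.card F : ℝ) ^ (d * (a + T * t)) := by positivity
    have hs : √((2 : ℝ) ^ t) ≤ √((Nat.card F : ℝ) ^ (a + T * t)) := by
      apply Real.sqrt_le_sqrt
      calc (2 : ℝ) ^ t ≤ (2 : ℝ) ^ (a + T * t) := pow_le_pow_right₀ (by norm_num) (by nlinarith)
        _ ≤ (Nat.card F : ℝ) ^ (a + T * t) := pow_le_pow_left₀ (by norm_num) hF' _
    have hs0 : (0 : ℝ) < √((2 : ℝ) ^ t) := Real.sqrt_pos.2 (by positivity)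
    have e1 : (W (a + T * t) : ℝ) / (Nat.card F : ℝ) ^ (d * (a + T * t)) - h₀ =
        ((W (a + T * t) : ℝ) - h₀ * (Nat.card F : ℝ) ^ (d * (a + T * t))) /
          (Nat.card F : ℝ) ^ (d * (a + T * t)) := by
      field_simp
    rw [e1, Real.norm_eq_abs, abs_div, abs_of_pos hQ, div_le_div_iff₀ hQ hs0]
    refine le_trans ?_ h1
    exact mul_le_mul_of_nonneg_left hs (abs_nonneg _)
  refine squeeze_zero (fun t => norm_nonneg _) hb ?_
  have h2 : Tendsto (fun t : ℕ => √((2 : ℝ) ^ t)) atTop atTop :=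
    Real.tendsto_sqrt_atTop.comp (tendsto_pow_atTop_atTop_of_one_lt (by norm_num))
  exact h2.const_div_atTop _

end Pool.Agent.T3h90.PP
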