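import Pool.Agent.T3h90.PP.Shift

set_option autoImplicit false
set_option linter.all false

namespace Pool.Agent.T3h90.PP

open Polynomial Filter Topology

theorem near_clear (p : ℚ[X]) : ∃ (d : ℤ) (q : ℤ[X]), d ≠ 0 ∧
    q.map (algebraMap ℤ ℚ) = C (algebraMap ℤ ℚ d) * p := by
  obtain ⟨b, hb⟩ := IsLocalization.integerNormalization_map_to_map (nonZeroDivisors ℤ) p
  refine ⟨b.1, IsLocalization.integerNormalization (nonZeroDivisors ℤ) p,
    nonZeroDivisors.ne_zero b.2, ?_⟩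
  rw [hb]
  ext i
  rw [coeff_C_mul, coeff_smul, Algebra.smul_def]

theorem near_basis (Y : Finset ℂ) (y : ℂ) (hy : y ∈ Y) :
    ∃ k : ℂ, (X - C y) * Lagrange.basis Y id y = C k * ∏ j ∈ Y, (X - C j) := by
  refine ⟨∏ j ∈ Y.erase y, (y - j)⁻¹, ?_⟩
  unfold Lagrange.basis Lagrange.basisDivisor
  rw [Finset.prod_mul_distrib, map_prod, ← Finset.mul_prod_erase Y _ hy]
  simp only [id]
  ring

theorem t_NEAR : S_NEAR := by
  intro J Z f hZ hlim
  classical
  let M : Finset ℚ[X] := Z.image (fun z => minpoly ℚ z)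
  let q : ℚ[X] := ∏ m ∈ M, m
  have hM : ∀ m ∈ M, Irreducible m ∧ m.Monic := by
    intro m hm
    obtain ⟨z, hz, rfl⟩ := Finset.mem_image.1 hm
    exact ⟨minpoly.irreducible (hZ z hz).isIntegral, minpoly.monic (hZ z hz).isIntegral⟩
  have hqsep : q.Separable := by
    apply separable_prod' (f := fun m : ℚ[X] => m)
    · intro a ha b hb hab
      rw [(hM a ha).1.coprime_iff_not_dvd]
      intro hd
      have h1 : Associated a b := (hM a ha).1.associated_of_dvd (hM b hb).1 hd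
      exact hab (eq_of_monic_of_associated (hM a ha).2 (hM b hb).2 h1)
    · intro a ha
      exact (hM a ha).1.separable
  have hqm : q.Monic := monic_prod_of_monic _ _ fun m hm => (hM m hm).2
  obtain ⟨D, χ, hD, hχ⟩ := near_clear q
  obtain ⟨qC, hqC⟩ : ∃ qC : ℂ[X], qC = q.map (algebraMap ℚ ℂ) := ⟨_, rfl⟩
  have hqCm : qC.Monic := by rw [hqC]; exact hqm.map _
  have hqCsep : qC.Separable := by rw [hqC]; exact hqsep.map
  let Y' : Finset ℂ := ⟨qC.roots, nodup_roots hqCsep⟩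
  have hprod : qC = ∏ y ∈ Y', (X - C y) :=
    (IsAlgClosed.splits qC).eq_prod_roots_of_monic hqCm
  have hroot : ∀ z ∈ Z, qC.eval z = 0 := by
    intro z hz
    rw [hqC, eval_map_algebraMap]
    have h1 : minpoly ℚ z ∣ q := Finset.dvd_prod_of_mem _ (Finset.mem_image_of_mem _ hz)
    obtain ⟨w, hw⟩ := h1
    rw [hw, map_mul, minpoly.aeval, zero_mul]
  -- the sequence
  obtain ⟨s, hs⟩ : ∃ s : ℕ → ℂ, s = fun t => (J t : ℂ) := ⟨_, rfl⟩
  obtain ⟨E, hE⟩ : ∃ E : ℕ → ℂ, E = fun t => ∑ z ∈ Z, f z * z ^ t := ⟨_, rfl⟩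
  have hEz : (aeval sh qC) E = 0 := by
    rw [hE, act_sum]
    funext t
    apply Finset.sum_eq_zero
    intro z hz
    rw [hroot z hz, mul_zero, zero_mul]
  have hsE : Tendsto (s - E) atTop (𝓝 0) := by
    rw [hs, hE]
    exact hlim
  have hact0 : Tendsto ((aeval sh qC) s) atTop (𝓝 0) := by
    have h1 : (aeval sh qC) s = (aeval sh qC) (s - E) := by rw [map_sub, hEz, sub_zero]
    rw [h1]
    have h2 : (aeval sh qC) (s - E) =
        fun t => ∑ i ∈ Finset.range (qC.natDegree + 1), qC.coeff i * (s - E) (t + i) := by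
      funext t
      exact act_apply _ _ _
    rw [h2]
    have h3 : Tendsto (fun t => ∑ i ∈ Finset.range (qC.natDegree + 1), qC.coeff i * (s - E) (t + i))
        atTop (𝓝 (∑ i ∈ Finset.range (qC.natDegree + 1), qC.coeff i * 0)) := by
      apply tendsto_finset_sum
      intro i _
      exact (hsE.comp (tendsto_add_atTop_nat i)).const_mul _
    simpa using h3
  have hint : ∀ t, ∃ n : ℤ, (D : ℂ) * ((aeval sh qC) s) t = n := by
    intro t
    refine ⟨∑ i ∈ Finset.range (qC.natDegree + 1), χ.coeff i * J (t + i), ?_⟩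
    rw [act_apply, Finset.mul_sum]
    push_cast
    apply Finset.sum_congr rfl
    intro i _
    have h1 : ((χ.coeff i : ℤ) : ℂ) = (D : ℂ) * qC.coeff i := by
      have h2 := congrArg (fun p : ℚ[X] => (algebraMap ℚ ℂ) (p.coeff i)) hχ
      simp only [coeff_map, coeff_C_mul, map_mul] at h2
      rw [hqC, coeff_map]
      simpa using h2
    rw [h1, hs]
    ring
  obtain ⟨t₀, ht₀⟩ : ∃ t₀ : ℕ, ∀ t, t₀ ≤ t → ((aeval sh qC) s) t = 0 := by
    have h1 : Tendsto (fun t => (D : ℂ) * ((aeval sh qC) s) t) atTop (𝓝 0) := by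
      have := hact0.const_mul (D : ℂ)
      rwa [mul_zero] at this
    have h2 : ∀ᶠ t in atTop, ‖(D : ℂ) * ((aeval sh qC) s) t‖ < 1 := by
      have h3 := h1.norm
      rw [norm_zero] at h3
      exact h3.eventually_lt_const one_pos
    obtain ⟨t₀, h4⟩ := eventually_atTop.1 h2
    refine ⟨t₀, fun t ht => ?_⟩
    have h5 := h4 t ht
    obtain ⟨n, hn⟩ := hint t
    rw [hn] at h5
    have h6 : n = 0 := by
      rw [Complex.norm_intCast] at h5
      have h7 : |n| < 1 := by exact_mod_cast h5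
      exact Int.abs_lt_one_iff.1 h7
    rw [h6, Int.cast_zero] at hn
    rcases mul_eq_zero.1 hn with h8 | h8
    · exact absurd (Int.cast_eq_zero.1 h8) hD
    · exact h8
  -- Lagrange
  obtain ⟨A, hA⟩ : ∃ A : ℂ → ℕ → ℂ, A = fun y => (aeval sh (Lagrange.basis Y' id y)) s := ⟨_, rfl⟩
  have hstep : ∀ y ∈ Y', ∀ t, t₀ ≤ t → A y (t + 1) = y * A y t := by
    intro y hy t ht
    obtain ⟨k, hk⟩ := near_basis Y' y hy
    rw [← hprod] at hk
    have h1 : (aeval sh ((X - C y) * Lagrange.basis Y' id y)) s t = 0 := by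
      rw [hk, map_mul, Module.End.mul_apply, aeval_C, Module.algebraMap_end_apply, Pi.smul_apply,
        ht₀ t ht, smul_zero]
    rw [map_mul, Module.End.mul_apply, map_sub, aeval_X, aeval_C, LinearMap.sub_apply,
      Module.algebraMap_end_apply, Pi.sub_apply, Pi.smul_apply, sh_apply, smul_eq_mul,
      sub_eq_zero] at h1
    rw [hA]
    exact h1
  have hpow : ∀ y ∈ Y', ∀ t, A y (t₀ + t) = y ^ t * A y t₀ := by
    intro y hy t
    induction t with
    | zero => rw [pow_zero, one_mul, Nat.add_zero]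
    | succ t ih => rw [← Nat.add_assoc, hstep y hy _ (Nat.le_add_right _ _), ih, pow_succ']; ring
  have hsum : ∀ t, t₀ ≤ t → s t = ∑ y ∈ Y', A y t := by
    intro t ht
    by_cases hne : Y'.Nonempty
    · have h1 := Lagrange.sum_basis (s := Y') (v := id) (fun _ _ _ _ h => h) hne
      have h2 : (aeval sh (∑ y ∈ Y', Lagrange.basis Y' id y)) s t = s t := by
        rw [h1, map_one, Module.End.one_apply]
      rw [← h2, map_sum, LinearMap.sum_apply, Finset.sum_apply, hA]
    · rw [Finset.not_nonempty_iff_eq_empty] at hne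
      have h1 := ht₀ t ht
      rw [hprod, hne, Finset.prod_empty, map_one, Module.End.one_apply] at h1
      rw [h1, hne, Finset.sum_empty]
  refine ⟨Y'.erase 0, fun y => A y t₀ * (y ^ t₀)⁻¹, t₀ + 1, Finset.notMem_erase 0 Y', ?_⟩
  intro t ht
  obtain ⟨u, rfl⟩ := Nat.exists_eq_add_of_le ht
  have h1 := hsum (t₀ + 1 + u) (by omega)
  have h2 : (J (t₀ + 1 + u) : ℂ) = s (t₀ + 1 + u) := by rw [hs]
  rw [h2, h1]
  have h3 : ∀ y ∈ Y', A y (t₀ + 1 + u) = y ^ (1 + u) * A y t₀ := by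
    intro y hy
    rw [Nat.add_assoc, hpow y hy]
  have h4 : ∑ y ∈ Y'.erase 0, A y (t₀ + 1 + u) = ∑ y ∈ Y', A y (t₀ + 1 + u) := by
    apply Finset.sum_subset (Finset.erase_subset _ _)
    intro y hy hy'
    have h5 : y = 0 := by
      by_contra h
      exact hy' (Finset.mem_erase.2 ⟨h, hy⟩)
    rw [h3 y hy, h5, zero_pow (by omega), zero_mul]
  rw [← h4]
  apply Finset.sum_congr rfl
  intro y hy
  have hy0 : y ≠ 0 := Finset.ne_of_mem_erase hy
  rw [h3 y (Finset.mem_of_mem_erase hy), Nat.add_assoc t₀, pow_add y t₀]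
  have : y ^ t₀ ≠ 0 := pow_ne_zero _ hy0
  field_simp

end Pool.Agent.T3h90.PP
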