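import Pool.Agent.T3h90.PP.Stm0

/-! ONEA -/

set_option autoImplicit false

namespace Pool.Agent.T3h90.PP

open Filter Topology LaurentPolynomial ComplexConjugate

namespace ONEA

theorem coeff_sub_C (N : ℂ[T;T⁻¹]) (ζ : ℂ) (i : ℤ) :
    (N - C ζ).coeff i = N.coeff i - if i = 0 then ζ else 0 := by
  rw [AddMonoidAlgebra.coeff_sub, Finsupp.sub_apply, C_apply]

theorem eq_sum (N : ℂ[T;T⁻¹]) (U : Finset ℤ) (hU : ∀ i, N.coeff i ≠ 0 → i ∈ U) (c : ℂ) (ζ : ℂ)
    (k : ℤ) (m M : ℤ) (hm : ∀ i ∈ U, m ≤ i) (hM : ∀ i ∈ U, i ≤ M) (h0 : (0 : ℤ) ∈ U)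
    (hs : Sym (fun i => (N - C ζ).coeff i) c k)
    (h1 : (N - C ζ).coeff m ≠ 0) (h2 : (N - C ζ).coeff M ≠ 0) : k = m + M := by
  obtain ⟨hc, hs⟩ := hs
  have hsup : ∀ i, (N - C ζ).coeff i ≠ 0 → i ∈ U := by
    intro i hi
    by_cases h : i = 0
    · rw [h]; exact h0
    · apply hU
      intro h3
      apply hi
      rw [coeff_sub_C, if_neg h, h3, sub_zero]
  have key : ∀ i, (N - C ζ).coeff i ≠ 0 → (N - C ζ).coeff (k - i) ≠ 0 := by
    intro i hi h3
    have h4 := hs i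
    simp only [h3, mul_zero] at h4
    exact hi ((map_eq_zero _).1 h4)
  have h3 := hm _ (hsup _ (key _ h2))
  have h4 := hM _ (hsup _ (key _ h1))
  omega

end ONEA

open ONEA in
/-- ONEA -/
theorem t_ONEA : S_ONEA := by
  intro N ζ₁ ζ₂ c₁ c₂ e₁ e₂ hζ hN h0 hs₁ hs₂
  classical
  have hex : ∃ i : ℤ, i ≠ 0 ∧ N.coeff i ≠ 0 := by
    by_contra h
    push Not at h
    apply hN (N.coeff 0)
    ext i
    rw [C_apply]
    split_ifs with hi
    · rw [hi]
    · exact h i hi
  set U : Finset ℤ := insert 0 N.coeff.support with hUd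
  have hU0 : (0 : ℤ) ∈ U := Finset.mem_insert_self _ _
  have hU : ∀ i, N.coeff i ≠ 0 → i ∈ U := fun i hi =>
    Finset.mem_insert_of_mem (Finsupp.mem_support_iff.2 hi)
  have hU' : ∀ i ∈ U, i ≠ 0 → N.coeff i ≠ 0 := fun i hi h =>
    Finsupp.mem_support_iff.1 ((Finset.mem_insert.1 hi).resolve_left h)
  have hne : U.Nonempty := ⟨0, hU0⟩
  set M := U.max' hne with hMd
  set m := U.min' hne with hmd
  have hM : ∀ i ∈ U, i ≤ M := fun i hi => Finset.le_max' _ _ hi
  have hm : ∀ i ∈ U, m ≤ i := fun i hi => Finset.min'_le _ _ hi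
  have hMU : M ∈ U := Finset.max'_mem _ _
  have hmU : m ∈ U := Finset.min'_mem _ _
  have hend : ∀ ζ : ℂ, (((∀ i < 0, N.coeff i = 0) ∨ (∀ i > 0, N.coeff i = 0)) → N.coeff 0 ≠ ζ) →
      (N - C ζ).coeff m ≠ 0 ∧ (N - C ζ).coeff M ≠ 0 := by
    intro ζ h
    constructor
    · by_cases hm0 : m = 0
      · rw [coeff_sub_C, if_pos hm0, hm0, sub_ne_zero]
        apply h
        left
        intro i hi
        by_contra h3
        have := hm i (hU i h3)
        omega
      · rw [coeff_sub_C, if_neg hm0, sub_zero]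
        exact hU' m hmU hm0
    · by_cases hM0 : M = 0
      · rw [coeff_sub_C, if_pos hM0, hM0, sub_ne_zero]
        apply h
        right
        intro i hi
        by_contra h3
        have := hM i (hU i h3)
        omega
      · rw [coeff_sub_C, if_neg hM0, sub_zero]
        exact hU' M hMU hM0
  obtain ⟨a1, a2⟩ := hend ζ₁ fun h => (h0 h).1
  obtain ⟨b1, b2⟩ := hend ζ₂ fun h => (h0 h).2
  have he1 := eq_sum N U hU c₁ ζ₁ e₁ m M hm hM hU0 hs₁ a1 a2
  have he2 := eq_sum N U hU c₂ ζ₂ e₂ m M hm hM hU0 hs₂ b1 b2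
  have he : e₁ = e₂ := by rw [he1, he2]
  refine ⟨he, ?_⟩
  subst he
  obtain ⟨-, hs₁⟩ := hs₁
  obtain ⟨-, hs₂⟩ := hs₂
  simp only [coeff_sub_C] at hs₁ hs₂
  by_cases h : e₁ = 0
  · left
    refine ⟨h, ?_⟩
    obtain ⟨i, hi, hi2⟩ := hex
    have h1 := hs₁ i
    have h2 := hs₂ i
    rw [h, zero_sub, if_neg hi, if_neg (neg_ne_zero.2 hi), sub_zero, sub_zero] at h1 h2
    have h3 : N.coeff (-i) ≠ 0 := by
      intro h3
      rw [h3, mul_zero] at h1
      exact hi2 ((map_eq_zero _).1 h1)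
    exact mul_right_cancel₀ h3 (h1.symm.trans h2)
  · right
    refine ⟨h, N.coeff 0, N.coeff e₁, ?_⟩
    have h1 := hs₁ 0
    have h2 := hs₂ 0
    rw [if_pos rfl, sub_zero, if_neg h, sub_zero] at h1 h2
    have hcc : c₁ ≠ c₂ := by
      intro hcc
      rw [hcc] at h1
      have h3 := h1.trans h2.symm
      have h4 := (starRingEnd ℂ).injective h3
      exact hζ (sub_right_injective h4)
    have h3 : ∀ k : ℤ, k ≠ 0 → k ≠ e₁ → N.coeff k = 0 := by
      intro k hk hk2
      have h4 := hs₁ (e₁ - k)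
      have h5 := hs₂ (e₁ - k)
      have h6 : e₁ - k ≠ 0 := by omega
      rw [if_neg h6, sub_sub_cancel, if_neg hk, sub_zero, sub_zero] at h4 h5
      by_contra h7
      exact hcc (mul_right_cancel₀ h7 (h4.symm.trans h5))
    constructor
    · intro h4
      obtain ⟨i, hi, hi2⟩ := hex
      by_cases h5 : i = e₁
      · rw [h5] at hi2
        exact hi2 h4
      · exact hi2 (h3 i hi h5)
    · ext i
      rw [AddMonoidAlgebra.coeff_add, Finsupp.add_apply, C_apply]
      have h5 : (C (N.coeff e₁) * T e₁ : ℂ[T;T⁻¹]).coeff i = if i = e₁ then N.coeff e₁ else 0 := by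
        rw [← single_eq_C_mul_T, AddMonoidAlgebra.coeff_single, Finsupp.single_apply]
        simp only [eq_comm]
      rw [h5]
      by_cases hi : i = 0
      · rw [if_pos hi, hi, if_neg (Ne.symm h), add_zero]
      · rw [if_neg hi, zero_add]
        split_ifs with hi2
        · rw [hi2]
        · exact h3 i hi hi2

end Pool.Agent.T3h90.PP
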