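import Pool.Agent.T3h90.PP.Stm0

/-! ONEV -/

set_option autoImplicit false

namespace Pool.Agent.T3h90.PP

open Filter Topology LaurentPolynomial ComplexConjugate

namespace ONEV

theorem coeff_poly (P : Polynomial ℂ) (n : ℕ) : (Polynomial.toLaurent P).coeff (n : ℤ) = P.coeff n := by
  rw [coeff_toLaurent]
  exact Finsupp.mapDomain_apply (f := (Nat.castEmbedding : ℕ ↪ ℤ)) Nat.castEmbedding.injective _ _

theorem coeff_sub_C (N : ℂ[T;T⁻¹]) (ζ : ℂ) (i : ℤ) :
    (N - C ζ).coeff i = N.coeff i - if i = 0 then ζ else 0 := by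
  rw [AddMonoidAlgebra.coeff_sub, Finsupp.sub_apply, C_apply]

theorem coeff_mul_T (L : ℂ[T;T⁻¹]) (n i : ℤ) : (L * T n).coeff i = L.coeff (i - n) := by
  have h : (T n : ℂ[T;T⁻¹]) = AddMonoidAlgebra.single n 1 := rfl
  rw [h, AddMonoidAlgebra.coeff_mul_single_eq_coeff_mul (i - n), mul_one]
  intro j _
  constructor <;> intro h <;> linarith

/-- a Laurent polynomial without negative exponents is a polynomial -/
theorem exists_poly (N : ℂ[T;T⁻¹]) (h : ∀ i < 0, N.coeff i = 0) :
    ∃ P : Polynomial ℂ, N = Polynomial.toLaurent P := by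
  obtain ⟨n, P, hP⟩ := exists_T_pow N
  have h1 : (Polynomial.X : Polynomial ℂ) ^ n ∣ P := by
    rw [Polynomial.X_pow_dvd_iff]
    intro d hd
    rw [← coeff_poly, hP, coeff_mul_T]
    apply h
    omega
  obtain ⟨Q, hQ⟩ := h1
  refine ⟨Q, ?_⟩
  have h2 : N * T (n : ℤ) = Polynomial.toLaurent Q * T (n : ℤ) := by
    rw [← hP, hQ, map_mul, Polynomial.toLaurent_X_pow, mul_comm]
  exact (isUnit_T (n : ℤ)).mul_right_cancel h2

theorem const_term (N : ℂ[T;T⁻¹]) (h : ∀ i < 0, N.coeff i = 0) (r : ℕ) :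
    (∑ i ∈ Finset.range r, N ^ i).coeff 0 = ∑ i ∈ Finset.range r, (N.coeff 0) ^ i := by
  obtain ⟨P, rfl⟩ := exists_poly N h
  have h1 : ∀ Q : Polynomial ℂ, (Polynomial.toLaurent Q).coeff 0 = Q.eval 0 := by
    intro Q
    have := coeff_poly Q 0
    rw [Nat.cast_zero] at this
    rw [this, Polynomial.coeff_zero_eq_eval_zero]
  have h2 : ∑ i ∈ Finset.range r, (Polynomial.toLaurent P) ^ i =
      Polynomial.toLaurent (∑ i ∈ Finset.range r, P ^ i) := by
    rw [map_sum]
    simp only [map_pow]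
  rw [h2, h1, h1, Polynomial.eval_finsetSum]
  simp only [Polynomial.eval_pow]

theorem const_term' (N : ℂ[T;T⁻¹]) (h : (∀ i < 0, N.coeff i = 0) ∨ (∀ i > 0, N.coeff i = 0)) (r : ℕ) :
    (∑ i ∈ Finset.range r, N ^ i).coeff 0 = ∑ i ∈ Finset.range r, (N.coeff 0) ^ i := by
  rcases h with h | h
  · exact const_term N h r
  · have h1 := const_term (invert N) (fun i hi => by
      rw [invert_apply]
      exact h _ (by omega)) r
    have h2 : ∑ i ∈ Finset.range r, (invert N) ^ i = invert (∑ i ∈ Finset.range r, N ^ i) := by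
      rw [map_sum]
      simp only [map_pow]
    rw [h2, invert_apply, invert_apply, neg_zero] at h1
    exact h1

theorem lev_C (z : ℂˣ) (a : ℂ) : lev z (C a) = a := by
  unfold lev
  rw [eval₂_C]
  rfl

/-- the sum over the powers of a root of unity -/
theorem geom_zero {ζ : ℂ} {μ : ℕ} (h : ζ ^ μ = 1) (h1 : ζ ≠ 1) : ∑ i ∈ Finset.range μ, ζ ^ i = 0 := by
  have h2 := geom_sum_mul ζ μ
  rw [h, sub_self] at h2
  exact (mul_eq_zero.1 h2).resolve_right (sub_ne_zero.2 h1)

theorem self_of (hS : S_SELF) {N : ℂ[T;T⁻¹]} {μ : ℕ} (hN : ∀ c, N ≠ C c)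
    (hz : ∀ z : ℂˣ, lev z (∑ i ∈ Finset.range μ, N ^ i) = 0 → ‖(z : ℂ)‖ = 1) {ζ : ℂ}
    (h : ζ ^ μ = 1) (h1 : ζ ≠ 1) : ∃ (c : ℂ) (e : ℤ), Sym (fun i => (N - C ζ).coeff i) c e := by
  refine hS _ (sub_ne_zero.2 (hN ζ)) fun z hz' => hz z ?_
  rw [map_sub, lev_C, sub_eq_zero] at hz'
  rw [map_sum]
  simp only [map_pow, hz']
  exact geom_zero h h1

theorem const_ne {N : ℂ[T;T⁻¹]} {μ : ℕ} (hμ : 1 ≤ μ)
    (hr : ((∑ i ∈ Finset.range (μ - 1), N ^ i).coeff 0).im = 0) {ζ : ℂ}
    (h : ζ ^ μ = 1) (h1 : ζ.im ≠ 0)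
    (ho : (∀ i < 0, N.coeff i = 0) ∨ (∀ i > 0, N.coeff i = 0)) : N.coeff 0 ≠ ζ := by
  intro h2
  have hζ1 : ζ ≠ 1 := by
    intro h3
    rw [h3] at h1
    exact h1 Complex.one_im
  rw [const_term' N ho, h2] at hr
  obtain ⟨m, rfl⟩ : ∃ m, μ = m + 1 := ⟨μ - 1, by omega⟩
  have h3 := geom_zero h hζ1
  rw [Finset.sum_range_succ] at h3
  rw [Nat.add_sub_cancel] at hr
  have h4 : ∑ i ∈ Finset.range m, ζ ^ i = -ζ ^ m := by linear_combination h3
  rw [h4, Complex.neg_im, neg_eq_zero] at hr
  have h5 : ‖ζ‖ = 1 := Complex.norm_eq_one_of_pow_eq_one h (by omega)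
  -- `ζ ^ m = conj ζ`
  have h6 : ζ ^ m = conj ζ := by
    have h7 : ζ ≠ 0 := by
      intro h8
      rw [h8, norm_zero] at h5
      exact zero_ne_one h5
    have h8 : ζ ^ m * ζ = conj ζ * ζ := by
      rw [← pow_succ, h, Complex.conj_mul', h5]
      simp
    exact mul_right_cancel₀ h7 h8
  rw [h6, Complex.conj_im, neg_eq_zero] at hr
  exact h1 hr

/-- binomials -/
theorem norm_eq {N : ℂ[T;T⁻¹]} {A B ζ c : ℂ} {e : ℤ} (he : e ≠ 0) (hB : B ≠ 0)
    (hN : N = C A + C B * T e) (hs : Sym (fun i => (N - C ζ).coeff i) c e) : ‖A - ζ‖ = ‖B‖ := by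
  obtain ⟨hc, hs⟩ := hs
  have hco : ∀ i, N.coeff i = (if i = 0 then A else 0) + if i = e then B else 0 := by
    intro i
    rw [hN, AddMonoidAlgebra.coeff_add, Finsupp.add_apply, C_apply, ← single_eq_C_mul_T,
      AddMonoidAlgebra.coeff_single, Finsupp.single_apply]
    simp only [eq_comm]
  have h0 := hs 0
  have h1 := hs e
  simp only [coeff_sub_C, hco, sub_zero, sub_self, if_true, if_neg he, if_neg he.symm, zero_add,
    add_zero] at h0 h1
  have h2 := congrArg norm h0
  have h3 := congrArg norm h1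
  rw [norm_mul, RCLike.norm_conj] at h2 h3
  have hB' : 0 < ‖B‖ := norm_pos_iff.2 hB
  have h4 : ‖c‖ ^ 2 = 1 := by
    rw [h2] at h3
    have h5 : (‖c‖ ^ 2 - 1) * ‖B‖ = 0 := by nlinarith
    have := (mul_eq_zero.1 h5).resolve_right hB'.ne'
    linarith
  have h5 : ‖c‖ = 1 := by nlinarith [norm_nonneg c]
  rw [h2, h5, one_mul]

/-- the dichotomy for one nonreal root of unity -/
theorem caseA (h1 : S_SELF) (h2 : S_ONEA) {N : ℂ[T;T⁻¹]} {μ : ℕ} (hμ : 1 ≤ μ) (hN : ∀ c, N ≠ C c)
    (hz : ∀ z : ℂˣ, lev z (∑ i ∈ Finset.range μ, N ^ i) = 0 → ‖(z : ℂ)‖ = 1)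
    (hr : ((∑ i ∈ Finset.range (μ - 1), N ^ i).coeff 0).im = 0) {ζ : ℂ}
    (h : ζ ^ μ = 1) (him : ζ.im ≠ 0) :
    ∃ (c : ℂ) (e : ℤ), Sym (fun i => (N - C ζ).coeff i) c e ∧ ((e = 0 ∧ c = -1) ∨
      (e ≠ 0 ∧ ∃ (A : ℝ) (B : ℂ), B ≠ 0 ∧ N = C (A : ℂ) + C B * T e ∧
        ‖B‖ ^ 2 = A ^ 2 - 2 * A * ζ.re + 1)) := by
  have hne1 : ∀ z : ℂ, z.im ≠ 0 → z ≠ 1 := by
    intro z hz h3
    rw [h3] at hz
    exact hz Complex.one_im
  have hc : (conj ζ) ^ μ = 1 := by rw [← map_pow, h, map_one]
  have him' : (conj ζ).im ≠ 0 := by rw [Complex.conj_im]; exact neg_ne_zero.2 him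
  have hne : ζ ≠ conj ζ := by
    intro h3
    have := congrArg Complex.im h3
    rw [Complex.conj_im] at this
    apply him
    linarith
  have hn1 : ‖ζ‖ = 1 := Complex.norm_eq_one_of_pow_eq_one h (by omega)
  obtain ⟨c, e, hs⟩ := self_of h1 hN hz h (hne1 _ him)
  obtain ⟨c', e', hs'⟩ := self_of h1 hN hz hc (hne1 _ him')
  obtain ⟨he, h3⟩ := h2 N ζ (conj ζ) c c' e e' hne hN
    (fun ho => ⟨const_ne hμ hr h him ho, const_ne hμ hr hc him' ho⟩) hs hs'
  subst he
  refine ⟨c, e, hs, ?_⟩
  rcases h3 with ⟨he, hcc⟩ | ⟨he, A, B, hB, hNN⟩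
  · left
    refine ⟨he, ?_⟩
    subst he
    subst hcc
    have h4 := hs.2 0
    have h5 := hs'.2 0
    simp only [coeff_sub_C, sub_zero, if_true, map_sub, Complex.conj_conj] at h4 h5
    have h6 : (c + 1) * (ζ - conj ζ) = 0 := by linear_combination h4 - h5
    have h7 := (mul_eq_zero.1 h6).resolve_right (sub_ne_zero.2 hne)
    linear_combination h7
  · right
    refine ⟨he, ?_⟩
    have h4 := norm_eq he hB hNN hs
    have h5 := norm_eq he hB hNN hs'
    have h4' : ‖A - ζ‖ ^ 2 = ‖B‖ ^ 2 := by rw [h4]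
    have h5' : ‖A - conj ζ‖ ^ 2 = ‖B‖ ^ 2 := by rw [h5]
    rw [Complex.sq_norm, Complex.sq_norm, Complex.normSq_apply, Complex.normSq_apply] at h4' h5'
    simp only [Complex.sub_re, Complex.sub_im, Complex.conj_re, Complex.conj_im] at h4' h5'
    have hA : A.im = 0 := by
      have h6 : ζ.im * A.im = 0 := by linarith
      exact (mul_eq_zero.1 h6).resolve_left him
    have hA' : A = (A.re : ℂ) := by
      apply Complex.ext
      · simp
      · simp [hA]
    refine ⟨A.re, B, hB, ?_, ?_⟩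
    · rw [← hA']
      exact hNN
    · rw [Complex.sq_norm, Complex.normSq_apply]
      have h7 : ζ.re * ζ.re + ζ.im * ζ.im = 1 := by
        have h8 : ‖ζ‖ ^ 2 = 1 := by rw [hn1]; norm_num
        rw [Complex.sq_norm, Complex.normSq_apply] at h8
        exact h8
      rw [hA] at h4'
      linarith

theorem zeta_im {μ : ℕ} (hμ : 3 ≤ μ) : 0 < (Complex.exp ((2 * Real.pi / μ : ℝ) * Complex.I)).im := by
  rw [Complex.exp_ofReal_mul_I_im]
  have h0 : (0 : ℝ) < μ := by
    have : (3 : ℝ) ≤ μ := by exact_mod_cast hμ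
    linarith
  apply Real.sin_pos_of_pos_of_lt_pi
  · positivity
  · rw [div_lt_iff₀ h0]
    have : (3 : ℝ) ≤ μ := by exact_mod_cast hμ
    nlinarith [Real.pi_pos]

theorem zeta_pow {μ : ℕ} (hμ : 3 ≤ μ) : Complex.exp ((2 * Real.pi / μ : ℝ) * Complex.I) ^ μ = 1 := by
  rw [← Complex.exp_nat_mul]
  have h0 : (μ : ℂ) ≠ 0 := by
    have : μ ≠ 0 := by omega
    exact_mod_cast this
  have : (μ : ℂ) * ((2 * Real.pi / μ : ℝ) * Complex.I) = 2 * Real.pi * Complex.I := by
    push_cast
    field_simp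
  rw [this, Complex.exp_two_pi_mul_I]

theorem zeta_sq (μ : ℕ) : Complex.exp ((2 * Real.pi / μ : ℝ) * Complex.I) ^ 2 =
    Complex.exp ((4 * Real.pi / μ : ℝ) * Complex.I) := by
  rw [← Complex.exp_nat_mul]
  congr 1
  push_cast
  ring

theorem zeta_sq_im {μ : ℕ} (hμ : 5 ≤ μ) :
    0 < (Complex.exp ((2 * Real.pi / μ : ℝ) * Complex.I) ^ 2).im := by
  rw [zeta_sq, Complex.exp_ofReal_mul_I_im]
  have h1 : (5 : ℝ) ≤ μ := by exact_mod_cast hμ
  have h0 : (0 : ℝ) < μ := by linarith
  apply Real.sin_pos_of_pos_of_lt_pi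
  · positivity
  · rw [div_lt_iff₀ h0]
    nlinarith [Real.pi_pos]

theorem zeta_sq_re {μ : ℕ} (hμ : 5 ≤ μ) :
    (Complex.exp ((2 * Real.pi / μ : ℝ) * Complex.I) ^ 2).re <
      (Complex.exp ((2 * Real.pi / μ : ℝ) * Complex.I)).re := by
  rw [zeta_sq, Complex.exp_ofReal_mul_I_re, Complex.exp_ofReal_mul_I_re]
  have h1 : (5 : ℝ) ≤ μ := by exact_mod_cast hμ
  have h0 : (0 : ℝ) < μ := by linarith
  apply Real.cos_lt_cos_of_nonneg_of_le_pi
  · positivity
  · rw [div_le_iff₀ h0]
    nlinarith [Real.pi_pos]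
  · gcongr
    nlinarith [Real.pi_pos]

theorem zeta_re_three : (Complex.exp ((2 * Real.pi / (3 : ℕ) : ℝ) * Complex.I)).re = -1 / 2 := by
  rw [Complex.exp_ofReal_mul_I_re]
  have : (2 * Real.pi / (3 : ℕ) : ℝ) = Real.pi - Real.pi / 3 := by push_cast; ring
  rw [this, Real.cos_pi_sub, Real.cos_pi_div_three]
  norm_num

theorem zeta_re_four : (Complex.exp ((2 * Real.pi / (4 : ℕ) : ℝ) * Complex.I)).re = 0 := by
  rw [Complex.exp_ofReal_mul_I_re]
  have : (2 * Real.pi / (4 : ℕ) : ℝ) = Real.pi / 2 := by push_cast; ring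
  rw [this, Real.cos_pi_div_two]

theorem sym_zero {N : ℂ[T;T⁻¹]} {ζ : ℂ} (hs : Sym (fun i => (N - C ζ).coeff i) (-1) 0) :
    (N.coeff 0).re = ζ.re ∧ ∀ i, i ≠ 0 → conj (N.coeff i) = -N.coeff (-i) := by
  constructor
  · have h := hs.2 0
    simp only [coeff_sub_C, sub_zero, if_true, map_sub] at h
    have h1 := congrArg Complex.re h
    simp only [Complex.sub_re, Complex.conj_re, neg_mul, one_mul, Complex.neg_re] at h1
    linarith
  · intro i hi
    have h := hs.2 i
    simp only [coeff_sub_C, if_neg hi, sub_zero, zero_sub, neg_eq_zero, neg_mul, one_mul] at h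
    exact h

theorem exists_ne {N : ℂ[T;T⁻¹]} (hN : ∀ c, N ≠ C c) : ∃ j, j ≠ 0 ∧ N.coeff j ≠ 0 := by
  by_contra hcon
  push Not at hcon
  apply hN (N.coeff 0)
  ext i
  rw [C_apply]
  by_cases hi : i = 0
  · rw [if_pos hi, hi]
  · rw [if_neg hi, hcon i hi]

/-- `μ = 4`, `e = 0` -/
theorem four {N : ℂ[T;T⁻¹]} (hN : ∀ c, N ≠ C c) (h0 : (N.coeff 0).re = 0)
    (hc : ∀ i, i ≠ 0 → conj (N.coeff i) = -N.coeff (-i)) {c : ℂ} {e : ℤ}
    (hs : Sym (fun i => (N - C (-1)).coeff i) c e) : False := by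
  have hc' : ∀ i, conj (N.coeff (-i)) = -N.coeff i := by
    intro i
    by_cases hi : i = 0
    · subst hi
      rw [neg_zero]
      apply Complex.ext
      · rw [Complex.conj_re, Complex.neg_re, h0, neg_zero]
      · rw [Complex.conj_im, Complex.neg_im]
    · rw [hc _ (neg_ne_zero.2 hi), neg_neg]
  have key : ∀ j : ℤ, -N.coeff j + (if j = 0 then 1 else 0) =
      c * (N.coeff (e + j) + if e + j = 0 then 1 else 0) := by
    intro j
    have h := hs.2 (-j)
    simp only [coeff_sub_C, map_sub, hc', neg_eq_zero, sub_neg_eq_add] at h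
    by_cases hj : j = 0
    · subst hj
      simp only [if_true, add_zero, map_neg, map_one] at h ⊢
      by_cases he : e = 0
      · subst he
        simp only [if_true] at h ⊢
        linear_combination h
      · simp only [if_neg he] at h ⊢
        linear_combination h
    · simp only [if_neg hj] at h ⊢
      rw [map_zero] at h
      by_cases he : e + j = 0
      · simp only [if_pos he] at h ⊢
        linear_combination h
      · simp only [if_neg he] at h ⊢
        linear_combination h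
  by_cases he : e = 0
  · subst he
    obtain ⟨j, hj, hj'⟩ := exists_ne hN
    have h1 := key j
    rw [zero_add, if_neg hj] at h1
    have h2 : (c + 1) * N.coeff j = 0 := by linear_combination -h1
    have h3 := (mul_eq_zero.1 h2).resolve_right hj'
    have h4 := key 0
    rw [zero_add, if_pos rfl] at h4
    have h5 : c = -1 := by linear_combination h3
    rw [h5] at h4
    have h6 : (2 : ℂ) = 0 := by linear_combination h4
    norm_num at h6
  · have hk : ∀ k : ℕ, 1 ≤ k → N.coeff (k * e) = 0 := by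
      intro k hk1
      by_contra hcon
      have h1 : ∀ m : ℕ, N.coeff ((k + m : ℕ) * e) ≠ 0 := by
        intro m
        induction m with
        | zero => simpa using hcon
        | succ m ih =>
          intro h2
          apply ih
          have h3 := key ((k + m : ℕ) * e)
          have h4 : ((k + m : ℕ) : ℤ) * e ≠ 0 := by
            apply mul_ne_zero _ he
            have : k + m ≠ 0 := by omega
            exact_mod_cast this
          have h5 : e + ((k + m : ℕ) : ℤ) * e = ((k + (m + 1) : ℕ) : ℤ) * e := by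
            push_cast
            ring
          have h6 : ((k + (m + 1) : ℕ) : ℤ) * e ≠ 0 := by
            apply mul_ne_zero _ he
            have : k + (m + 1) ≠ 0 := by omega
            exact_mod_cast this
          rw [h5, if_neg h4, if_neg h6, h2] at h3
          linear_combination -h3
      have h2 : Function.Injective fun m : ℕ => ((k + m : ℕ) : ℤ) * e := by
        intro m m' hmm
        have h3 := mul_right_cancel₀ he hmm
        have h4 : k + m = k + m' := by exact_mod_cast h3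
        omega
      have h3 : (Set.range fun m : ℕ => ((k + m : ℕ) : ℤ) * e).Infinite := Set.infinite_range_of_injective h2
      apply h3
      apply Set.Finite.subset (N.coeff.support.finite_toSet)
      rintro _ ⟨m, rfl⟩
      rw [Finset.mem_coe, Finsupp.mem_support_iff]
      exact h1 m
    have h1 := key 0
    rw [if_pos rfl, add_zero, if_neg he] at h1
    have h2 := hk 1 le_rfl
    rw [Nat.cast_one, one_mul] at h2
    rw [h2] at h1
    have h3 : N.coeff 0 = 1 := by linear_combination -h1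
    rw [h3] at h0
    norm_num at h0

theorem coeff_bin {A B : ℂ} {e : ℤ} (i : ℤ) :
    (C A + C B * T e : ℂ[T;T⁻¹]).coeff i = (if i = 0 then A else 0) + if i = e then B else 0 := by
  rw [AddMonoidAlgebra.coeff_add, Finsupp.add_apply, C_apply, ← single_eq_C_mul_T,
    AddMonoidAlgebra.coeff_single, Finsupp.single_apply]
  simp only [eq_comm]

end ONEV

open ONEV in
theorem t_ONEV (h1 : S_SELF) (h2 : S_ONEA) : S_ONEV := by
  intro N μ hμ hN hz hr
  set ζ : ℂ := Complex.exp ((2 * Real.pi / μ : ℝ) * Complex.I) with hζ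
  have hp : ζ ^ μ = 1 := zeta_pow hμ
  have him : ζ.im ≠ 0 := (zeta_im hμ).ne'
  obtain ⟨c, e, hs, hd⟩ := caseA h1 h2 (by omega) hN hz hr hp him
  rcases Nat.lt_or_ge μ 5 with h5 | h5
  · have h34 : μ = 3 ∨ μ = 4 := by omega
    rcases h34 with rfl | rfl
    · right
      refine ⟨rfl, ?_⟩
      have hre : ζ.re = -1 / 2 := zeta_re_three
      rcases hd with ⟨he, hc⟩ | ⟨he, A, B, hB, hNN, hn⟩
      · right
        subst he
        subst hc
        obtain ⟨h3, h4⟩ := sym_zero hs
        intro i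
        by_cases hi : i = 0
        · subst hi
          rw [if_pos rfl, neg_zero]
          rw [hre] at h3
          apply Complex.ext
          · simp only [Complex.conj_re, Complex.sub_re, Complex.neg_re, Complex.one_re, h3]
            norm_num
          · simp only [Complex.conj_im, Complex.sub_im, Complex.neg_im, Complex.one_im]
            ring
        · rw [if_neg hi, sub_zero]
          exact h4 i hi
      · left
        refine ⟨A, B, e, he, hNN, ?_⟩
        rw [hn, hre]
        ring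
    · left
      refine ⟨le_rfl, ?_⟩
      have hre : ζ.re = 0 := zeta_re_four
      obtain ⟨c', e', hs'⟩ := self_of h1 hN hz (ζ := -1) (by norm_num) (by norm_num)
      rcases hd with ⟨he, hc⟩ | ⟨he, A, B, hB, hNN, hn⟩
      · exfalso
        subst he
        subst hc
        obtain ⟨h3, h4⟩ := sym_zero hs
        rw [hre] at h3
        exact four hN h3 h4 hs'
      · refine ⟨A, B, e, he, hNN, ?_⟩
        rw [hre] at hn
        by_cases hA : A = -1
        · right
          subst hA
          refine ⟨rfl, by push_cast; rfl, ?_⟩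
          rw [hn]
          norm_num
        · left
          have hA' : (A : ℂ) + 1 ≠ 0 := by
            intro h3
            apply hA
            have h4 : ((A + 1 : ℝ) : ℂ) = 0 := by push_cast; exact h3
            have h5 : A + 1 = 0 := by exact_mod_cast h4
            linarith
          have hee : e' = e := by
            have h3 := hs'.2 0
            have h4 := hs'.2 e
            simp only [coeff_sub_C, hNN, coeff_bin, sub_zero, if_true, if_neg he, if_neg he.symm,
              zero_add, add_zero, sub_neg_eq_add] at h3 h4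
            by_contra hcon
            by_cases he0 : e' = 0
            · subst he0
              have h6 : (0 : ℤ) - e ≠ 0 := by omega
              have h7 : (0 : ℤ) - e ≠ e := by omega
              rw [if_neg h6, if_neg h7, if_neg h6] at h4
              have h8 : conj B = 0 := by rw [h4]; ring
              rw [map_eq_zero] at h8
              exact hB h8
            · rw [if_neg he0, if_neg hcon, if_neg he0] at h3
              have h8 : conj ((A : ℂ) + 1) = 0 := by rw [h3]; ring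
              rw [map_eq_zero] at h8
              exact hA' h8
          subst hee
          have h3 := norm_eq he hB hNN hs'
          have h4 : ‖(A : ℂ) - (-1)‖ ^ 2 = ‖B‖ ^ 2 := by rw [h3]
          have h5 : (A : ℂ) - (-1) = ((A + 1 : ℝ) : ℂ) := by push_cast; ring
          rw [h5, Complex.norm_real, Real.norm_eq_abs, sq_abs] at h4
          have h6 : A = 0 := by nlinarith
          subst h6
          refine ⟨by push_cast; rfl, ?_⟩
          have h7 : ‖B‖ ^ 2 = 1 := by rw [hn]; ring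
          nlinarith [norm_nonneg B]
  · left
    refine ⟨by omega, ?_⟩
    have hp2 : (ζ ^ 2) ^ μ = 1 := by rw [← pow_mul, mul_comm, pow_mul, hp, one_pow]
    have him2 : (ζ ^ 2).im ≠ 0 := (zeta_sq_im h5).ne'
    have hre : (ζ ^ 2).re < ζ.re := zeta_sq_re h5
    obtain ⟨c', e', hs', hd'⟩ := caseA h1 h2 (by omega) hN hz hr hp2 him2
    obtain ⟨hee, h3⟩ := h2 N ζ (ζ ^ 2) c c' e e' (fun h => by rw [← h] at hre; exact lt_irrefl _ hre) hN
      (fun ho => ⟨const_ne (by omega) hr hp him ho, const_ne (by omega) hr hp2 him2 ho⟩) hs hs'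
    subst hee
    rcases hd with ⟨he, hc⟩ | ⟨he, A, B, hB, hNN, hn⟩
    · exfalso
      subst he
      subst hc
      have h4 : (-1 : ℂ) = c' := by
        rcases h3 with ⟨_, h4⟩ | ⟨h4, _⟩
        · exact h4
        · exact absurd rfl h4
      subst h4
      have h6 := (sym_zero hs).1
      have h7 := (sym_zero hs').1
      rw [← h6, ← h7] at hre
      exact lt_irrefl _ hre
    · rcases hd' with ⟨he', _⟩ | ⟨_, A', B', hB', hNN', hn'⟩
      · exact absurd he' he
      · have h4 : ∀ i, (C (A : ℂ) + C B * T e : ℂ[T;T⁻¹]).coeff i = (C (A' : ℂ) + C B' * T e : ℂ[T;T⁻¹]).coeff i := by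
          intro i
          rw [← hNN, ← hNN']
        have h6 := h4 0
        have h7 := h4 e
        simp only [coeff_bin, if_true, if_neg he, if_neg he.symm, zero_add, add_zero] at h6 h7
        subst h7
        have h8 : A = A' := by exact_mod_cast h6
        subst h8
        refine ⟨A, B, e, he, hNN, Or.inl ?_⟩
        have h9 : A * (ζ.re - (ζ ^ 2).re) = 0 := by linarith
        have h10 : A = 0 := (mul_eq_zero.1 h9).resolve_right (by linarith)
        subst h10
        refine ⟨by push_cast; rfl, ?_⟩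
        have h11 : ‖B‖ ^ 2 = 1 := by rw [hn]; ring
        nlinarith [norm_nonneg B]

end Pool.Agent.T3h90.PP
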