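import Pool.Agent.T3h90.PP.Shift

set_option autoImplicit false
set_option linter.all false

namespace Pool.Agent.T3h90.PP

open Polynomial

theorem t_PADIC : S_PADIC := by
  intro S c hc hint x hx
  classical
  set χ : ℂ[X] := ∏ y ∈ S.erase x, (X - C y) with hχ
  have hroot : ∀ y ∈ S.erase x, χ.eval y = 0 := by
    intro y hy
    rw [hχ, eval_prod]
    apply Finset.prod_eq_zero hy
    rw [eval_sub, eval_X, eval_C, sub_self]
  have hxne : χ.eval x ≠ 0 := by
    rw [hχ, eval_prod, Finset.prod_ne_zero_iff]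
    intro y hy
    rw [eval_sub, eval_X, eval_C, sub_ne_zero]
    exact (Finset.ne_of_mem_erase hy).symm
  choose n hn using hint
  have hact : ∀ t : ℕ, c x * χ.eval x * x ^ t =
      ∑ i ∈ Finset.range (χ.natDegree + 1), χ.coeff i * ((n (t + i) : ℤ) : ℂ) := by
    intro t
    have h1 := congrFun (act_sum (S := S) χ c) t
    rw [act_apply] at h1
    have h2 : ∑ y ∈ S, c y * χ.eval y * y ^ t = c x * χ.eval x * x ^ t := by
      apply Finset.sum_eq_single_of_mem x hx
      intro y hy hyx
      rw [hroot y (Finset.mem_erase.2 ⟨hyx, hy⟩), mul_zero, zero_mul]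
    rw [h2] at h1
    rw [← h1]
    apply Finset.sum_congr rfl
    intro i _
    rw [hn]
  -- the module
  let Λ : Submodule ℤ ℂ := Submodule.span ℤ
    (((Finset.range (χ.natDegree + 1)).image (fun i => χ.coeff i) : Finset ℂ) : Set ℂ)
  have hΛ : Λ.FG := ⟨_, rfl⟩
  let N : Submodule ℤ ℂ := Submodule.span ℤ (Set.range (fun t : ℕ => c x * χ.eval x * x ^ t))
  have hNΛ : N ≤ Λ := by
    rw [Submodule.span_le]
    rintro _ ⟨t, rfl⟩
    show c x * χ.eval x * x ^ t ∈ Λ
    rw [hact]
    apply Submodule.sum_mem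
    intro i hi
    have h1 : χ.coeff i ∈ Λ := Submodule.subset_span
      (Finset.mem_coe.2 (Finset.mem_image.2 ⟨i, hi, rfl⟩))
    have h2 := Λ.smul_mem (n (t + i)) h1
    rwa [zsmul_eq_mul, mul_comm] at h2
  have hN : N.FG := by
    haveI : IsNoetherian ℤ Λ := isNoetherian_of_fg_of_noetherian Λ hΛ
    have h1 := IsNoetherian.noetherian (N.comap Λ.subtype)
    have h2 := h1.map Λ.subtype
    rwa [Submodule.map_comap_subtype, inf_eq_right.2 hNΛ] at h2
  have hC : c x * χ.eval x ≠ 0 := mul_ne_zero (hc x hx) hxne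
  refine isIntegral_of_smul_mem_submodule N ?_ hN x ?_
  · intro h
    have h1 : c x * χ.eval x ∈ N := Submodule.subset_span ⟨0, by simp⟩
    rw [h, Submodule.mem_bot] at h1
    exact hC h1
  · intro y hy
    induction hy using Submodule.span_induction with
    | mem y hy =>
      obtain ⟨t, rfl⟩ := hy
      apply Submodule.subset_span
      refine ⟨t + 1, ?_⟩
      show c x * χ.eval x * x ^ (t + 1) = x * (c x * χ.eval x * x ^ t)
      ring
    | zero => rw [smul_zero]; exact N.zero_mem
    | add y z _ _ h1 h2 => rw [smul_add]; exact N.add_mem h1 h2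
    | smul a y _ h1 =>
      rw [smul_comm]
      exact N.smul_mem a h1

end Pool.Agent.T3h90.PP
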