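import Pool.Agent.T3h90.PP.Stm

/-!
# Task PL
-/

set_option autoImplicit false

namespace Pool.Agent.T3h90.PP

open Pool.Agent.H152R2 in
theorem t_PL : S_PL := by
  intro G _ n ℓ D hD hℓ hℓn hn x hx y hy z hz hxy hxz hyz h1 h2 h3
  obtain ⟨s, hs⟩ := hD.multiplier hℓ hℓn hn
  obtain ⟨dx, hdx, ex⟩ := hs x hx
  obtain ⟨dy, hdy, ey⟩ := hs y hy
  obtain ⟨dz, hdz, ez⟩ := hs z hz
  have e : ∀ w : G, (ℓ + 1) • w = 0 → ℓ • w = - w := by
    intro w hw
    rw [succ_nsmul] at hw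
    exact eq_neg_of_add_eq_zero_left hw
  rw [e x h1] at ex
  rw [e y h2] at ey
  rw [e z h3] at ez
  have E1 : dx - dy = y - x := by
    have : dx - dy = (s + dx) - (s + dy) := by abel
    rw [this, ← ex, ← ey]; abel
  have E2 : dx - dz = z - x := by
    have : dx - dz = (s + dx) - (s + dz) := by abel
    rw [this, ← ex, ← ez]; abel
  have n1 : dx ≠ dy := by
    intro h
    rw [h, sub_self] at E1
    exact hxy (sub_eq_zero.1 E1.symm).symm
  have n2 : dx ≠ dz := by
    intro h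
    rw [h, sub_self] at E2
    exact hxz (sub_eq_zero.1 E2.symm).symm
  have F1 := hD.uniq hdx hdy hy hx E1 n1
  have F2 := hD.uniq hdx hdz hz hx E2 n2
  exact hyz (F1.1.symm.trans F2.1)

end Pool.Agent.T3h90.PP
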