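import Pool.Agent.T3h90.PP.Stm0

/-!
# Elementary properties of `ev`
-/

set_option autoImplicit false

namespace Pool.Agent.T3h90.PP

open Filter Topology

variable {Γ : Subgroup ℂˣ}

theorem ev_single (m : ℕ) (δ : Γ) (c : ℂ) :
    ev m (MonoidAlgebra.single δ c) = c * (((δ : Γ) : ℂˣ) : ℂ) ^ m := by
  simp [ev, MonoidAlgebra.lift_single]

theorem ev_apply (m : ℕ) (x : MonoidAlgebra ℂ Γ) :
    ev m x = ∑ δ ∈ x.coeff.support, x.coeff δ * (((δ : Γ) : ℂˣ) : ℂ) ^ m := by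
  simp only [ev, MonoidAlgebra.lift_apply, Finsupp.sum]
  refine Finset.sum_congr rfl fun δ _ => ?_
  simp

theorem ev_dil (m s : ℕ) (x : MonoidAlgebra ℂ Γ) : ev m (dil s x) = ev (m * s) x := by
  induction x using MonoidAlgebra.induction_linear with
  | zero => simp
  | add x y hx hy => rw [map_add, map_add, map_add, hx, hy]
  | single δ c =>
    have h : dil s (MonoidAlgebra.single δ c) = MonoidAlgebra.single (δ ^ s) c := by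
      simp [dil]
    rw [h, ev_single, ev_single]
    congr 1
    push_cast
    rw [← pow_mul, mul_comm]

/-- `ev` on a progression as an exponential sum in the `T`-th powers -/
theorem ev_prog (x : MonoidAlgebra ℂ Γ) (a T : ℕ) (Z : Finset ℂ)
    (hZ : ∀ δ ∈ x.coeff.support, ((((δ : Γ) : ℂˣ) : ℂ)) ^ T ∈ Z) (t : ℕ) :
    ev (a + T * t) x = ∑ z ∈ Z, (∑ δ ∈ x.coeff.support.filter (fun δ => ((((δ : Γ) : ℂˣ) : ℂ)) ^ T = z),
      x.coeff δ * (((δ : Γ) : ℂˣ) : ℂ) ^ a) * z ^ t := by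
  classical
  rw [ev_apply, ← Finset.sum_fiberwise_of_maps_to (s := x.coeff.support) (t := Z)
    (g := fun δ => ((((δ : Γ) : ℂˣ) : ℂ)) ^ T) hZ]
  refine Finset.sum_congr rfl fun z _ => ?_
  rw [Finset.sum_mul]
  refine Finset.sum_congr rfl fun δ hδ => ?_
  rw [Finset.mem_filter] at hδ
  rw [← hδ.2, pow_add, pow_mul]
  ring

theorem tf_inj (hΓ : TF Γ) {T : ℕ} (hT : 1 ≤ T) {δ δ' : Γ}
    (h : ((((δ : Γ) : ℂˣ) : ℂ)) ^ T = ((((δ' : Γ) : ℂˣ) : ℂ)) ^ T) : δ = δ' := by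
  have h1 : ((δ : ℂˣ) * (δ' : ℂˣ)⁻¹) ^ T = 1 := by
    rw [mul_pow, inv_pow, mul_inv_eq_one]
    apply Units.ext
    push_cast
    exact h
  have h2 := hΓ _ (Γ.mul_mem δ.2 (Γ.inv_mem δ'.2)) T hT h1
  exact Subtype.ext (mul_inv_eq_one.1 h2)

/-- the coefficient of `δ ^ T` -/
theorem fiber_coeff (hΓ : TF Γ) {T : ℕ} (hT : 1 ≤ T) (x : MonoidAlgebra ℂ Γ) (a : ℕ) (δ : Γ) :
    (∑ γ ∈ x.coeff.support.filter (fun γ => ((((γ : Γ) : ℂˣ) : ℂ)) ^ T = (((δ : Γ) : ℂˣ) : ℂ) ^ T),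
      x.coeff γ * (((γ : Γ) : ℂˣ) : ℂ) ^ a) = x.coeff δ * (((δ : Γ) : ℂˣ) : ℂ) ^ a := by
  classical
  have h : ∀ γ, γ ∈ x.coeff.support.filter
      (fun γ => ((((γ : Γ) : ℂˣ) : ℂ)) ^ T = (((δ : Γ) : ℂˣ) : ℂ) ^ T) → γ = δ := by
    intro γ hγ
    rw [Finset.mem_filter] at hγ
    exact tf_inj hΓ hT hγ.2
  by_cases hδ : x.coeff δ = 0
  · rw [Finset.sum_eq_zero, hδ, zero_mul]
    intro γ hγ
    rw [h γ hγ, hδ, zero_mul]
  · rw [Finset.sum_eq_single δ]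
    · intro γ hγ hne
      exact absurd (h γ hγ) hne
    · intro hn
      exfalso
      apply hn
      rw [Finset.mem_filter]
      exact ⟨Finsupp.mem_support_iff.2 hδ, rfl⟩

theorem ev_bound (x : MonoidAlgebra ℂ Γ) (g : ℝ)
    (hg : ∀ δ : Γ, x.coeff δ ≠ 0 → ‖(((δ : Γ) : ℂˣ) : ℂ)‖ ≤ g) :
    ∃ C : ℝ, 0 ≤ C ∧ ∀ m : ℕ, ‖ev m x‖ ≤ C * g ^ m := by
  refine ⟨∑ δ ∈ x.coeff.support, ‖x.coeff δ‖, Finset.sum_nonneg fun _ _ => norm_nonneg _, fun m => ?_⟩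
  rw [ev_apply, Finset.sum_mul]
  refine (norm_sum_le _ _).trans (Finset.sum_le_sum fun δ hδ => ?_)
  rw [norm_mul, norm_pow]
  exact mul_le_mul_of_nonneg_left
    (pow_le_pow_left₀ (norm_nonneg _) (hg δ (Finsupp.mem_support_iff.1 hδ)) m) (norm_nonneg _)

/-- a bound `g ≥ 1` for the bases -/
theorem exists_bound (x : MonoidAlgebra ℂ Γ) :
    ∃ g : ℝ, 1 ≤ g ∧ ∀ δ : Γ, x.coeff δ ≠ 0 → ‖(((δ : Γ) : ℂˣ) : ℂ)‖ ≤ g := by
  refine ⟨1 + ∑ δ ∈ x.coeff.support, ‖(((δ : Γ) : ℂˣ) : ℂ)‖, ?_, fun δ hδ => ?_⟩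
  · have := Finset.sum_nonneg (s := x.coeff.support) (f := fun δ : Γ => ‖(((δ : Γ) : ℂˣ) : ℂ)‖)
      fun _ _ => norm_nonneg _
    linarith
  · have := Finset.single_le_sum (s := x.coeff.support) (f := fun δ : Γ => ‖(((δ : Γ) : ℂˣ) : ℂ)‖)
      (fun _ _ => norm_nonneg _) (Finsupp.mem_support_iff.2 hδ)
    linarith

/-- a bound `θ < 1` for finitely many bases of absolute value less than one -/
theorem exists_theta (x : MonoidAlgebra ℂ Γ)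
    (hx : ∀ δ : Γ, x.coeff δ ≠ 0 → ‖(((δ : Γ) : ℂˣ) : ℂ)‖ < 1) :
    ∃ θ : ℝ, 0 < θ ∧ θ < 1 ∧ ∀ δ : Γ, x.coeff δ ≠ 0 → ‖(((δ : Γ) : ℂˣ) : ℂ)‖ ≤ θ := by
  classical
  by_cases hne : x.coeff.support.Nonempty
  · obtain ⟨δ, hδ, hmax⟩ := x.coeff.support.exists_max_image
      (fun δ : Γ => ‖(((δ : Γ) : ℂˣ) : ℂ)‖) hne
    refine ⟨‖(((δ : Γ) : ℂˣ) : ℂ)‖, norm_pos_iff.2 (Units.ne_zero _),
      hx δ (Finsupp.mem_support_iff.1 hδ), fun γ hγ => hmax γ (Finsupp.mem_support_iff.2 hγ)⟩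
  · refine ⟨1 / 2, by norm_num, by norm_num, fun γ hγ => ?_⟩
    exact absurd ⟨γ, Finsupp.mem_support_iff.2 hγ⟩ hne

end Pool.Agent.T3h90.PP
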