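import Pool.Agent.T3h90.PP.Stm
import Pool.Agent.T3h90.PP.AuxEv

/-!
# Task QUOT
-/

set_option autoImplicit false

namespace Pool.Agent.T3h90.PP

open Filter Topology

theorem t_QUOT (h1 : S_NEAR) (h2 : S_INJ) (h3 : Pool.Agent.T2h48.DW.S_ASYM) : S_QUOT := by
  intro Γ hΓ halg V v a T s δ₀ ha hT hTs hV hv0 hdom hdiv
  classical
  obtain ⟨s', rfl⟩ := hTs
  obtain ⟨B, hB⟩ : ∃ B, B = dil (T * s' + 1) v := ⟨_, rfl⟩
  rw [← hB]
  have hVB : ∀ t : ℕ, (V ((a + T * t) * (T * s' + 1)) : ℂ) = ev (a + T * t) B := by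
    intro t
    have e : (a + T * t) * (T * s' + 1) = a + T * (t + (a + T * t) * s') := by ring
    rw [hB, ev_dil, e]
    exact hV _
  obtain ⟨c0, hc0⟩ : ∃ c0, c0 = v.coeff δ₀ := ⟨_, rfl⟩
  have hc0' : c0 ≠ 0 := by rw [hc0]; exact hv0
  obtain ⟨u, hu⟩ : ∃ u : MonoidAlgebra ℂ Γ, u = MonoidAlgebra.single δ₀⁻¹ c0⁻¹ := ⟨_, rfl⟩
  obtain ⟨ε, hεd⟩ : ∃ ε : MonoidAlgebra ℂ Γ, ε = v * u - 1 := ⟨_, rfl⟩
  have hvu : v * u = 1 + ε := by rw [hεd]; ring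
  have hε : ∀ γ : Γ, ε.coeff γ ≠ 0 → ‖(((γ : Γ) : ℂˣ) : ℂ)‖ < 1 := by
    intro γ hγ
    have e : ε.coeff γ = v.coeff (γ * δ₀) * c0⁻¹ - (if γ = 1 then 1 else 0) := by
      rw [hεd, hu, MonoidAlgebra.coeff_sub, Finsupp.sub_apply, MonoidAlgebra.coeff_mul_single_apply,
        inv_inv, MonoidAlgebra.one_def, MonoidAlgebra.coeff_single, Finsupp.single_apply]
      simp only [eq_comm]
    rw [e] at hγ
    by_cases hγ1 : γ = 1
    · rw [hγ1, one_mul, ← hc0, mul_inv_cancel₀ hc0', if_pos rfl, sub_self] at hγ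
      exact absurd rfl hγ
    · rw [if_neg hγ1, sub_zero] at hγ
      have k1 : v.coeff (γ * δ₀) ≠ 0 := left_ne_zero_of_mul hγ
      have k2 : γ * δ₀ ≠ δ₀ := by
        intro hc
        exact hγ1 (mul_eq_right.1 hc)
      have k3 := hdom _ k1 k2
      rw [Subgroup.coe_mul, Units.val_mul, norm_mul] at k3
      have k4 : 0 < ‖(((δ₀ : Γ) : ℂˣ) : ℂ)‖ := norm_pos_iff.2 (Units.ne_zero _)
      nlinarith
  obtain ⟨θ, hθ0, hθ1, hθ⟩ := exists_theta ε hε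
  obtain ⟨Cε, hCε0, hCε⟩ := ev_bound ε θ hθ
  obtain ⟨G, hG1, hG⟩ := exists_bound B
  obtain ⟨CB, hCB0, hCB⟩ := ev_bound B G hG
  obtain ⟨r₀, hr₀⟩ : ∃ r₀ : ℝ, r₀ = ‖(((δ₀ : Γ) : ℂˣ) : ℂ)‖ := ⟨_, rfl⟩
  have hr₀pos : 0 < r₀ := by rw [hr₀]; exact norm_pos_iff.2 (Units.ne_zero _)
  have hevu : ∀ m, ev m u = c0⁻¹ * ((((δ₀ : Γ) : ℂˣ) : ℂ)⁻¹) ^ m := by
    intro m
    rw [hu, ev_single]
    push_cast
    rfl
  have hsmall : ∀ᶠ m : ℕ in atTop, ‖ev m ε‖ ≤ 1 / 2 := by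
    have k1 : Tendsto (fun m : ℕ => Cε * θ ^ m) atTop (𝓝 (Cε * 0)) :=
      (tendsto_pow_atTop_nhds_zero_of_lt_one hθ0.le hθ1).const_mul _
    rw [mul_zero] at k1
    filter_upwards [k1.eventually (gt_mem_nhds (by norm_num : (0 : ℝ) < 1 / 2))] with m hm
    exact (hCε m).trans hm.le
  -- the lower bound of `ev m v`
  have hlow : ∀ᶠ m : ℕ in atTop, ‖c0‖ * r₀ ^ m / 2 ≤ ‖ev m v‖ := by
    filter_upwards [hsmall] with m hm
    have e : ev m v * ev m u = 1 + ev m ε := by rw [← map_mul, hvu, map_add, map_one]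
    have k1 : 1 / 2 ≤ ‖ev m v * ev m u‖ := by
      rw [e]
      have := norm_sub_norm_le (1 : ℂ) (-(ev m ε))
      rw [norm_one, norm_neg, sub_neg_eq_add] at this
      linarith
    rw [norm_mul, hevu, norm_mul, norm_inv, norm_pow, norm_inv, ← hr₀] at k1
    have n1 : 0 < ‖c0‖ := norm_pos_iff.2 hc0'
    have n2 : 0 < r₀ ^ m := pow_pos hr₀pos m
    have k2 : ‖ev m v‖ * (‖c0‖⁻¹ * r₀⁻¹ ^ m) = ‖ev m v‖ / (‖c0‖ * r₀ ^ m) := by
      rw [inv_pow, ← mul_inv, div_eq_mul_inv]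
    rw [k2, le_div_iff₀ (mul_pos n1 n2)] at k1
    linarith
  -- approximate quotients
  let F : ℕ → MonoidAlgebra ℂ Γ := fun R => B * u * ∑ i ∈ Finset.range R, (-ε) ^ i
  have hF : ∀ R, v * F R = B * (1 - (-ε) ^ R) := by
    intro R
    have k1 := mul_neg_geom_sum (-ε) R
    rw [sub_neg_eq_add] at k1
    calc v * (B * u * ∑ i ∈ Finset.range R, (-ε) ^ i)
        = B * ((v * u) * ∑ i ∈ Finset.range R, (-ε) ^ i) := by ring
      _ = B * (1 - (-ε) ^ R) := by rw [hvu, k1]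
  obtain ⟨J, hJ⟩ : ∃ J : ℕ → ℤ, ∀ t, V (a + T * t) * J t = V ((a + T * t) * (T * s' + 1)) :=
    ⟨fun t => V ((a + T * t) * (T * s' + 1)) / V (a + T * t), fun t => Int.mul_ediv_cancel' (hdiv t)⟩
  have hJC : ∀ t, ev (a + T * t) v * (J t : ℂ) = ev (a + T * t) B := by
    intro t
    rw [← hV, ← hVB, ← hJ t]
    push_cast
    rfl
  have htop : Tendsto (fun t : ℕ => a + T * t) atTop atTop := by
    refine tendsto_atTop_mono (fun t => ?_) tendsto_id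
    show t ≤ a + T * t
    nlinarith
  have hmain : ∀ R : ℕ, ∃ C : ℝ, 0 ≤ C ∧ ∀ᶠ t : ℕ in atTop,
      ‖(J t : ℂ) - ev (a + T * t) (F R)‖ ≤ C * (G * r₀⁻¹ * θ ^ R) ^ (a + T * t) := by
    intro R
    have n1 : 0 < ‖c0‖ := norm_pos_iff.2 hc0'
    refine ⟨2 * CB * Cε ^ R * ‖c0‖⁻¹, by positivity, ?_⟩
    filter_upwards [htop.eventually hlow] with t ht
    obtain ⟨m, hm⟩ : ∃ m, m = a + T * t := ⟨_, rfl⟩
    have kJ := hJC t
    rw [← hm] at ht kJ ⊢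
    have k1 : ev m v * ((J t : ℂ) - ev m (F R)) = ev m B * (-(ev m ε)) ^ R := by
      have k2 : ev m v * ev m (F R) = ev m B * (1 - (-(ev m ε)) ^ R) := by
        rw [← map_mul, hF, map_mul, map_sub, map_one, map_pow, map_neg]
      rw [mul_sub, kJ, k2]
      ring
    have n2 : 0 < r₀ ^ m := pow_pos hr₀pos m
    have n3 : 0 < ‖c0‖ * r₀ ^ m / 2 := by positivity
    have k3 : ‖ev m v‖ * ‖(J t : ℂ) - ev m (F R)‖ ≤ (CB * G ^ m) * (Cε * θ ^ m) ^ R := by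
      rw [← norm_mul, k1, norm_mul, norm_pow, norm_neg]
      exact mul_le_mul (hCB m) (pow_le_pow_left₀ (norm_nonneg _) (hCε m) R)
        (pow_nonneg (norm_nonneg _) _) (by positivity)
    have k4 : (‖c0‖ * r₀ ^ m / 2) * ‖(J t : ℂ) - ev m (F R)‖ ≤ (CB * G ^ m) * (Cε * θ ^ m) ^ R :=
      (mul_le_mul_of_nonneg_right ht (norm_nonneg _)).trans k3
    rw [mul_comm, ← le_div_iff₀ n3] at k4
    refine k4.trans (le_of_eq ?_)
    have e1 : (Cε * θ ^ m) ^ R = Cε ^ R * (θ ^ (m * R)) := by rw [mul_pow, ← pow_mul]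
    have e2 : (G * r₀⁻¹ * θ ^ R) ^ m = G ^ m * (r₀ ^ m)⁻¹ * θ ^ (m * R) := by
      rw [mul_pow, mul_pow, inv_pow, ← pow_mul, mul_comm R m]
    rw [e1, e2]
    field_simp
  have hR : ∀ r : ℝ, 0 < r → ∃ R : ℕ, G * r₀⁻¹ * θ ^ R < r := by
    intro r hr
    have n1 : 0 < G * r₀⁻¹ := by positivity
    obtain ⟨R, hR⟩ := exists_pow_lt_of_lt_one (div_pos hr n1) hθ1
    refine ⟨R, ?_⟩
    rw [lt_div_iff₀ n1] at hR
    linarith
  -- the coefficients of `F R` on the progression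
  let f : ℕ → ℂ → ℂ := fun R z => ∑ δ ∈ (F R).coeff.support.filter
    (fun δ => ((((δ : Γ) : ℂˣ) : ℂ)) ^ T = z), (F R).coeff δ * (((δ : Γ) : ℂˣ) : ℂ) ^ a
  let Zs : ℕ → Finset ℂ := fun R => (F R).coeff.support.image (fun δ => ((((δ : Γ) : ℂˣ) : ℂ)) ^ T)
  -- step 1
  obtain ⟨R, hR1⟩ := hR 1 one_pos
  obtain ⟨C, hC0, hC⟩ := hmain R
  have hκ0 : ∀ R : ℕ, 0 ≤ G * r₀⁻¹ * θ ^ R := fun R => by positivity
  have hnear : Tendsto (fun t : ℕ => (J t : ℂ) - ∑ z ∈ Zs R, f R z * z ^ t) atTop (𝓝 0) := by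
    have k1 : Tendsto (fun t : ℕ => C * (G * r₀⁻¹ * θ ^ R) ^ (a + T * t)) atTop (𝓝 (C * 0)) :=
      ((tendsto_pow_atTop_nhds_zero_of_lt_one (hκ0 R) hR1).comp htop).const_mul _
    rw [mul_zero] at k1
    refine squeeze_zero_norm' ?_ k1
    filter_upwards [hC] with t ht
    have e : ev (a + T * t) (F R) = ∑ z ∈ Zs R, f R z * z ^ t :=
      ev_prog (F R) a T (Zs R) (fun δ hδ => Finset.mem_image_of_mem _ hδ) t
    rw [← e]
    exact ht
  have hZalg : ∀ z ∈ Zs R, IsAlgebraic ℚ z := by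
    intro z hz
    obtain ⟨δ, -, rfl⟩ := Finset.mem_image.1 hz
    exact (halg _ δ.2).pow T
  obtain ⟨Y, g, t₀, hY0, hY⟩ := h1 J (Zs R) (f R) hZalg hnear
  -- step 2
  have hρ : ∀ᶠ ρ : ℝ in 𝓝[>] 0, ∀ y ∈ Y, ρ < ‖y‖ := by
    refine (Finset.eventually_all Y).2 fun y hy => ?_
    refine nhdsWithin_le_nhds (gt_mem_nhds (norm_pos_iff.2 ?_))
    intro hy0
    exact hY0 (hy0 ▸ hy)
  obtain ⟨ρ, hρY, hρ0⟩ := (hρ.and self_mem_nhdsWithin).exists
  have hρ0 : 0 < ρ := hρ0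
  obtain ⟨R', hR'⟩ := hR (min ρ 1) (lt_min hρ0 one_pos)
  obtain ⟨C', hC'0, hC'⟩ := hmain R'
  obtain ⟨κ, hκ⟩ : ∃ κ : ℝ, κ = G * r₀⁻¹ * θ ^ R' := ⟨_, rfl⟩
  rw [← hκ] at hR' hC'
  have hκn : 0 ≤ κ := by rw [hκ]; exact hκ0 R'
  have hκρ : κ ^ T < ρ := by
    have k1 : κ ^ T ≤ κ := pow_le_of_le_one hκn (hR'.trans_le (min_le_right _ _)).le (by omega)
    exact k1.trans_lt (hR'.trans_le (min_le_left _ _))
  let S : Finset ℂ := Y ∪ Zs R'
  let c : ℂ → ℂ := fun w => (if w ∈ Y then g w else 0) - f R' w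
  have hS0 : (0 : ℂ) ∉ S := by
    intro hz
    rcases Finset.mem_union.1 hz with hz | hz
    · exact hY0 hz
    · obtain ⟨δ, -, hδ⟩ := Finset.mem_image.1 hz
      exact pow_ne_zero T (Units.ne_zero _) hδ
  have hsum : ∀ t : ℕ, t₀ ≤ t →
      (∑ β ∈ S, c β * β ^ t) = (J t : ℂ) - ev (a + T * t) (F R') := by
    intro t ht
    have e1 : ev (a + T * t) (F R') = ∑ z ∈ S, f R' z * z ^ t :=
      ev_prog (F R') a T S (fun δ hδ => Finset.mem_union_right _ (Finset.mem_image_of_mem _ hδ)) t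
    have e2 : ∑ z ∈ S, (if z ∈ Y then g z else 0) * z ^ t = ∑ y ∈ Y, g y * y ^ t := by
      rw [← Finset.sum_subset (Finset.subset_union_left : Y ⊆ S)]
      · refine Finset.sum_congr rfl fun y hy => ?_
        rw [if_pos hy]
      · intro y _ hy
        rw [if_neg hy, zero_mul]
    rw [hY t ht, e1, ← e2, ← Finset.sum_sub_distrib]
    refine Finset.sum_congr rfl fun z _ => ?_
    show ((if z ∈ Y then g z else 0) - f R' z) * z ^ t = _
    ring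
  have hasym : Tendsto (fun t : ℕ => (∑ β ∈ S, c β * β ^ t) / (ρ : ℂ) ^ t) atTop (𝓝 0) := by
    have k1 : Tendsto (fun t : ℕ => C' * κ ^ a * (κ ^ T / ρ) ^ t) atTop (𝓝 (C' * κ ^ a * 0)) :=
      (tendsto_pow_atTop_nhds_zero_of_lt_one (by positivity) ((div_lt_one hρ0).2 hκρ)).const_mul _
    rw [mul_zero] at k1
    refine squeeze_zero_norm' ?_ k1
    filter_upwards [hC', eventually_ge_atTop t₀] with t ht ht'
    rw [hsum t ht', norm_div, norm_pow, Complex.norm_real, Real.norm_of_nonneg hρ0.le,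
      div_le_iff₀ (pow_pos hρ0 t)]
    refine ht.trans (le_of_eq ?_)
    rw [pow_add, pow_mul, div_pow]
    have : ρ ^ t ≠ 0 := (pow_pos hρ0 t).ne'
    field_simp
  obtain ⟨A1, -, -⟩ := h3 S c ρ 0 hS0 hρ0 hasym
  have hex : ∀ y ∈ Y, g y ≠ 0 → ∃ δ : Γ, ((((δ : Γ) : ℂˣ) : ℂ)) ^ T = y := by
    intro y hy hgy
    have k0 := hρY y hy
    have k1 := A1 y (Finset.mem_union_left _ hy) k0.le (by
      intro hc
      rw [hc, Complex.norm_real, Real.norm_of_nonneg hρ0.le] at k0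
      exact lt_irrefl _ k0)
    have k2 : g y = f R' y := by
      have : (if y ∈ Y then g y else 0) - f R' y = 0 := k1
      rw [if_pos hy] at this
      exact sub_eq_zero.1 this
    by_contra hno
    push Not at hno
    apply hgy
    rw [k2]
    show ∑ δ ∈ (F R').coeff.support.filter (fun δ => ((((δ : Γ) : ℂˣ) : ℂ)) ^ T = y),
      (F R').coeff δ * (((δ : Γ) : ℂˣ) : ℂ) ^ a = 0
    refine Finset.sum_eq_zero fun δ hδ => ?_
    exact absurd (Finset.mem_filter.1 hδ).2 (hno δ)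
  choose! δ hδ using hex
  let j : MonoidAlgebra ℂ Γ := ∑ y ∈ Y.filter (fun y => g y ≠ 0),
    MonoidAlgebra.single (δ y) (g y * ((((δ y : Γ) : ℂˣ) : ℂ) ^ a)⁻¹)
  have hj : ∀ t : ℕ, t₀ ≤ t → ev (a + T * t) j = (J t : ℂ) := by
    intro t ht
    rw [hY t ht, map_sum, ← Finset.sum_filter_add_sum_filter_not Y (fun y => g y ≠ 0)]
    have e0 : ∑ y ∈ Y.filter (fun y => ¬ g y ≠ 0), g y * y ^ t = 0 := by
      refine Finset.sum_eq_zero fun y hy => ?_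
      have := (Finset.mem_filter.1 hy).2
      push Not at this
      rw [this, zero_mul]
    rw [e0, add_zero]
    refine Finset.sum_congr rfl fun y hy => ?_
    rw [Finset.mem_filter] at hy
    have n1 : ((((δ y : Γ) : ℂˣ) : ℂ) ^ a) ≠ 0 := pow_ne_zero _ (Units.ne_zero _)
    rw [ev_single, pow_add, pow_mul, hδ y hy.1 hy.2]
    field_simp
  have hfin := h2 Γ hΓ a T t₀ hT (v * j - B) (fun t ht => by
    rw [map_sub, map_mul, hj t ht, hJC t, sub_self])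
  exact ⟨j, (sub_eq_zero.1 hfin).symm⟩

end Pool.Agent.T3h90.PP
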