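import Pool.Agent.T3h90.PP.Stm
import Pool.Agent.T2h48.DW.T_ARITH

/-!
Task RESTR: restriction of exponential sums to progressions; the torsion is removed.
-/

set_option autoImplicit false

namespace Pool.Agent.T3h90.PP

open Pool.Agent.T2h48.DW
open Filter Topology ComplexConjugate

theorem t_RESTR (hSp : Pool.Agent.T2h48.DW.S_SPLIT) : S_RESTR := by
  classical
  rintro V K ⟨S1, n1, h01, halg1, hV1⟩ ⟨S2, n2, h02, halg2, hK1⟩
  obtain ⟨u, hu⟩ : ∃ u : ℂ → ℂˣ, ∀ z, z ≠ 0 → ((u z : ℂˣ) : ℂ) = z :=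
    ⟨fun z => if hz : z ≠ 0 then Units.mk0 z hz else 1, fun z hz => by
      beta_reduce
      rw [dif_pos hz]
      rfl⟩
  obtain ⟨S, hSdef⟩ : ∃ S : Finset ℂˣ, S = (S1 ∪ S2).image u := ⟨_, rfl⟩
  obtain ⟨G, hG, N, τ, hN, hτN, hτ⟩ : ∃ G : Subgroup ℂˣ, G = Subgroup.closure (S : Set ℂˣ) ∧
      ∃ (N : ℕ) (τ : G →* ℂˣ), 1 ≤ N ∧ (∀ γ, τ γ ^ N = 1) ∧
        ∀ γ : G, IsOfFinOrder γ → (γ : ℂˣ) ^ N = 1 ∧ τ γ = (γ : ℂˣ) := ⟨_, rfl, hSp S⟩
  have hmemS : ∀ z ∈ S1 ∪ S2, u z ∈ G := fun z hz => by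
    rw [hG]
    exact Subgroup.subset_closure (by
      rw [hSdef, Finset.mem_coe]
      exact Finset.mem_image_of_mem _ hz)
  have hne : ∀ z ∈ S1 ∪ S2, z ≠ 0 := by
    intro z hz h0
    subst h0
    rcases Finset.mem_union.1 hz with h | h
    · exact h01 h
    · exact h02 h
  obtain ⟨g, hg⟩ : ∃ g : ℂ → G, ∀ z ∈ S1 ∪ S2, ((g z : G) : ℂˣ) = u z :=
    ⟨fun z => if hz : z ∈ S1 ∪ S2 then ⟨u z, hmemS z hz⟩ else 1, fun z hz => by
      beta_reduce
      rw [dif_pos hz]⟩
  have hgc : ∀ z ∈ S1 ∪ S2, (((g z : G) : ℂˣ) : ℂ) = z := by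
    intro z hz
    rw [hg z hz, hu z (hne z hz)]
  -- the projection to the complement
  obtain ⟨π, hπ⟩ : ∃ π : G →* ℂˣ, ∀ γ, π γ = (γ : ℂˣ) / τ γ :=
    ⟨G.subtype / τ, fun γ => rfl⟩
  obtain ⟨π', hπ'⟩ : ∃ π' : G →* π.range, ∀ γ, ((π' γ : π.range) : ℂˣ) = π γ :=
    ⟨π.rangeRestrict, fun γ => rfl⟩
  have hdec : ∀ γ : G, (γ : ℂˣ) = τ γ * π γ := by
    intro γ
    rw [hπ, mul_div_cancel]
  have hone : ∀ γ : G, ∀ n : ℕ, 1 ≤ n → π γ ^ n = 1 → π γ = 1 := by
    intro γ n hn h
    have h1 : (γ : ℂˣ) ^ n = τ γ ^ n := by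
      rw [hdec γ, mul_pow, h, mul_one]
    have h2 : IsOfFinOrder γ := by
      rw [isOfFinOrder_iff_pow_eq_one]
      refine ⟨n * N, Nat.mul_pos hn hN, ?_⟩
      apply Subtype.ext
      rw [Subgroup.coe_pow, pow_mul, h1, ← pow_mul, mul_comm n N, pow_mul, hτN, one_pow]
      rfl
    rw [hπ, (hτ γ h2).2, div_self']
  have hbase : ∀ z ∈ S1 ∪ S2, IsAlgebraic ℚ z := by
    intro z hz
    rcases Finset.mem_union.1 hz with h | h
    · exact halg1 z h
    · exact halg2 z h
  have halgG : ∀ γ : ℂˣ, γ ∈ G → IsAlgebraic ℚ (γ : ℂ) := by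
    intro γ hγ
    rw [hG] at hγ
    refine Subgroup.closure_induction (p := fun x _ => IsAlgebraic ℚ ((x : ℂˣ) : ℂ)) ?_ ?_ ?_ ?_ hγ
    · intro x hx
      rw [hSdef, Finset.mem_coe, Finset.mem_image] at hx
      obtain ⟨z, hz, rfl⟩ := hx
      rw [hu z (hne z hz)]
      exact hbase z hz
    · simpa using isAlgebraic_one
    · intro x y _ _ hx hy
      rw [Units.val_mul]
      exact hx.mul hy
    · intro x _ hx
      rw [Units.val_inv_eq_inv_val]
      exact hx.inv
  have hroot : ∀ γ : G, ((τ γ : ℂˣ) : ℂ) ^ N = 1 := by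
    intro γ
    rw [← Units.val_pow_eq_pow_val, hτN]
    rfl
  have hτint : ∀ γ : G, IsIntegral ℤ ((τ γ : ℂˣ) : ℂ) := by
    intro γ
    refine ⟨Polynomial.X ^ N - 1, Polynomial.monic_X_pow_sub_C 1 (by omega), ?_⟩
    simp [hroot γ]
  refine ⟨π.range, N, ?_, ?_, ?_, hN, ?_⟩
  · rw [← Group.fg_iff_subgroup_fg]
    have : Group.FG G := by
      rw [hG]
      exact Group.closure_finset_fg S
    exact Group.fg_range π
  · rintro γ ⟨γ', rfl⟩ n hn h
    exact hone γ' n hn h
  · rintro γ ⟨γ', rfl⟩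
    rw [hπ, Units.val_div_eq_div_val, div_eq_mul_inv]
    refine (halgG _ γ'.2).mul ?_
    refine IsAlgebraic.inv ?_
    have h1 := (hτint γ').isAlgebraic (R := ℤ) (A := ℂ)
    exact (IsFractionRing.isAlgebraic_iff ℤ ℚ ℂ).1 h1
  intro a ha
  -- the element of the group ring
  have hev : ∀ (S' : Finset ℂ) (n : ℂ → ℤ), S' ⊆ S1 ∪ S2 → ∀ t : ℕ,
      ev (a + N * t) (∑ β ∈ S', MonoidAlgebra.single (π' (g β))
        ((n β : ℂ) * ((τ (g β) : ℂˣ) : ℂ) ^ a)) = ∑ β ∈ S', (n β : ℂ) * β ^ (a + N * t) := by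
    intro S' n hS' t
    rw [map_sum]
    refine Finset.sum_congr rfl fun β hβ => ?_
    rw [ev, MonoidAlgebra.lift_single]
    change ((n β : ℂ) * ((τ (g β) : ℂˣ) : ℂ) ^ a) •
      (((π' (g β) : π.range) : ℂˣ) : ℂ) ^ (a + N * t) = _
    rw [hπ', smul_eq_mul, mul_assoc]
    congr 1
    have h1 : ((τ (g β) : ℂˣ) : ℂ) ^ a = ((τ (g β) : ℂˣ) : ℂ) ^ (a + N * t) := by
      rw [pow_add, pow_mul, hroot, one_pow, mul_one]
    rw [h1, ← mul_pow, ← Units.val_mul, ← hdec, hgc β (hS' hβ)]
  refine ⟨∑ β ∈ S1, MonoidAlgebra.single (π' (g β)) ((n1 β : ℂ) * ((τ (g β) : ℂˣ) : ℂ) ^ a),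
    ∑ β ∈ S2, MonoidAlgebra.single (π' (g β)) ((n2 β : ℂ) * ((τ (g β) : ℂˣ) : ℂ) ^ a), ?_, ?_,
    fun t => ⟨?_, ?_⟩⟩
  · intro δ
    rw [MonoidAlgebra.coeff_sum, Finsupp.finsetSum_apply]
    refine IsIntegral.sum _ fun β _ => ?_
    rw [MonoidAlgebra.coeff_single, Finsupp.single_apply]
    split_ifs
    · exact isIntegral_algebraMap.mul ((hτint _).pow _)
    · exact isIntegral_zero
  · -- the coefficient of `1` is real
    set n' : ℂ → ℤ := fun β => if β ∈ S2 then n2 β else 0 with hn'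
    set U : Finset ℂ := S2 ∪ S2.image conj with hU
    have hUconj : ∀ β ∈ U, conj β ∈ U := by
      intro β hβ
      rw [hU, Finset.mem_union] at hβ ⊢
      rcases hβ with h | h
      · exact Or.inr (Finset.mem_image_of_mem _ h)
      · obtain ⟨x, hx, rfl⟩ := Finset.mem_image.1 h
        left
        rw [Complex.conj_conj]
        exact hx
    have hU0 : ∀ β ∈ U, β ≠ 0 := by
      intro β hβ h0
      rw [hU, Finset.mem_union] at hβ
      rcases hβ with h | h
      · exact h02 (h0 ▸ h)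
      · obtain ⟨x, hx, hx'⟩ := Finset.mem_image.1 h
        rw [h0, map_eq_zero] at hx'
        exact h02 (hx' ▸ hx)
    -- reindexing by the conjugation
    have hre : ∀ (f : ℂ → ℂ), ∑ β ∈ U, f (conj β) = ∑ β ∈ U, f β := by
      intro f
      refine Finset.sum_bij' (fun β _ => conj β) (fun β _ => conj β) (fun β hβ => hUconj β hβ)
        (fun β hβ => hUconj β hβ) (fun β _ => Complex.conj_conj β)
        (fun β _ => Complex.conj_conj β) (fun β _ => rfl)
    have hKU : ∀ m : ℕ, 1 ≤ m → (K m : ℂ) = ∑ β ∈ U, (n' β : ℂ) * β ^ m := by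
      intro m hm
      rw [hK1 m hm]
      rw [← Finset.sum_subset (s₁ := S2) (s₂ := U) Finset.subset_union_left]
      · refine Finset.sum_congr rfl fun β hβ => ?_
        rw [hn']
        simp only [if_pos hβ]
      · intro β _ hβ
        rw [hn']
        simp only [if_neg hβ, Int.cast_zero, zero_mul]
    have hsym : ∀ β ∈ U, n' β = n' (conj β) := by
      have h1 := indep_pow U (fun β => β) (fun β => ((n' β : ℂ) - (n' (conj β) : ℂ)) * β)
        (fun x _ y _ h => h) (by
          intro t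
          have e1 := hKU (t + 1) (by omega)
          have e2 : (K (t + 1) : ℂ) = ∑ β ∈ U, (n' (conj β) : ℂ) * β ^ (t + 1) := by
            have e3 := congrArg conj e1
            rw [map_intCast, map_sum] at e3
            rw [e3, ← hre (fun β => (n' (conj β) : ℂ) * β ^ (t + 1))]
            refine Finset.sum_congr rfl fun β _ => ?_
            rw [map_mul, map_intCast, map_pow, Complex.conj_conj]
          have e3 : ∑ β ∈ U, ((n' β : ℂ) * β ^ (t + 1) - (n' (conj β) : ℂ) * β ^ (t + 1)) = 0 := by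
            rw [Finset.sum_sub_distrib, ← e1, ← e2, sub_self]
          rw [← e3]
          refine Finset.sum_congr rfl fun β _ => ?_
          rw [pow_succ]
          ring)
      intro β hβ
      have h2 := h1 β hβ
      rcases mul_eq_zero.1 h2 with h3 | h3
      · exact_mod_cast sub_eq_zero.1 h3
      · exact absurd h3 (hU0 β hβ)
    have hcoef : (∑ β ∈ S2, MonoidAlgebra.single (π' (g β))
        ((n2 β : ℂ) * ((τ (g β) : ℂˣ) : ℂ) ^ a) : MonoidAlgebra ℂ π.range).coeff 1 =
        ∑ β ∈ U, if β ^ N = 1 then (n' β : ℂ) * β ^ a else 0 := by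
      rw [MonoidAlgebra.coeff_sum, Finsupp.finsetSum_apply]
      rw [← Finset.sum_subset (s₁ := S2) (s₂ := U) Finset.subset_union_left]
      · refine Finset.sum_congr rfl fun β hβ => ?_
        have hβU : β ∈ S1 ∪ S2 := Finset.mem_union_right _ hβ
        rw [MonoidAlgebra.coeff_single, Finsupp.single_apply]
        have hiff : π' (g β) = 1 ↔ β ^ N = 1 := by
          constructor
          · intro h
            have h1 : π (g β) = 1 := by
              rw [← hπ', h]
              rfl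
            have h2 : ((g β : G) : ℂˣ) = τ (g β) := by
              rw [hdec, h1, mul_one]
            rw [← hgc β hβU, h2]
            exact hroot _
          · intro h
            have h1 : IsOfFinOrder (g β) := by
              rw [isOfFinOrder_iff_pow_eq_one]
              refine ⟨N, hN, ?_⟩
              apply Subtype.ext
              apply Units.ext
              rw [Subgroup.coe_pow, Units.val_pow_eq_pow_val, hgc β hβU, h]
              rfl
            apply Subtype.ext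
            rw [hπ', hπ, (hτ _ h1).2, div_self']
            rfl
        by_cases h : β ^ N = 1
        · rw [if_pos (hiff.2 h), if_pos h]
          have h1 : π (g β) = 1 := by
            rw [← hπ', hiff.2 h]
            rfl
          have h2 : ((g β : G) : ℂˣ) = τ (g β) := by
            rw [hdec, h1, mul_one]
          rw [← h2, hgc β hβU, hn']
          simp only [if_pos hβ]
        · rw [if_neg (fun h' => h (hiff.1 h')), if_neg h]
      · intro β _ hβ
        rw [hn']
        simp only [if_neg hβ, Int.cast_zero, zero_mul, ite_self]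
    rw [hcoef, ← Complex.conj_eq_iff_im, map_sum,
      ← hre (fun β => if β ^ N = 1 then (n' β : ℂ) * β ^ a else 0)]
    refine Finset.sum_congr rfl fun β hβ => ?_
    have h1 : (conj β) ^ N = 1 ↔ β ^ N = 1 := by
      rw [← map_pow]
      constructor
      · intro h
        have := congrArg conj h
        rwa [Complex.conj_conj, map_one] at this
      · intro h
        rw [h, map_one]
    by_cases h : β ^ N = 1
    · rw [if_pos h, if_pos (h1.2 h), map_mul, map_intCast, map_pow, ← hsym β hβ]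
    · rw [if_neg h, if_neg (fun h' => h (h1.1 h')), map_zero]
  · rw [hV1 _ (by omega), hev S1 n1 Finset.subset_union_left t]
  · rw [hK1 _ (by omega), hev S2 n2 Finset.subset_union_right t]

end Pool.Agent.T3h90.PP
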