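import Pool.Agent.T3h90.PP.Stm0

set_option autoImplicit false
set_option linter.all false

namespace Pool.Agent.T3h90.PP

open Filter Topology LaurentPolynomial ComplexConjugate

theorem t_ROOTU : S_ROOTU := by
  intro P t ht hP hs z hz
  obtain ⟨n, p, hp⟩ := P.exists_T_pow
  have hlev : ∀ w : ℂˣ, lev w P = 0 → p.eval (w : ℂ) = 0 := by
    intro w hw
    have h1 : lev w (Polynomial.toLaurent p) = lev w P * lev w (T n) := by rw [hp, map_mul]
    rw [hw, zero_mul] at h1
    unfold lev at h1
    rw [LaurentPolynomial.eval₂_toLaurent] at h1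
    exact h1
  have hp0 : p ≠ 0 := by
    rintro rfl
    rw [map_zero] at hp
    have h1 : P * T n * T (-n) = 0 := by rw [← hp, zero_mul]
    rw [mul_assoc, ← T_add, add_neg_cancel, T_zero, mul_one] at h1
    exact hP h1
  by_contra hcon
  push Not at hcon
  have hinj : Function.Injective (fun k : ℕ => ((z ^ (t * k + 1) : ℂˣ) : ℂ)) := by
    intro k l h
    have h1 : z ^ (t * k + 1) = z ^ (t * l + 1) := Units.ext h
    by_contra hne
    rcases Nat.lt_or_gt_of_ne hne with h2 | h2
    · obtain ⟨m, rfl⟩ := Nat.exists_eq_add_of_lt h2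
      refine hcon (t * (m + 1)) (Nat.mul_pos ht (Nat.succ_pos _)) ?_
      have h3 : t * (k + m + 1) + 1 = (t * k + 1) + t * (m + 1) := by ring
      rw [h3, pow_add z (t * k + 1)] at h1
      exact (mul_eq_left.1 h1.symm)
    · obtain ⟨m, rfl⟩ := Nat.exists_eq_add_of_lt h2
      refine hcon (t * (m + 1)) (Nat.mul_pos ht (Nat.succ_pos _)) ?_
      have h3 : t * (l + m + 1) + 1 = (t * l + 1) + t * (m + 1) := by ring
      rw [h3, pow_add z (t * l + 1)] at h1
      exact (mul_eq_left.1 h1)
  have hinf := Set.infinite_range_of_injective hinj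
  apply hinf
  refine (p.rootSet_finite ℂ).subset ?_
  rintro _ ⟨k, rfl⟩
  rw [Polynomial.mem_rootSet]
  refine ⟨hp0, ?_⟩
  rw [Polynomial.coe_aeval_eq_eval]
  exact hlev _ (hs (t * k) (dvd_mul_right _ _) z hz)

end Pool.Agent.T3h90.PP
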