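import Pool.Agent.T3h90.PP.Stm0

/-! SELF -/

set_option autoImplicit false

namespace Pool.Agent.T3h90.PP

open Filter Topology LaurentPolynomial ComplexConjugate

namespace SELF

/-- complex conjugation of the coefficients -/
noncomputable def cj : ℂ[T;T⁻¹] →+* ℂ[T;T⁻¹] := AddMonoidAlgebra.mapRingHom ℤ (starRingEnd ℂ)

theorem cj_coeff (L : ℂ[T;T⁻¹]) (i : ℤ) : (cj L).coeff i = conj (L.coeff i) :=
  AddMonoidAlgebra.coeff_mapRingHom _ _ _

theorem cj_C (a : ℂ) : cj (C a) = C (conj a) := by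
  ext i
  rw [cj_coeff, C_apply, C_apply]
  split_ifs <;> simp

theorem cj_T (n : ℤ) : cj (T n) = T n := by
  ext i
  rw [cj_coeff, T_apply]
  split_ifs <;> simp

/-- self-inversive -/
def Sm (L : ℂ[T;T⁻¹]) : Prop := ∃ (c : ℂ) (e : ℤ), c ≠ 0 ∧ cj L = C c * T e * invert L

theorem Sm.mul {L K : ℂ[T;T⁻¹]} (hL : Sm L) (hK : Sm K) : Sm (L * K) := by
  obtain ⟨c, e, hc, h⟩ := hL
  obtain ⟨c', e', hc', h'⟩ := hK
  refine ⟨c * c', e + e', mul_ne_zero hc hc', ?_⟩
  rw [map_mul, h, h', map_mul, map_mul, T_add]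
  ring

theorem Sm.T (n : ℤ) : Sm (LaurentPolynomial.T n) := by
  refine ⟨1, 2 * n, one_ne_zero, ?_⟩
  rw [cj_T, map_one, one_mul, invert_T, ← T_add]
  congr 1
  ring

theorem Sm.C {a : ℂ} (ha : a ≠ 0) : Sm (LaurentPolynomial.C a) := by
  refine ⟨conj a / a, 0, div_ne_zero ((map_ne_zero _).2 ha) ha, ?_⟩
  rw [cj_C, T_zero, mul_one, invert_C, ← map_mul, div_mul_cancel₀ _ ha]

theorem Sm.X_sub {ρ : ℂ} (hρ : ρ = 0 ∨ ‖ρ‖ = 1) : Sm (LaurentPolynomial.T 1 - LaurentPolynomial.C ρ) := by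
  rcases hρ with rfl | hρ
  · rw [map_zero, sub_zero]
    exact Sm.T 1
  · have h0 : ρ ≠ 0 := by
      intro h
      rw [h, norm_zero] at hρ
      exact zero_ne_one hρ
    refine ⟨-conj ρ, 1, neg_ne_zero.2 ((map_ne_zero _).2 h0), ?_⟩
    have h1 : conj ρ * ρ = 1 := by
      rw [Complex.conj_mul', hρ]
      simp
    have h2 : LaurentPolynomial.C (conj ρ) * LaurentPolynomial.C ρ = 1 := by
      rw [← map_mul, h1, map_one]
    have h3 : (LaurentPolynomial.T 1 : ℂ[T;T⁻¹]) * LaurentPolynomial.T (-1) = 1 := by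
      rw [← T_add]
      simp
    rw [map_sub, cj_T, cj_C, map_sub, invert_T, invert_C, map_neg]
    linear_combination (LaurentPolynomial.T 1) * (-h2) + LaurentPolynomial.C (conj ρ) * h3

theorem Sm.prod (s : Multiset ℂ) (hs : ∀ ρ ∈ s, ρ = 0 ∨ ‖ρ‖ = 1) :
    Sm (s.map fun ρ => LaurentPolynomial.T 1 - LaurentPolynomial.C ρ).prod := by
  induction s using Multiset.induction_on with
  | empty =>
    rw [Multiset.map_zero, Multiset.prod_zero]
    have := Sm.T 0
    rwa [T_zero] at this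
  | cons a s ih =>
    rw [Multiset.map_cons, Multiset.prod_cons]
    exact (Sm.X_sub (hs a (Multiset.mem_cons_self _ _))).mul
      (ih fun ρ hρ => hs ρ (Multiset.mem_cons_of_mem hρ))

theorem lev_T (z : ℂˣ) (n : ℤ) : lev z (LaurentPolynomial.T n) = ((z ^ n : ℂˣ) : ℂ) := by
  unfold lev
  exact eval₂_T _ _ _

theorem lev_poly (z : ℂˣ) (P : Polynomial ℂ) : lev z (Polynomial.toLaurent P) = P.eval (z : ℂ) := by
  unfold lev
  rw [eval₂_toLaurent]
  rfl

theorem Sm.sym {L : ℂ[T;T⁻¹]} (h : Sm L) : ∃ (c : ℂ) (e : ℤ), Sym (fun i => L.coeff i) c e := by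
  obtain ⟨c, e, hc, h⟩ := h
  refine ⟨c, e, hc, fun i => ?_⟩
  have h1 := congrArg (fun K : ℂ[T;T⁻¹] => K.coeff i) h
  simp only [cj_coeff] at h1
  rw [h1, ← single_eq_C_mul_T, AddMonoidAlgebra.coeff_single_mul_eq_mul_coeff (i - e), invert_apply]
  · congr 2
    ring
  · intro j _
    constructor <;> intro h <;> linarith

end SELF

open SELF in
/-- SELF -/
theorem t_SELF : S_SELF := by
  intro L hL hz
  obtain ⟨n, P, hP⟩ := exists_T_pow L
  have hP0 : P ≠ 0 := by
    intro h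
    rw [h, map_zero] at hP
    exact hL ((isUnit_T (n : ℤ)).mul_left_eq_zero.1 hP.symm)
  have hroot : ∀ ρ ∈ P.roots, ρ = 0 ∨ ‖ρ‖ = 1 := by
    intro ρ hρ
    by_cases h0 : ρ = 0
    · left; exact h0
    · right
      apply hz (Units.mk0 ρ h0)
      have h1 := congrArg (lev (Units.mk0 ρ h0)) hP
      rw [lev_poly, map_mul, lev_T, Units.val_mk0, (Polynomial.mem_roots hP0).1 hρ] at h1
      exact (mul_eq_zero.1 h1.symm).resolve_right (Units.ne_zero _)
  have h1 : Polynomial.toLaurent P = C P.leadingCoeff *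
      (P.roots.map fun ρ => T 1 - C ρ).prod := by
    have h2 := (IsAlgClosed.splits P).eq_prod_roots
    conv_lhs => rw [h2]
    rw [map_mul, Polynomial.toLaurent_C, map_multiset_prod, Multiset.map_map]
    congr 2
    refine Multiset.map_congr rfl fun ρ _ => ?_
    simp
  have h3 : L = Polynomial.toLaurent P * T (-n) := by
    rw [hP, mul_assoc, ← T_add]
    simp
  have h4 : Sm L := by
    rw [h3, h1]
    exact ((Sm.C (Polynomial.leadingCoeff_ne_zero.2 hP0)).mul (Sm.prod _ hroot)).mul (Sm.T _)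
  exact h4.sym

end Pool.Agent.T3h90.PP
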