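import Pool.Agent.T3h90.PP.Stm
import Pool.Agent.T2h69.DW.T_SML

/-!
Task SMLP: the strong form of the theorem of Skolem-Mahler-Lech for exponential sums.
-/

set_option autoImplicit false

namespace Pool.Agent.T3h90.PP

open Pool.Agent.T2h48.DW Pool.Agent.H612.LR Pool.Agent.H853R2.Skolem Polynomial

theorem SMLP.strong (f : ℕ → ℤ) (d K G : ℕ) (h : Bd f d K G) :
    ∃ L N₀ : ℕ, 1 ≤ L ∧ ∀ m : ℕ, N₀ ≤ m → f m = 0 → ∀ t : ℕ, f (m + L * t) = 0 := by
  obtain ⟨p, hpge, hp⟩ := Nat.exists_infinite_primes (K + 3)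
  obtain ⟨L, hL, -, hgood⟩ := good_of_bd h hp (by omega) (by omega)
  have hg := hgood L dvd_rfl
  have hfin : {n : ℕ | d ≤ n ∧ f n = 0 ∧ ∃ m, f (n + L * m) ≠ 0}.Finite := by
    by_contra hinf
    obtain ⟨A, hA, hcard⟩ := Set.Infinite.exists_subset_card_eq hinf (NB d G L + 1)
    have := exc_count hL hg A (fun n hn => hA hn)
    omega
  obtain ⟨B, hB⟩ := hfin.bddAbove
  refine ⟨L, max d (B + 1), hL, fun m hm h0 t => ?_⟩
  by_contra hne
  have h1 : m ≤ B := hB ⟨(le_max_left _ _).trans hm, h0, t, hne⟩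
  have h2 := (le_max_right d (B + 1)).trans hm
  omega

theorem t_SMLP : S_SMLP := by
  classical
  rintro W ⟨S, n, h0, halg, hW⟩
  obtain ⟨D, hD, hint⟩ := Pool.Agent.T2h69.DW.common_den S halg
  set M : ℤ[X] := ∏ β ∈ S, minpoly ℤ ((D : ℂ) * β) with hM
  have hMm : M.Monic := monic_prod_of_monic _ _ fun β hβ => minpoly.monic (hint β hβ)
  have hM0 : ∀ β ∈ S, aeval ((D : ℂ) * β) M = 0 := by
    intro β hβ
    rw [hM, map_prod]
    exact Finset.prod_eq_zero hβ (minpoly.aeval _ _)
  set f : ℕ → ℤ := fun m => D ^ (m + 1) * W (m + 1) with hf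
  have hfc : ∀ m, (f m : ℂ) = ∑ β ∈ S, (n β : ℂ) * ((D : ℂ) * β) ^ (m + 1) := by
    intro m
    rw [hf]
    push_cast
    rw [hW (m + 1) (by omega), Finset.mul_sum]
    exact Finset.sum_congr rfl fun β _ => by rw [mul_pow]; ring
  have hrec : ∀ m, f (m + M.natDegree) = ∑ i ∈ Finset.range M.natDegree,
      (fun i => - M.coeff (M.natDegree - 1 - i)) i * f (m + M.natDegree - 1 - i) := by
    intro m
    have h1 : ∑ j ∈ Finset.range (M.natDegree + 1), M.coeff j * f (m + j) = 0 := by
      have h2 : ((∑ j ∈ Finset.range (M.natDegree + 1), M.coeff j * f (m + j) : ℤ) : ℂ) = 0 := by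
        push_cast
        simp only [hfc, Finset.mul_sum]
        rw [Finset.sum_comm]
        refine Finset.sum_eq_zero fun β hβ => ?_
        have h3 := hM0 β hβ
        rw [aeval_eq_sum_range] at h3
        have h4 : ∑ j ∈ Finset.range (M.natDegree + 1),
            (M.coeff j : ℂ) * ((n β : ℂ) * ((D : ℂ) * β) ^ (m + j + 1)) =
            (n β : ℂ) * ((D : ℂ) * β) ^ (m + 1) *
              ∑ j ∈ Finset.range (M.natDegree + 1), M.coeff j • ((D : ℂ) * β) ^ j := by
          rw [Finset.mul_sum]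
          refine Finset.sum_congr rfl fun j _ => ?_
          rw [zsmul_eq_mul, show m + j + 1 = m + 1 + j by ring, pow_add]
          ring
        rw [h4, h3, mul_zero]
      exact_mod_cast h2
    rw [Finset.sum_range_succ, hMm.coeff_natDegree, one_mul] at h1
    have h5 : ∑ i ∈ Finset.range M.natDegree,
        (fun i => - M.coeff (M.natDegree - 1 - i)) i * f (m + M.natDegree - 1 - i) =
        ∑ j ∈ Finset.range M.natDegree, - (M.coeff j * f (m + j)) := by
      rw [← Finset.sum_range_reflect (fun j => - (M.coeff j * f (m + j)))]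
      refine Finset.sum_congr rfl fun i hi => ?_
      have hi' := Finset.mem_range.1 hi
      rw [show m + M.natDegree - 1 - i = m + (M.natDegree - 1 - i) by omega]
      ring
    rw [h5, Finset.sum_neg_distrib]
    linarith
  obtain ⟨d, K, G, hBd⟩ := SML_bd f _ M.natDegree hrec
  obtain ⟨L, N₀, hL, hz⟩ := SMLP.strong f d K G hBd
  have hiff : ∀ m, 1 ≤ m → (f (m - 1) = 0 ↔ W m = 0) := by
    intro m hm
    rw [hf]
    simp only
    rw [show m - 1 + 1 = m by omega, mul_eq_zero]
    constructor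
    · rintro (h | h)
      · exact absurd h (pow_ne_zero _ hD)
      · exact h
    · exact Or.inr
  refine ⟨L, N₀ + 1, hL, fun m hm hm0 t => ?_⟩
  have h1 := hz (m - 1) (by omega) ((hiff m (by omega)).2 hm0) t
  rw [← hiff _ (by omega)]
  rw [show m + L * t - 1 = m - 1 + L * t by omega]
  exact h1

end Pool.Agent.T3h90.PP
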