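import Pool.Agent.T3h90.PP.Stm0

set_option autoImplicit false
set_option linter.all false

namespace Pool.Agent.T3h90.PP

open Filter Topology LaurentPolynomial ComplexConjugate

theorem t_SPEC : S_SPEC := by
  intro Γ hfg hΓ E hE
  classical
  haveI : Group.FG Γ := (Group.fg_iff_subgroup_fg Γ).2 hfg
  haveI : AddGroup.FG (Additive Γ) := inferInstance
  haveI : Module.Finite ℤ (Additive Γ) := Module.Finite.iff_addGroup_fg.2 inferInstance
  haveI : Module.IsTorsionFree ℤ (Additive Γ) := by
    rw [Module.isTorsionFree_int_iff_isAddTorsionFree]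
    constructor
    intro n hn x y hxy
    have h1 : (Additive.toMul x) ^ n = (Additive.toMul y) ^ n := hxy
    have h2 : ((Additive.toMul x * (Additive.toMul y)⁻¹ : Γ) : ℂˣ) ^ n = 1 := by
      have h3 : (Additive.toMul x * (Additive.toMul y)⁻¹ : Γ) ^ n = 1 := by
        rw [mul_pow, h1, inv_pow, mul_inv_cancel]
      have h4 := congrArg (fun g : Γ => (g : ℂˣ)) h3
      exact h4
    have h5 := hΓ _ (Additive.toMul x * (Additive.toMul y)⁻¹).2 n (Nat.pos_of_ne_zero hn) h2
    have h6 : Additive.toMul x * (Additive.toMul y)⁻¹ = 1 := Subtype.ext h5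
    exact Additive.toMul.injective (mul_inv_eq_one.1 h6)
  haveI : Module.Free ℤ (Additive Γ) := inferInstance
  obtain ⟨r, ⟨b⟩⟩ : ∃ r, Nonempty (Module.Basis (Fin r) ℤ (Additive Γ)) :=
    ⟨_, ⟨Module.finBasis ℤ (Additive Γ)⟩⟩
  let Pe : Γ → Polynomial ℤ := fun e =>
    ∑ i : Fin r, Polynomial.C (b.repr (Additive.ofMul e) i) * Polynomial.X ^ (i : ℕ)
  have hPe : ∀ e : Γ, e ≠ 1 → Pe e ≠ 0 := by
    intro e he h0
    apply he
    have h1 : b.repr (Additive.ofMul e) = 0 := by
      ext i
      have h2 := congrArg (fun p => p.coeff (i : ℕ)) h0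
      have h3 : (Pe e).coeff (i : ℕ) = b.repr (Additive.ofMul e) i := by
        show (∑ j : Fin r, Polynomial.C (b.repr (Additive.ofMul e) j) * Polynomial.X ^ (j : ℕ)).coeff
          (i : ℕ) = _
        rw [Polynomial.finsetSum_coeff, Finset.sum_eq_single i]
        · rw [Polynomial.coeff_C_mul, Polynomial.coeff_X_pow, if_pos rfl, mul_one]
        · intro j _ hj
          rw [Polynomial.coeff_C_mul, Polynomial.coeff_X_pow, if_neg, mul_zero]
          intro h
          exact hj (Fin.ext h.symm)
        · intro h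
          exact absurd (Finset.mem_univ _) h
      rw [← h3]
      simpa using h2
    have h4 := b.repr.map_eq_zero_iff.1 h1
    exact h4
  have hP : (∏ e ∈ E, Pe e) ≠ 0 :=
    Finset.prod_ne_zero_iff.2 fun e he => hPe e (fun h => hE (h ▸ he))
  obtain ⟨K, hK⟩ : ∃ K : ℤ, (∏ e ∈ E, Pe e).eval K ≠ 0 := by
    by_contra h
    push Not at h
    exact hP (Polynomial.funext (by simpa using h))
  let f : Additive Γ →+ ℤ :=
    { toFun := fun x => ∑ i : Fin r, b.repr x i * K ^ (i : ℕ)
      map_zero' := by simp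
      map_add' := fun x y => by
        rw [← Finset.sum_add_distrib]
        apply Finset.sum_congr rfl
        intro i _
        rw [map_add, Finsupp.add_apply, add_mul] }
  refine ⟨AddMonoidHom.toMultiplicativeRight f, fun e he h => ?_⟩
  rw [Polynomial.eval_prod, Finset.prod_ne_zero_iff] at hK
  apply hK e he
  have h1 : f (Additive.ofMul e) = 0 := h
  have h2 : (Pe e).eval K = f (Additive.ofMul e) := by
    show (∑ j : Fin r, Polynomial.C (b.repr (Additive.ofMul e) j) * Polynomial.X ^ (j : ℕ)).eval K =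
      ∑ i : Fin r, b.repr (Additive.ofMul e) i * K ^ (i : ℕ)
    rw [Polynomial.eval_finset_sum]
    apply Finset.sum_congr rfl
    intro i _
    rw [Polynomial.eval_mul, Polynomial.eval_C, Polynomial.eval_pow, Polynomial.eval_X]
  rw [h2, h1]

end Pool.Agent.T3h90.PP
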