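import Pool.Agent.T3h90.PP.Stm
import Pool.Agent.T3h90.PP.AuxEv

/-!
# Task TOP
-/

set_option autoImplicit false

namespace Pool.Agent.T3h90.PP

open Filter Topology

theorem t_TOP (h : Pool.Agent.T2h48.DW.S_ASYM) : S_TOP := by
  intro Γ hΓ v a T q d h' hT hq hh hlim
  classical
  let Z : Finset ℂ := v.coeff.support.image (fun δ => ((((δ : Γ) : ℂˣ) : ℂ)) ^ T)
  let c : ℂ → ℂ := fun z => ∑ δ ∈ v.coeff.support.filter
    (fun δ => ((((δ : Γ) : ℂˣ) : ℂ)) ^ T = z), v.coeff δ * (((δ : Γ) : ℂˣ) : ℂ) ^ a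
  have hprog : ∀ t, ev (a + T * t) v = ∑ z ∈ Z, c z * z ^ t :=
    fun t => ev_prog v a T Z (fun δ hδ => Finset.mem_image_of_mem _ hδ) t
  have h0 : (0 : ℂ) ∉ Z := by
    intro hz
    obtain ⟨δ, -, hδ⟩ := Finset.mem_image.1 hz
    exact pow_ne_zero T (Units.ne_zero _) hδ
  have hq0 : (q : ℂ) ≠ 0 := by
    have : q ≠ 0 := by omega
    exact_mod_cast this
  have hqr : (0 : ℝ) < q := by
    have : 0 < q := by omega
    exact_mod_cast this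
  obtain ⟨Q, hQdef⟩ : ∃ Q : ℝ, Q = (q : ℝ) ^ (d * T) := ⟨_, rfl⟩
  have hQ : 0 < Q := by rw [hQdef]; positivity
  have hQC : (Q : ℂ) = (q : ℂ) ^ (d * T) := by rw [hQdef]; push_cast; rfl
  have hlim' : Tendsto (fun t : ℕ => (∑ β ∈ Z, c β * β ^ t) / (Q : ℂ) ^ t) atTop
      (𝓝 ((h' : ℂ) * (q : ℂ) ^ (d * a))) := by
    refine (hlim.mul_const ((q : ℂ) ^ (d * a))).congr fun t => ?_
    rw [← hprog, hQC]
    have e : (q : ℂ) ^ (d * (a + T * t)) = (q : ℂ) ^ (d * a) * ((q : ℂ) ^ (d * T)) ^ t := by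
      rw [← pow_mul, ← pow_add]
      congr 1
      ring
    rw [e]
    have n1 : (q : ℂ) ^ (d * a) ≠ 0 := pow_ne_zero _ hq0
    have n2 : ((q : ℂ) ^ (d * T)) ^ t ≠ 0 := pow_ne_zero _ (pow_ne_zero _ hq0)
    field_simp
  obtain ⟨A1, A2, A3⟩ := h Z c Q _ h0 hQ hlim'
  have hne : (h' : ℂ) * (q : ℂ) ^ (d * a) ≠ 0 := by
    refine mul_ne_zero ?_ (pow_ne_zero _ hq0)
    have : h' ≠ 0 := by omega
    exact_mod_cast this
  have hQZ : (Q : ℂ) ∈ Z := by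
    by_contra hc
    exact hne (A3 hc)
  obtain ⟨δ₀, hδ₀, hδ₀T⟩ := Finset.mem_image.1 hQZ
  refine ⟨δ₀, hδ₀T.trans hQC, Finsupp.mem_support_iff.1 hδ₀, fun δ hδ hne' => ?_⟩
  by_contra hcon
  push Not at hcon
  have k1 : Q ≤ ‖((((δ : Γ) : ℂˣ) : ℂ)) ^ T‖ := by
    have e : Q = ‖((((δ₀ : Γ) : ℂˣ) : ℂ))‖ ^ T := by
      rw [← norm_pow, hδ₀T, Complex.norm_real, Real.norm_of_nonneg hQ.le]
    rw [norm_pow, e]
    exact pow_le_pow_left₀ (norm_nonneg _) hcon T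
  have k2 : ((((δ : Γ) : ℂˣ) : ℂ)) ^ T ≠ (Q : ℂ) := fun hc => hne' (tf_inj hΓ hT (hc.trans hδ₀T.symm))
  have k3 := A1 _ (Finset.mem_image_of_mem _ (Finsupp.mem_support_iff.2 hδ)) k1 k2
  have k4 : c (((((δ : Γ) : ℂˣ) : ℂ)) ^ T) = v.coeff δ * (((δ : Γ) : ℂˣ) : ℂ) ^ a :=
    fiber_coeff hΓ hT v a δ
  rw [k4] at k3
  exact mul_ne_zero hδ (pow_ne_zero _ (Units.ne_zero _)) k3

end Pool.Agent.T3h90.PP
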