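import Pool.Agent.T3h90.PP.Bd
import Pool.Agent.T3h90.PP.Core
import Pool.Agent.T3h90.PP.T_INJ
import Pool.Agent.T3h90.PP.T_SPEC
import Pool.Agent.T3h90.PP.T_PADIC
import Pool.Agent.T3h90.PP.T_NEAR
import Pool.Agent.T3h90.PP.T_SELF
import Pool.Agent.T3h90.PP.T_ONEA
import Pool.Agent.T3h90.PP.T_ONEV
import Pool.Agent.T3h90.PP.T_INTEG
import Pool.Agent.T3h90.PP.T_ROOTU
import Pool.Agent.T3h90.PP.T_ALG
import Pool.Agent.T3h90.PP.T_GALU
import Pool.Agent.T3h90.PP.T_CYC1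
import Pool.Agent.T3h90.PP.T_CYC2
import Pool.Agent.T3h90.PP.T_BIGMU
import Pool.Agent.T3h90.PP.T_DIRI
import Pool.Agent.T3h90.PP.T_SMLP
import Pool.Agent.T3h90.PP.T_RESTR
import Pool.Agent.T3h90.PP.T_TOP
import Pool.Agent.T3h90.PP.T_QUOT
import Pool.Agent.T3h90.PP.T_GAL
import Pool.Agent.T3h90.PP.T_LWP
import Pool.Agent.T3h90.PP.T_LAG
import Pool.Agent.T3h90.PP.T_CNT
import Pool.Agent.T3h90.PP.T_PL
import Pool.Agent.T3h90.PP.T_ABL
import Pool.Agent.T2h48.DW.All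
import Pool.Agent.T2h48.LF.All

/-! Project PP: the main theorem. Tasks by helper9, helper18, helper21, helper45, helper47, helper69, helper85. -/

set_option autoImplicit false

namespace Pool.Agent.T3h90.PP

open Pool.Agent.T2h48

theorem core_all : S_CORE :=
  t_CORE (t_RESTR DW.t_SPLIT) (t_TOP DW.t_ASYM) (t_QUOT t_NEAR t_INJ DW.t_ASYM) t_INJ
    (t_ALG t_SPEC t_INTEG t_ROOTU (t_ONEV t_SELF t_ONEA)) t_BIGMU t_CYC1 t_CYC2 (t_GAL t_GALU) t_PADIC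

theorem main_all : S_MAIN :=
  t_MAIN core_all (t_LWP LF.formF) t_SMLP DW.dwork DW.t_RING t_LAG
    (t_ABL (t_CNT DW.dwork) t_SMLP t_DIRI t_PL DW.t_RING)

end Pool.Agent.T3h90.PP
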