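import Pool.Agent.T3h90.PP.Main

/-!
# Project PP: the dimension is bounded; the main theorem
-/

set_option autoImplicit false

namespace Pool.Agent.T3h90.PP

open Pool.Agent.T2h48.DW Pool.Agent.T2h48.AD
open Filter Topology

theorem asy {W : ℕ → ℤ} {c T d h q : ℕ} (hq : 2 ≤ q) (hh : 1 ≤ h)
    (hlim : Tendsto (fun t : ℕ => (W (c + T * t) : ℝ) / (q : ℝ) ^ (d * (c + T * t))) atTop
      (𝓝 (h : ℝ))) :
    ∃ t₀, ∀ t : ℕ, t₀ ≤ t → ((q : ℝ) ^ (c + T * t)) ^ d ≤ 2 * (W (c + T * t) : ℝ) ∧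
      (W (c + T * t) : ℝ) ≤ (h + 1) * ((q : ℝ) ^ (c + T * t)) ^ d := by
  have hh' : (1 : ℝ) ≤ h := by exact_mod_cast hh
  have h1 := hlim.eventually (Ioi_mem_nhds (show (1 / 2 : ℝ) < h by linarith))
  have h2 := hlim.eventually (Iio_mem_nhds (show (h : ℝ) < h + 1 by linarith))
  obtain ⟨t₀, ht₀⟩ := eventually_atTop.1 (h1.and h2)
  refine ⟨t₀, fun t ht => ?_⟩
  obtain ⟨h3, h4⟩ := ht₀ t ht
  have hQ : (0 : ℝ) < (q : ℝ) ^ (d * (c + T * t)) := by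
    have : (0 : ℝ) < q := by
      have : 0 < q := by omega
      exact_mod_cast this
    positivity
  have e : ((q : ℝ) ^ (c + T * t)) ^ d = (q : ℝ) ^ (d * (c + T * t)) := by
    rw [← pow_mul, mul_comm]
  rw [e]
  rw [lt_div_iff₀ hQ] at h3
  rw [div_lt_iff₀ hQ] at h4
  constructor <;> linarith

theorem class_bd {V K : ℕ → ℤ} {c T q d₁ d₂ h₁ h₂ : ℕ} (hq : 2 ≤ q) (hh₁ : 1 ≤ h₁) (hh₂ : 1 ≤ h₂)
    (hV : Tendsto (fun t : ℕ => (V (c + T * t) : ℝ) / (q : ℝ) ^ (d₁ * (c + T * t))) atTop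
      (𝓝 (h₁ : ℝ)))
    (hK : Tendsto (fun t : ℕ => (K (c + T * t) : ℝ) / (q : ℝ) ^ (d₂ * (c + T * t))) atTop
      (𝓝 (h₂ : ℝ))) :
    ∃ B : ℕ, ∀ t n r : ℕ, B ≤ n → 2 ≤ n → V (c + T * t) - 1 = n * K (c + T * t) →
      V (c + T * t) - K (c + T * t) = (n : ℤ) ^ r → 1 ≤ K (c + T * t) → r ≤ d₁ := by
  obtain ⟨t₁, ht₁⟩ := asy hq hh₁ hV
  obtain ⟨t₂, ht₂⟩ := asy hq hh₂ hK
  refine ⟨∑ t ∈ Finset.range (max t₁ t₂), (V (c + T * t)).toNat + 2 * (h₁ + 1) +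
    (h₁ + 1) * (4 * (h₂ + 1)) ^ d₁ + 1, fun t n r hB hn h1 h2 h3 => ?_⟩
  have hn0 : (0 : ℤ) ≤ n := Int.natCast_nonneg n
  have hnV : (n : ℤ) ≤ V (c + T * t) := by nlinarith
  have ht : max t₁ t₂ ≤ t := by
    by_contra hlt
    push Not at hlt
    have h4 : (V (c + T * t)).toNat ≤ ∑ t ∈ Finset.range (max t₁ t₂), (V (c + T * t)).toNat :=
      Finset.single_le_sum (f := fun t => (V (c + T * t)).toNat) (fun _ _ => Nat.zero_le _)
        (Finset.mem_range.2 hlt)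
    have h5 : 0 ≤ (h₁ + 1) * (4 * (h₂ + 1)) ^ d₁ := Nat.zero_le _
    omega
  obtain ⟨a1, a2⟩ := ht₁ t ((le_max_left _ _).trans ht)
  obtain ⟨b1, b2⟩ := ht₂ t ((le_max_right _ _).trans ht)
  by_contra hr
  push Not at hr
  have hQ : (1 : ℝ) ≤ (q : ℝ) ^ (c + T * t) := by
    have : (1 : ℝ) ≤ q := by
      have : 1 ≤ q := by omega
      exact_mod_cast this
    exact one_le_pow₀ this
  set Q : ℝ := (q : ℝ) ^ (c + T * t) with hQd
  have hQ0 : (0 : ℝ) < Q := by linarith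
  have hBr : ((2 * (h₁ + 1) + (h₁ + 1) * (4 * (h₂ + 1)) ^ d₁ + 1 : ℕ) : ℝ) ≤ n := by
    have : 2 * (h₁ + 1) + (h₁ + 1) * (4 * (h₂ + 1)) ^ d₁ + 1 ≤ n := by omega
    exact_mod_cast this
  push_cast at hBr
  have hnr : (2 : ℝ) ≤ n := by exact_mod_cast hn
  have h1r : (V (c + T * t) : ℝ) - 1 = n * K (c + T * t) := by exact_mod_cast h1
  have h2r : (V (c + T * t) : ℝ) - K (c + T * t) = (n : ℝ) ^ r := by exact_mod_cast h2
  have h3r : (1 : ℝ) ≤ K (c + T * t) := by exact_mod_cast h3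
  set v : ℝ := (V (c + T * t) : ℝ)
  set k : ℝ := (K (c + T * t) : ℝ)
  have hpos : (0 : ℝ) ≤ (h₁ + 1) * (4 * (h₂ + 1)) ^ d₁ := by positivity
  rcases le_or_gt d₁ d₂ with hd | hd
  · have h4 : Q ^ d₁ ≤ Q ^ d₂ := pow_le_pow_right₀ hQ hd
    have h5 : (n : ℝ) * Q ^ d₂ ≤ 2 * (h₁ + 1) * Q ^ d₂ := by
      have h6 : (n : ℝ) * Q ^ d₂ ≤ n * (2 * k) := mul_le_mul_of_nonneg_left b1 (by linarith)
      have h7 : ((h₁ : ℝ) + 1) * Q ^ d₁ ≤ (h₁ + 1) * Q ^ d₂ :=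
        mul_le_mul_of_nonneg_left h4 (by positivity)
      nlinarith
    have h8 : (n : ℝ) ≤ 2 * (h₁ + 1) := le_of_mul_le_mul_right h5 (by positivity)
    linarith
  · have h4 : Q ^ (d₂ + 1) ≤ Q ^ d₁ := pow_le_pow_right₀ hQ hd
    have h5 : Q ≤ 4 * (h₂ + 1) * n := by
      have h6 : Q * Q ^ d₂ ≤ 4 * (h₂ + 1) * n * Q ^ d₂ := by
        have h7 : (n : ℝ) * k ≤ n * ((h₂ + 1) * Q ^ d₂) :=
          mul_le_mul_of_nonneg_left b2 (by linarith)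
        have h8 : Q * Q ^ d₂ = Q ^ (d₂ + 1) := by rw [pow_succ]; ring
        have h9 : (2 : ℝ) ≤ v := by nlinarith
        nlinarith
      exact le_of_mul_le_mul_right h6 (by positivity)
    have h6 : (n : ℝ) ^ (d₁ + 1) ≤ (h₁ + 1) * (4 * (h₂ + 1)) ^ d₁ * (n : ℝ) ^ d₁ := by
      calc (n : ℝ) ^ (d₁ + 1) ≤ (n : ℝ) ^ r := pow_le_pow_right₀ (by linarith) hr
        _ = v - k := h2r.symm
        _ ≤ (h₁ + 1) * Q ^ d₁ := by linarith
        _ ≤ (h₁ + 1) * (4 * (h₂ + 1) * n) ^ d₁ := by gcongr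
        _ = (h₁ + 1) * (4 * (h₂ + 1)) ^ d₁ * (n : ℝ) ^ d₁ := by rw [mul_pow]; ring
    rw [pow_succ, mul_comm] at h6
    have h7 : (n : ℝ) ≤ (h₁ + 1) * (4 * (h₂ + 1)) ^ d₁ :=
      le_of_mul_le_mul_right h6 (by positivity)
    nlinarith

/-- the dimension is bounded -/
theorem bdd_mu (hLWP : S_LWP) {F : Type} [Field F] [Finite F] {a : ℕ} {G D : QF F a}
    {M : QF F (a + a + a)} {V K : ℕ → ℤ} (hG : Grp G M) (h : Cnt G D V K) :
    ∃ B L : ℕ, ∀ (E : Type) [Field E] [Finite E] [Algebra F E] (n μ : ℕ), B ≤ n → 3 ≤ μ →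
      IsSDS G M D E n μ → μ ≤ L := by
  classical
  obtain ⟨T₁, hT₁, hlw₁⟩ := hLWP F a G V (fun E _ _ m hm hE => h.V E m hm hE)
  obtain ⟨T₂, hT₂, hlw₂⟩ := hLWP F a (QF.and G D) K (fun E _ _ m hm hE => by
    rw [card_and]
    exact h.K E m hm hE)
  have hq : 2 ≤ Nat.card F := Finite.one_lt_card
  have hT : 1 ≤ T₁ * T₂ := Nat.mul_pos hT₁ hT₂
  have key : ∀ c : ℕ, ∃ B L : ℕ, 1 ≤ c → ∀ (E : Type) [Field E] [Finite E] [Algebra F E]
      (t n μ : ℕ), Module.finrank F E = c + T₁ * T₂ * t → B ≤ n → 2 ≤ n → 3 ≤ μ →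
      IsSDS G M D E n μ → μ ≤ L := by
    intro c
    by_cases hc : 1 ≤ c
    · obtain ⟨h₁, d₁, hl₁, hz₁⟩ := hlw₁ c hc
      obtain ⟨h₂, d₂, hl₂, hz₂⟩ := hlw₂ c hc
      have hh₁ : 1 ≤ h₁ := by
        by_contra h0
        have h1 := hz₁ (by omega) 0
        have h2 := (h.pos hG (m := c + T₁ * 0) (by omega)).1
        omega
      rcases Nat.eq_zero_or_pos h₂ with h0 | hh₂
      · refine ⟨0, 0, fun _ E _ _ _ t n μ hE _ hn hμ hS => ?_⟩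
        exfalso
        obtain ⟨r, rfl⟩ : ∃ r, μ = r + 1 := ⟨μ - 1, by omega⟩
        have h3 := (h.val hn hS).2.2.2
        have h4 := hz₂ h0 (T₁ * t)
        have h5 : c + T₂ * (T₁ * t) = c + T₁ * T₂ * t := by ring
        rw [h5, ← hE, h3] at h4
        obtain ⟨r', rfl⟩ : ∃ r', r = r' + 1 := ⟨r - 1, by omega⟩
        rw [S_succ'] at h4
        have h6 : 0 ≤ n * S n r' := Nat.zero_le _
        omega
      · have hl₁' : Tendsto (fun t : ℕ => (V (c + T₁ * T₂ * t) : ℝ) /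
            (Nat.card F : ℝ) ^ (d₁ * (c + T₁ * T₂ * t))) atTop (𝓝 (h₁ : ℝ)) := by
          have h1 : Tendsto (fun t : ℕ => T₂ * t) atTop atTop := tendsto_id.const_mul_atTop' hT₂
          refine (hl₁.comp h1).congr fun t => ?_
          show (V (c + T₁ * (T₂ * t)) : ℝ) / (Nat.card F : ℝ) ^ (d₁ * (c + T₁ * (T₂ * t))) = _
          rw [← mul_assoc T₁]
        have hl₂' : Tendsto (fun t : ℕ => (K (c + T₁ * T₂ * t) : ℝ) /
            (Nat.card F : ℝ) ^ (d₂ * (c + T₁ * T₂ * t))) atTop (𝓝 (h₂ : ℝ)) := by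
          have h1 : Tendsto (fun t : ℕ => T₁ * t) atTop atTop := tendsto_id.const_mul_atTop' hT₁
          refine (hl₂.comp h1).congr fun t => ?_
          show (K (c + T₂ * (T₁ * t)) : ℝ) / (Nat.card F : ℝ) ^ (d₂ * (c + T₂ * (T₁ * t))) = _
          rw [← mul_assoc T₂, mul_comm T₂ T₁]
        obtain ⟨B, hB⟩ := class_bd hq hh₁ hh₂ hl₁' hl₂'
        refine ⟨B, d₁ + 1, fun _ E _ _ _ t n μ hE hBn hn hμ hS => ?_⟩
        obtain ⟨r, rfl⟩ : ∃ r, μ = r + 1 := ⟨μ - 1, by omega⟩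
        obtain ⟨v1, v2, v3, v4⟩ := h.val hn hS
        rw [hE] at v1 v2 v3 v4
        have h7 : 1 ≤ K (c + T₁ * T₂ * t) := by
          rw [v4]
          obtain ⟨r', rfl⟩ : ∃ r', r = r' + 1 := ⟨r - 1, by omega⟩
          rw [S_succ']
          have h6 : 0 ≤ n * S n r' := Nat.zero_le _
          omega
        have := hB t n r hBn hn v1 v2 h7
        omega
    · exact ⟨0, 0, fun h => absurd h hc⟩
  choose B L hBL using key
  refine ⟨∑ c ∈ Finset.range (T₁ * T₂ + 1), B c + 2, ∑ c ∈ Finset.range (T₁ * T₂ + 1), L c,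
    fun E _ _ _ n μ hn hμ hS => ?_⟩
  obtain ⟨c, t, hc1, hc2, hct⟩ : ∃ c t, 1 ≤ c ∧ c ≤ T₁ * T₂ ∧ Module.finrank F E = c + T₁ * T₂ * t := by
    have h0 : 1 ≤ Module.finrank F E := finrank_pos
    refine ⟨(Module.finrank F E - 1) % (T₁ * T₂) + 1, (Module.finrank F E - 1) / (T₁ * T₂), by omega,
      Nat.mod_lt _ hT, ?_⟩
    have := Nat.mod_add_div (Module.finrank F E - 1) (T₁ * T₂)
    omega
  have h1 : B c ≤ ∑ c ∈ Finset.range (T₁ * T₂ + 1), B c :=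
    Finset.single_le_sum (f := B) (fun _ _ => Nat.zero_le _) (Finset.mem_range.2 (by omega))
  have h2 : L c ≤ ∑ c ∈ Finset.range (T₁ * T₂ + 1), L c :=
    Finset.single_le_sum (f := L) (fun _ _ => Nat.zero_le _) (Finset.mem_range.2 (by omega))
  exact (hBL c hc1 E t n μ hct (by omega) (by omega) hμ hS).trans h2

theorem t_MAIN (hCORE : S_CORE) (hLWP : S_LWP) (hSML : S_SMLP) (hDW : S_DWORK) (hR : S_RING)
    (hLAG : S_LAG) (hABL : S_ABL) : S_MAIN := by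
  classical
  intro F _ _ a G D M hG
  obtain ⟨V, hVe, hV⟩ := hDW F a G
  obtain ⟨K, hKe, hK⟩ := hDW F a (QF.and G D)
  have h : Cnt G D V K := ⟨fun E _ _ m hm hE => hV E m hm hE, fun E _ _ m hm hE => by
    rw [← card_and]
    exact hK E m hm hE⟩
  obtain ⟨B, L, hBL⟩ := bdd_mu hLWP hG h
  have key : ∀ μ : ℕ, ∃ B' : ℕ, 3 ≤ μ → ∀ (E : Type) [Field E] [Finite E] [Algebra F E] (n : ℕ),
      B' ≤ n → IsSDS G M D E n μ → Concl G M E n μ := by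
    intro μ
    by_cases hμ : 3 ≤ μ
    · obtain ⟨B', hB'⟩ := fixed hCORE hLWP hSML hR hLAG hABL hG h hVe hKe μ hμ
      exact ⟨B', fun _ => hB'⟩
    · exact ⟨0, fun h => absurd h hμ⟩
  choose B' hB' using key
  refine ⟨B + ∑ μ ∈ Finset.range (L + 1), B' μ, fun E _ _ _ n μ hn hμ hS => ?_⟩
  have h1 := hBL E n μ (by omega) hμ hS
  have h2 : B' μ ≤ ∑ μ ∈ Finset.range (L + 1), B' μ :=
    Finset.single_le_sum (f := B') (fun _ _ => Nat.zero_le _) (Finset.mem_range.2 (by omega))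
  exact hB' μ hμ E n (by omega) hS

end Pool.Agent.T3h90.PP
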