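import Pool.Agent.T3h90.PP.Stm

/-!
# Project PP: the main theorem
-/

set_option autoImplicit false

namespace Pool.Agent.T3h90.PP

open Pool.Agent.T2h48.DW Pool.Agent.T2h48.AD
open Filter Topology

theorem S_succ (n i : ℕ) : S n (i + 1) = S n i + n ^ i := by
  unfold S
  rw [Finset.sum_range_succ]

theorem S_succ' (n i : ℕ) : S n (i + 1) = n * S n i + 1 := by
  unfold S
  rw [Finset.sum_range_succ', Finset.mul_sum]
  simp only [pow_zero]
  congr 1
  exact Finset.sum_congr rfl fun j _ => by rw [pow_succ]; ring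

theorem sds_card {F K : Type} [Field F] [Field K] [Algebra F K] {a : ℕ} {G D : QF F a}
    {M : QF F (a + a + a)} {n μ : ℕ} (hn : 2 ≤ n) (h : IsSDS G M D K n μ) :
    Nat.card (Pt G K) = S n μ ∧ Nat.card {x : Pt G K // D.Holds x.1} = S n (μ - 1) := by
  obtain ⟨iG, hM, hv, hk, -⟩ := h
  exact ⟨eq_S hn hv, eq_S hn hk⟩

theorem card_and {F K : Type} [Field F] [Field K] [Algebra F K] {a : ℕ} (G D : QF F a) :
    Nat.card {x : Fin a → K // (QF.and G D).Holds x} = Nat.card {x : Pt G K // D.Holds x.1} :=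
  Nat.card_congr
    { toFun := fun x => ⟨⟨x.1, x.2.1⟩, x.2.2⟩
      invFun := fun x => ⟨x.1.1, x.1.2, x.2⟩
      left_inv := fun _ => rfl
      right_inv := fun _ => rfl }

theorem isExpSum_pow (hR : S_RING) {V : ℕ → ℤ} (h : IsExpSum V) (r : ℕ) :
    IsExpSum (fun m => V m ^ r) := by
  induction r with
  | zero => simpa using hR.1 1
  | succ r ih => simpa only [pow_succ] using hR.2.2 _ _ ih h

theorem isExpSum_sub (hR : S_RING) {V W : ℕ → ℤ} (h : IsExpSum V) (h' : IsExpSum W) :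
    IsExpSum (fun m => V m - W m) := by
  have h1 := hR.2.1 _ _ h (hR.2.2 _ _ (hR.1 (-1)) h')
  refine (congrArg IsExpSum ?_).mp h1
  funext m
  ring

theorem isExpSum_E (hR : S_RING) {V K : ℕ → ℤ} (hV : IsExpSum V) (hK : IsExpSum K) (r : ℕ) :
    IsExpSum (fun m => (V m - 1) ^ r - (V m - K m) * K m ^ r) :=
  isExpSum_sub hR (isExpSum_pow hR (isExpSum_sub hR hV (hR.1 1)) r)
    (hR.2.2 _ _ (isExpSum_sub hR hV hK) (isExpSum_pow hR hK r))

/-- the data attached to a family: the counting functions -/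
structure Cnt {F : Type} [Field F] [Finite F] {a : ℕ} (G D : QF F a) (V K : ℕ → ℤ) : Prop where
  V : ∀ (E : Type) [Field E] [Algebra F E] (m : ℕ), 1 ≤ m → Module.finrank F E = m →
    (Nat.card (Pt G E) : ℤ) = V m
  K : ∀ (E : Type) [Field E] [Algebra F E] (m : ℕ), 1 ≤ m → Module.finrank F E = m →
    (Nat.card {x : Pt G E // D.Holds x.1} : ℤ) = K m

theorem finrank_pos {F E : Type} [Field F] [Field E] [Finite E] [Algebra F E] :
    1 ≤ Module.finrank F E := by
  have : Module.Finite F E := Module.Finite.of_finite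
  exact Module.finrank_pos

/-- existence of the extensions -/
theorem exists_ext (F : Type) [Field F] [Finite F] {m : ℕ} (hm : 1 ≤ m) :
    ∃ (E : Type) (_ : Field E) (_ : Finite E) (_ : Algebra F E), Module.finrank F E = m := by
  obtain ⟨p, hp⟩ := CharP.exists F
  have hpp : Fact p.Prime := ⟨CharP.char_is_prime F p⟩
  have hne : NeZero m := ⟨by omega⟩
  have hfin : Finite (FiniteField.Extension F p m) := Module.finite_of_finite F
  exact ⟨FiniteField.Extension F p m, inferInstance, hfin, inferInstance,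
    FiniteField.finrank_extension F p m⟩

theorem card_ext (F E : Type) [Field F] [Finite F] [Field E] [Finite E] [Algebra F E] :
    Nat.card E = Nat.card F ^ Module.finrank F E :=
  Module.natCard_eq_pow_finrank

section
variable {F : Type} [Field F] [Finite F] {a : ℕ} {G D : QF F a} {M : QF F (a + a + a)}
  {V K : ℕ → ℤ}

theorem Cnt.pos (h : Cnt G D V K) (hG : Grp G M) {m : ℕ} (hm : 1 ≤ m) : 1 ≤ V m ∧ 0 ≤ K m := by
  obtain ⟨E, _, _, _, hE⟩ := exists_ext F hm
  obtain ⟨iG, -⟩ := hG E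
  have h1 := h.V E m hm hE
  have h2 := h.K E m hm hE
  have h3 : Finite (Pt G E) := Subtype.finite
  have h4 : 0 < Nat.card (Pt G E) := Nat.card_pos
  omega

theorem Cnt.dvd (hL : S_LAG) (h : Cnt G D V K) (hG : Grp G M) {m s : ℕ} (hm : 1 ≤ m) (hs : 1 ≤ s) :
    V m ∣ V (m * s) := by
  have hms : 1 ≤ m * s := Nat.mul_pos hm hs
  obtain ⟨E, _, _, _, hE⟩ := exists_ext F hm
  obtain ⟨E', _, _, _, hE'⟩ := exists_ext F hms
  rw [← h.V E m hm hE, ← h.V E' _ hms hE']
  exact_mod_cast hL F a G M hG E E' (by rw [hE, hE']; exact dvd_mul_right _ _)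

/-- the values at a difference set -/
theorem Cnt.val (h : Cnt G D V K) {E : Type} [Field E] [Finite E] [Algebra F E] {n r : ℕ}
    (hn : 2 ≤ n) (hE : IsSDS G M D E n (r + 1)) :
    V (Module.finrank F E) - 1 = n * K (Module.finrank F E) ∧
      V (Module.finrank F E) - K (Module.finrank F E) = (n : ℤ) ^ r ∧
      V (Module.finrank F E) = S n (r + 1) ∧ K (Module.finrank F E) = S n r := by
  obtain ⟨h1, h2⟩ := sds_card hn hE
  rw [Nat.add_sub_cancel] at h2
  have h3 := h.V E _ finrank_pos rfl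
  have h4 := h.K E _ finrank_pos rfl
  rw [h1] at h3
  rw [h2] at h4
  refine ⟨?_, ?_, h3.symm, h4.symm⟩
  · rw [← h3, ← h4, S_succ']
    push_cast
    ring
  · rw [← h3, ← h4, S_succ]
    push_cast
    ring

theorem Cnt.le (h : Cnt G D V K) {E : Type} [Field E] [Finite E] [Algebra F E] {n r : ℕ}
    (hn : 2 ≤ n) (hr : 1 ≤ r) (hE : IsSDS G M D E n (r + 1)) :
    (n : ℤ) ≤ V (Module.finrank F E) - K (Module.finrank F E) ∧
      (n : ℤ) ≤ V (Module.finrank F E) := by
  obtain ⟨-, h2, h3, h4⟩ := h.val hn hE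
  have h5 : (n : ℤ) ≤ (n : ℤ) ^ r := by
    exact_mod_cast Nat.le_self_pow (by omega) n
  have h6 : (0 : ℤ) ≤ K (Module.finrank F E) := by
    rw [h4]; positivity
  constructor
  · rw [h2]; exact h5
  · linarith

end

/-- the conclusion -/
def Concl {F : Type} [Field F] {a : ℕ} (G : QF F a) (M : QF F (a + a + a)) (E : Type) [Field E]
    [Algebra F E] (n μ : ℕ) : Prop :=
  (∃ d : ℕ, n ^ (μ - 1) = Nat.card E ^ d) ∨
      (μ = 3 ∧ (∃ d : ℕ, (n + 1) ^ 2 = Nat.card E ^ d) ∧
        ∃ x y z : Pt G E, M.Holds (Fin.append (Fin.append x.1 y.1) z.1) ∧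
          ¬ M.Holds (Fin.append (Fin.append y.1 x.1) z.1))

/-- fixed `μ` -/
theorem fixed (hCORE : S_CORE) (hLWP : S_LWP) (hSML : S_SMLP) (hR : S_RING) (hLAG : S_LAG)
    (hABL : S_ABL) {F : Type} [Field F] [Finite F] {a : ℕ} {G D : QF F a} {M : QF F (a + a + a)}
    {V K : ℕ → ℤ} (hG : Grp G M) (h : Cnt G D V K) (hV : IsExpSum V) (hK : IsExpSum K) (μ : ℕ)
    (hμ : 3 ≤ μ) : ∃ B : ℕ, ∀ (E : Type) [Field E] [Finite E] [Algebra F E] (n : ℕ), B ≤ n →
      IsSDS G M D E n μ → Concl G M E n μ := by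
  classical
  by_contra hcon
  push Not at hcon
  obtain ⟨r, rfl⟩ : ∃ r, μ = r + 1 := ⟨μ - 1, by omega⟩
  have hr : 2 ≤ r := by omega
  -- bad pairs
  let Bad : ℕ → ℕ → Prop := fun m n => ∃ (E : Type) (_ : Field E) (_ : Finite E) (_ : Algebra F E),
    Module.finrank F E = m ∧ 2 ≤ n ∧ IsSDS G M D E n (r + 1) ∧ ¬ Concl G M E n (r + 1)
  have hV1 : ∀ m n, Bad m n → 1 ≤ m ∧ (n : ℤ) ≤ V m - K m ∧ (n : ℤ) ≤ V m ∧
      V m - 1 = n * K m ∧ V m - K m = (n : ℤ) ^ r ∧ V m = S n (r + 1) ∧ K m = S n r := by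
    rintro m n ⟨E, _, _, _, rfl, hn, hE, -⟩
    exact ⟨finrank_pos, (h.le hn (by omega) hE).1, (h.le hn (by omega) hE).2, h.val hn hE⟩
  have claim1 : ∀ B : ℕ, ∃ m n, B ≤ n ∧ B ≤ m ∧ Bad m n := by
    intro B
    obtain ⟨E, iF, iK, iA, n, hn, hE, hC⟩ := hcon (B + 2 + ∑ m ∈ Finset.range B, (V m).toNat)
    have hbad : Bad (Module.finrank F E) n := ⟨E, iF, iK, iA, rfl, by omega, hE, hC⟩
    refine ⟨_, n, by omega, ?_, hbad⟩
    by_contra hlt
    push Not at hlt
    have h1 : (V (Module.finrank F E)).toNat ≤ ∑ m ∈ Finset.range B, (V m).toNat :=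
      Finset.single_le_sum (f := fun m => (V m).toNat) (fun _ _ => Nat.zero_le _)
        (Finset.mem_range.2 hlt)
    have h2 := (hV1 _ _ hbad).2.2.1
    omega
  -- the modulus
  obtain ⟨L₀, N₀, hL₀, hz⟩ := hSML _ (isExpSum_E hR hV hK r)
  obtain ⟨N, hN, hcore⟩ := hCORE V K hV hK (fun m hm => h.pos hG hm)
    (fun m s hm hs => h.dvd hLAG hG hm hs)
  obtain ⟨T₁, hT₁, hlw⟩ := hLWP F a G V (fun E _ _ m hm hE => h.V E m hm hE)
  obtain ⟨T, hT⟩ : ∃ T, T = T₁ * (L₀ * N) := ⟨_, rfl⟩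
  have hT0 : 1 ≤ T := by
    rw [hT]
    exact Nat.mul_pos hT₁ (Nat.mul_pos hL₀ hN)
  have claim2 : ∃ s, ∀ B : ℕ, ∃ m n, B ≤ n ∧ B ≤ m ∧ m % T = s ∧ Bad m n := by
    by_contra hc
    push Not at hc
    choose B hB using hc
    obtain ⟨m, n, h1, h2, h3⟩ := claim1 (∑ s ∈ Finset.range T, B s)
    have h4 : B (m % T) ≤ ∑ s ∈ Finset.range T, B s :=
      Finset.single_le_sum (f := B) (fun _ _ => Nat.zero_le _)
        (Finset.mem_range.2 (Nat.mod_lt _ hT0))
    exact hB (m % T) m n (h4.trans h1) (h4.trans h2) rfl h3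
  obtain ⟨s, hs⟩ := claim2
  obtain ⟨c, n₀, hn₀, hc, hcs, hbad₀⟩ := hs (N₀ + 2)
  have hc1 : 1 ≤ c := by omega
  have hprog : ∀ B : ℕ, ∃ t n, B ≤ n ∧ B ≤ c + T * t ∧ Bad (c + T * t) n := by
    intro B
    obtain ⟨m, n, h1, h2, h3, h4⟩ := hs (B + c)
    refine ⟨(m - c) / T, n, by omega, ?_⟩
    have h5 : T ∣ m - c := (Nat.modEq_iff_dvd' (by omega)).1 (by
      show c % T = m % T
      rw [hcs, h3])
    have h6 : c + T * ((m - c) / T) = m := by
      rw [Nat.mul_div_cancel' h5]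
      omega
    rw [h6]
    exact ⟨by omega, h4⟩
  -- the identity
  have hid : ∀ t : ℕ, (V (c + T * t) - 1) ^ r = (V (c + T * t) - K (c + T * t)) * K (c + T * t) ^ r := by
    intro t
    have h0 := hV1 _ _ hbad₀
    have h1 : (V c - 1) ^ r - (V c - K c) * K c ^ r = 0 := by
      rw [h0.2.2.2.1, h0.2.2.2.2.1, mul_pow, sub_self]
    have h2 := hz c (by omega) h1 (T₁ * N * t)
    have h3 : c + L₀ * (T₁ * N * t) = c + T * t := by
      rw [hT]
      ring
    rw [h3] at h2
    exact sub_eq_zero.1 h2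
  -- Lang-Weil
  obtain ⟨hh, d, hlim, hzero⟩ := hlw c hc1
  have hh1 : 1 ≤ hh := by
    by_contra h0
    have h1 := hzero (by omega) 0
    have h2 := (h.pos hG (m := c + T₁ * 0) (by omega)).1
    omega
  have hlimT : Tendsto (fun t : ℕ => (V (c + T * t) : ℝ) / (Nat.card F : ℝ) ^ (d * (c + T * t))) atTop
      (𝓝 (hh : ℝ)) := by
    have h1 : Tendsto (fun t : ℕ => L₀ * N * t) atTop atTop :=
      tendsto_id.const_mul_atTop' (Nat.mul_pos hL₀ hN)
    refine (hlim.comp h1).congr fun t => ?_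
    show (V (c + T₁ * (L₀ * N * t)) : ℝ) / (Nat.card F : ℝ) ^ (d * (c + T₁ * (L₀ * N * t))) = _
    rw [← mul_assoc T₁, ← hT]
  have hd : 1 ≤ d := by
    by_contra h0
    obtain rfl : d = 0 := by omega
    simp only [zero_mul, pow_zero, div_one] at hlimT
    obtain ⟨B, hB⟩ := hlimT.bddAbove_range
    obtain ⟨t, n, h1, -, h3⟩ := hprog (⌈B⌉₊ + 1)
    have h4 := hB ⟨t, rfl⟩
    have h5 := (hV1 _ _ h3).2.2.1
    have h6 : ((⌈B⌉₊ + 1 : ℕ) : ℝ) ≤ (V (c + T * t) : ℝ) := by
      have : ((⌈B⌉₊ + 1 : ℕ) : ℤ) ≤ V (c + T * t) := le_trans (by exact_mod_cast h1) h5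
      exact_mod_cast this
    have h7 := Nat.le_ceil B
    push_cast at h6
    have h8 : (V (c + T * t) : ℝ) ≤ B := h4
    linarith
  have hunb : ∀ B : ℤ, ∃ t : ℕ, B ≤ V (c + T * t) - K (c + T * t) := by
    intro B
    obtain ⟨t, n, h1, -, h3⟩ := hprog B.toNat
    refine ⟨t, ?_⟩
    have := (hV1 _ _ h3).2.1
    omega
  have hq : 2 ≤ Nat.card F := Finite.one_lt_card
  have hfin := hcore (r + 1) c T (Nat.card F) d hh (by omega) hc1 hT0
    (by rw [hT]; exact Dvd.intro_left (T₁ * L₀) (by ring)) hq hd hh1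
    (fun t => by rw [Nat.add_sub_cancel]; exact hid t) hlimT hunb
  have hcard : ∀ (E : Type) [Field E] [Finite E] [Algebra F E],
      Nat.card E ^ d = Nat.card F ^ (d * Module.finrank F E) := by
    intro E _ _ _
    rw [card_ext F E, ← pow_mul, mul_comm]
  rcases hfin with ⟨-, h4⟩ | ⟨h3, hVK, h3'⟩
  · obtain ⟨E, iF, iK, iA, hE, hn, hS, hC⟩ := hbad₀
    apply hC
    left
    refine ⟨d, ?_⟩
    have h5 := h4 0
    have h6 := (h.val hn hS).2.1
    rw [mul_zero, add_zero] at h5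
    rw [hE, h5] at h6
    rw [Nat.add_sub_cancel, hcard E, hE]
    exact_mod_cast h6.symm
  · obtain rfl : r = 2 := by omega
    rcases h3' with h4 | h4
    · obtain ⟨E, iF, iK, iA, hE, hn, hS, hC⟩ := hbad₀
      apply hC
      left
      refine ⟨d, ?_⟩
      have h5 := h4 0
      have h6 := (h.val hn hS).2.2.2
      rw [mul_zero, add_zero] at h5
      rw [hE] at h6
      have h7 : (K c - 1) ^ 2 = (n₀ : ℤ) ^ 2 := by
        rw [h6]
        unfold S
        rw [Finset.sum_range_succ, Finset.sum_range_one]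
        push_cast
        ring
      rw [h5] at h7
      rw [hcard E, hE]
      exact_mod_cast h7.symm
    · refine hABL F a G D M hG c T d hc1 hT0 hd ?_ ?_
      · intro E _ _ _ t hE
        have h5 := h.V E (c + T * t) (by omega) hE
        have h6 := h.K E (c + T * t) (by omega) hE
        have h7 := h4 t
        have h8 := hVK t
        rw [← h6] at h7
        rw [← h5, ← h6] at h8
        constructor
        · exact_mod_cast h7
        · have h9 : (Nat.card (Pt G E) : ℤ) + Nat.card {x : Pt G E // D.Holds x.1} =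
              (Nat.card {x : Pt G E // D.Holds x.1} : ℤ) ^ 2 + 1 := by
            linarith
          exact_mod_cast h9
      · intro B
        obtain ⟨t, n, -, h2, E, iF, iK, iA, hE, hn, hS, hC⟩ := hprog B
        refine ⟨t, h2, E, iF, iK, iA, hE, ⟨n, hn, hS⟩, ?_⟩
        by_contra hab
        push Not at hab
        obtain ⟨x, y, z, hxyz, hyx⟩ := hab
        apply hC
        right
        refine ⟨rfl, ⟨d, ?_⟩, x, y, z, hxyz, hyx⟩
        have h6 := (h.val hn hS).2.2.2
        rw [hE] at h6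
        have h7 := h4 t
        have h8 : K (c + T * t) = (n : ℤ) + 1 := by
          rw [h6]
          unfold S
          rw [Finset.sum_range_succ, Finset.sum_range_one]
          push_cast
          ring
        rw [h8] at h7
        rw [hcard E, hE]
        exact_mod_cast h7

end Pool.Agent.T3h90.PP
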