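import Pool.Agent.T3h90.PP.Stm0

/-! Polynomials acting on sequences by the shift. -/

set_option autoImplicit false
set_option linter.all false

namespace Pool.Agent.T3h90.PP

open Polynomial

/-- the shift of sequences -/
noncomputable def sh : Module.End ℂ (ℕ → ℂ) := LinearMap.funLeft ℂ ℂ (fun t => t + 1)

theorem sh_apply (s : ℕ → ℂ) (t : ℕ) : sh s t = s (t + 1) := rfl

theorem sh_pow_apply (i : ℕ) (s : ℕ → ℂ) (t : ℕ) : (sh ^ i) s t = s (t + i) := by
  induction i generalizing s with
  | zero => rw [pow_zero]; rfl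
  | succ i ih =>
    rw [pow_succ, Module.End.mul_apply, ih, sh_apply, Nat.add_assoc]

theorem act_apply (p : ℂ[X]) (s : ℕ → ℂ) (t : ℕ) :
    (aeval sh p) s t = ∑ i ∈ Finset.range (p.natDegree + 1), p.coeff i * s (t + i) := by
  rw [aeval_eq_sum_range, LinearMap.sum_apply, Finset.sum_apply]
  apply Finset.sum_congr rfl
  intro i _
  rw [LinearMap.smul_apply, Pi.smul_apply, sh_pow_apply, smul_eq_mul]

theorem act_exp (p : ℂ[X]) (z : ℂ) :
    (aeval sh p) (fun t => z ^ t) = p.eval z • (fun t : ℕ => z ^ t) := by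
  have h1 : sh (fun t => z ^ t) = z • (fun t : ℕ => z ^ t) := by
    funext t
    rw [sh_apply, Pi.smul_apply, smul_eq_mul, pow_succ']
  induction p using Polynomial.induction_on' with
  | add p q hp hq => rw [map_add, LinearMap.add_apply, hp, hq, eval_add, add_smul]
  | monomial n a =>
    rw [aeval_monomial, eval_monomial, Module.End.mul_apply, Module.algebraMap_end_apply]
    have h2 : (sh ^ n) (fun t => z ^ t) = z ^ n • (fun t : ℕ => z ^ t) := by
      funext t
      rw [sh_pow_apply, Pi.smul_apply, smul_eq_mul, pow_add, mul_comm]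
    rw [h2, smul_smul]

theorem act_sum {S : Finset ℂ} (p : ℂ[X]) (c : ℂ → ℂ) :
    (aeval sh p) (fun t => ∑ y ∈ S, c y * y ^ t) = fun t => ∑ y ∈ S, c y * p.eval y * y ^ t := by
  have h1 : (fun t => ∑ y ∈ S, c y * y ^ t) = ∑ y ∈ S, c y • (fun t : ℕ => y ^ t) := by
    funext t
    rw [Finset.sum_apply]
    rfl
  rw [h1, map_sum]
  funext t
  rw [Finset.sum_apply]
  apply Finset.sum_congr rfl
  intro y _
  rw [LinearMap.map_smul, act_exp]
  show c y * (p.eval y * y ^ t) = _
  ring

end Pool.Agent.T3h90.PP
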