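import Pool.Agent.T3h90.PP.Stm0
import Pool.Agent.T2h48.DW.Stm
import Pool.Agent.T2h48.AD.Alg
import Pool.Agent.H152R2.Planar

/-!
# Project PP: statements that use the library of `T2h48` (Dwork, Lang–Weil)
-/

set_option autoImplicit false

namespace Pool.Agent.T3h90.PP

open Pool.Agent.T2h48.DW Pool.Agent.T2h48.AD
open Filter Topology ComplexConjugate

/-- **SMLP** (Skolem–Mahler–Lech, strong form: beyond `N₀` the zeros are unions of progressions modulo `L`).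
`T2h69/DW/T_SML.lean` reduces to `H612/LR/T_SML.lean` (`SML_bd`, and the proof of `SML_zeros`: `exc_count` of
`H853R2/Skolem/Count.lean` bounds the number of the zeros `n ≥ d` with `f (n + L t) ≠ 0` for some `t`; so there are
finitely many of them, take `N₀` larger). -/
def S_SMLP : Prop :=
  ∀ W : ℕ → ℤ, IsExpSum W →
    ∃ L N₀ : ℕ, 1 ≤ L ∧ ∀ m : ℕ, N₀ ≤ m → W m = 0 → ∀ t : ℕ, W (m + L * t) = 0

/-- **RESTR** (from `S_SPLIT` of `T2h48/DW`). Let `S` be the set of all bases of `V` and `K`,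
`G = closure S`, `N`, `τ` from SPLIT, `π γ = γ / τ γ`, `Γ = π(G)`: finitely generated, torsion free (`π γ ^ n = 1`
implies that `γ` is of finite order, so `τ γ = γ`, `π γ = 1`), consisting of algebraic numbers. For `m = a + N t`:
`β ^ m = τ β ^ a * π β ^ m`, so `v = ∑ n_β τ(β) ^ a [π β]` and the same for `κ`; the coefficients are sums of integer
multiples of roots of unity, so integral. `κ.coeff 1 = ∑ n_β β ^ a` over the `β` of finite order; it is real, since the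
sequence `K` is real, so that `n (conj β) = n β` (independence of the powers, `indep_pow`; take the `β` with `n β ≠ 0`). -/
def S_RESTR : Prop :=
  ∀ V K : ℕ → ℤ, IsExpSum V → IsExpSum K →
    ∃ (Γ : Subgroup ℂˣ) (N : ℕ), Γ.FG ∧ TF Γ ∧ (∀ γ ∈ Γ, IsAlgebraic ℚ ((γ : ℂˣ) : ℂ)) ∧ 1 ≤ N ∧
      ∀ a : ℕ, 1 ≤ a → ∃ v κ : MonoidAlgebra ℂ Γ,
        (∀ δ, IsIntegral ℤ (κ.coeff δ)) ∧ (κ.coeff 1).im = 0 ∧
        ∀ t : ℕ, (V (a + N * t) : ℂ) = ev (a + N * t) v ∧ (K (a + N * t) : ℂ) = ev (a + N * t) κ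

/-- **TOP** (from `S_ASYM` of `T2h48/DW`, with `S = {δ ^ T}`, `c (δ ^ T) = v_δ δ ^ a`, `Q = q ^ (d T)`, and limit
`h q ^ (d a)`; the `δ ^ T` are distinct). -/
def S_TOP : Prop :=
  ∀ (Γ : Subgroup ℂˣ), TF Γ → ∀ (v : MonoidAlgebra ℂ Γ) (a T q d h : ℕ), 1 ≤ T → 2 ≤ q → 1 ≤ h →
    Tendsto (fun t : ℕ => ev (a + T * t) v / (q : ℂ) ^ (d * (a + T * t))) atTop (𝓝 (h : ℂ)) →
    ∃ δ₀ : Γ, (((δ₀ : Γ) : ℂˣ) : ℂ) ^ T = (q : ℂ) ^ (d * T) ∧ v.coeff δ₀ ≠ 0 ∧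
      ∀ δ : Γ, v.coeff δ ≠ 0 → δ ≠ δ₀ → ‖((δ : ℂˣ) : ℂ)‖ < ‖((δ₀ : ℂˣ) : ℂ)‖

/-- **QUOT** (Hadamard quotient, in the presence of a dominating term; from NEAR, INJ and `S_ASYM`). Let
`m = a + T t`; `m (s + 1) = a + T (…)`, so `V (m (s+1)) = ev m (dil (s+1) v)`. `ε = v / (v_{δ₀} [δ₀]) - 1` in `ℂ[Γ]`,
`|ev m ε| ≤ C θ ^ t`, `θ < 1`; `F_R = dil (s+1) v * [δ₀]⁻¹ / v_{δ₀} * ∑_{i<R} (-ε) ^ i`, so `v F_R = dil (s+1) v (1 - (-ε) ^ R)`.
`V m ≠ 0` for large `t`, and `J t = V (m (s+1)) / V m` (an integer) satisfies `|J t - ev m F_R| ≤ C' (G θ ^ R) ^ t` for large `t`, with `G`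
independent of `R`. Take `R` with `G θ ^ R < 1`: NEAR gives `J t = ∑_{y ∈ Y} g y y ^ t` for large `t`, we may assume `g y ≠ 0`. Let `ρ > 0` be smaller than
all `‖y‖`, and take `R'` with `G θ ^ R' < ρ`; by ASYM (`Q = ρ`, limit `0`) every `y ∈ Y` is `δ ^ T` for some `δ ∈ supp F_R'`
(otherwise it would appear with the coefficient `g y ≠ 0` in `J - ev F_R'`). So `J t = ev m j`, `j = ∑ g y δ ^ (-a) [δ]`, for large `t`, and
`ev m (v j - dil (s+1) v) = 0`; INJ. -/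
def S_QUOT : Prop :=
  ∀ (Γ : Subgroup ℂˣ), TF Γ → (∀ γ ∈ Γ, IsAlgebraic ℚ ((γ : ℂˣ) : ℂ)) →
    ∀ (V : ℕ → ℤ) (v : MonoidAlgebra ℂ Γ) (a T s : ℕ) (δ₀ : Γ), 1 ≤ a → 1 ≤ T → T ∣ s →
      (∀ t : ℕ, (V (a + T * t) : ℂ) = ev (a + T * t) v) → v.coeff δ₀ ≠ 0 →
      (∀ δ : Γ, v.coeff δ ≠ 0 → δ ≠ δ₀ → ‖((δ : ℂˣ) : ℂ)‖ < ‖((δ₀ : ℂˣ) : ℂ)‖) →
      (∀ t : ℕ, V (a + T * t) ∣ V ((a + T * t) * (s + 1))) → v ∣ dil (s + 1) v

/-- **GAL** (from GALU and `transfer` of `T2h48/DW/T_ARITH.lean`). Let `r = √(q ^ d)`. As `K ≥ 0`, `K m = A' + √3 r ^ m` for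
the large `m ≡ a (mod T)`, `m ≥ a'`, where `a' ≡ a (mod T)`, `a' ≥ 1`. Let `M = 12 a' T`, `ζ = exp (2 π i / (12 a'))`, `c` a prime
`≡ 5 (mod 12)` larger than `M` (`Nat.forall_exists_prime_gt_and_eq_mod`), so coprime to `M`.
`ζ ^ m + ζ ^ (-m) = √3` for `m ≡ a' (mod M)`. Let `Γ` be the subgroup of `ℂˣ` generated by the bases of `K`, `r`, `ζ`
(or `⊤`), and `G = ∑ n_β [β] - A' [1] - [r ζ] - [r ζ⁻¹] ∈ ℤ[Γ]`, which is zero at all `m = a' + M t`. For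
`s = c a' + M t'`, `t'` large, apply `transfer` with `ψ γ = γ ^ s`: its hypothesis is GALU (`ζ ^ M = 1` implies `ζ ^ s = ζ ^ (c a')`). So
`K s = A' + r ^ s (ζ ^ (c a') + ζ ^ (- c a')) = A' - √3 r ^ s < 0`, a contradiction. -/
def S_GAL : Prop :=
  ∀ K : ℕ → ℤ, IsExpSum K → (∀ m : ℕ, 1 ≤ m → 0 ≤ K m) → ∀ (a T q d : ℕ) (A' : ℤ), 1 ≤ a →
    1 ≤ T → 2 ≤ q → 1 ≤ d → ¬ ∀ t : ℕ, (K (a + T * t) - A') ^ 2 = 3 * (q : ℤ) ^ (d * (a + T * t))

/-- **LWP** (from `S_FORMF` of `T2h48/LF`). `T = ∏ f i`; for `m = a + T t`, `f i ∣ m` iff `f i ∣ a`. If no `f i ∣ a`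
then `W m = 0` (`h = d = 0`), otherwise `d` is the maximal `d i` and `h` is the sum of the `f i` with `f i ∣ a`, `d i = d`.
(`K` = `FiniteField.Extension F p m`, see `AD/Main.lean`; `Nat.card K = Nat.card F ^ m`.) -/
def S_LWP : Prop :=
  ∀ (F : Type) [Field F] [Finite F] (n : ℕ) (φ : QF F n) (W : ℕ → ℤ),
    (∀ (K : Type) [Field K] [Algebra F K] (m : ℕ), 1 ≤ m → Module.finrank F K = m →
      (Nat.card {x : Fin n → K // φ.Holds x} : ℤ) = W m) →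
    ∃ T : ℕ, 1 ≤ T ∧ ∀ a : ℕ, 1 ≤ a → ∃ h d : ℕ,
      Tendsto (fun t : ℕ => (W (a + T * t) : ℝ) / (Nat.card F : ℝ) ^ (d * (a + T * t))) atTop
        (𝓝 (h : ℝ)) ∧ (h = 0 → ∀ t : ℕ, W (a + T * t) = 0)

/-- For every finite extension `K` of `F`, `M(K)` is the graph of a group law on `G(K)`. -/
def Grp {F : Type} [Field F] {a : ℕ} (G : QF F a) (M : QF F (a + a + a)) : Prop :=
  ∀ (K : Type) [Field K] [Finite K] [Algebra F K], ∃ _ : Group (Pt G K),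
    ∀ x y z : Pt G K, M.Holds (Fin.append (Fin.append x.1 y.1) z.1) ↔ x * y = z

/-- **LAG** (Lagrange). There is an embedding `K → K'` over `F` (`FiniteField.nonempty_algHom_of_finrank_dvd`), which induces an
injective homomorphism `G(K) → G(K')` (`holds_map`, `append_map`, see `quad` in `AD/Alg.lean`). -/
def S_LAG : Prop :=
  ∀ (F : Type) [Field F] [Finite F] (a : ℕ) (G : QF F a) (M : QF F (a + a + a)), Grp G M →
    ∀ (K K' : Type) [Field K] [Finite K] [Algebra F K] [Field K'] [Finite K'] [Algebra F K'],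
      Module.finrank F K ∣ Module.finrank F K' → Nat.card (Pt G K) ∣ Nat.card (Pt G K')

/-- Quantifier-free formulas in `N` group variables: `x_i ∈ D`, `x_i x_j = x_k`. -/
inductive GF (N : ℕ) : Type
  | inD : Fin N → GF N
  | mul : Fin N → Fin N → Fin N → GF N
  | neg : GF N → GF N
  | and : GF N → GF N → GF N

/-- truth of such a formula -/
def GF.Holds {N : ℕ} {P : Type} (D : P → Prop) (M : P → P → P → Prop) : GF N → (Fin N → P) → Prop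
  | GF.inD i, x => D (x i)
  | GF.mul i j k, x => M (x i) (x j) (x k)
  | GF.neg φ, x => ¬ φ.Holds D M x
  | GF.and φ ψ, x => φ.Holds D M x ∧ ψ.Holds D M x

/-- **CNT** (from `S_DWORK`). Translate into a formula in `N * a` variables (`finProdFinEquiv`, renaming of the
variables `MvPolynomial.rename`), together with `G(x_i)` for all `i`. -/
def S_CNT : Prop :=
  ∀ (F : Type) [Field F] [Finite F] (a : ℕ) (G D : QF F a) (M : QF F (a + a + a)) (N : ℕ) (φ : GF N),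
    ∃ W : ℕ → ℤ, IsExpSum W ∧ ∀ (K : Type) [Field K] [Algebra F K] (m : ℕ), 1 ≤ m →
      Module.finrank F K = m →
      (Nat.card {x : Fin N → Pt G K // φ.Holds (fun g => D.Holds g.1)
        (fun x y z => M.Holds (Fin.append (Fin.append x.1 y.1) z.1)) x} : ℤ) = W m

open Pool.Agent.H152R2 in
/-- **PL** (from Hall's multiplier theorem, `IsPDS.multiplier` in `H152R2/Planar.lean`). There is `s` with
`ℓ x = s + d(x)`, `d(x) ∈ D`, for all `x ∈ D`. As `ℓ x = - x`, `d(x) - d(y) = y - x ≠ 0`, so `d(x) = y` by the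
uniqueness of the differences, and for the same reason `d(x) = z`. -/
def S_PL : Prop :=
  ∀ (G : Type) [AddCommGroup G] (n ℓ : ℕ) (D : Finset G), IsPDS n D → ℓ.Prime → ℓ ∣ n → 0 < n →
    ∀ x ∈ D, ∀ y ∈ D, ∀ z ∈ D, x ≠ y → x ≠ z → y ≠ z →
      (ℓ + 1) • x = 0 → (ℓ + 1) • y = 0 → (ℓ + 1) • z = 0 → False

/-- `D(K)` is a difference set with the Singer parameters of `(n, μ)` in the group `G(K)`. -/
def IsSDS {F : Type} [Field F] {a : ℕ} (G : QF F a) (M : QF F (a + a + a)) (D : QF F a)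
    (K : Type) [Field K] [Algebra F K] (n μ : ℕ) : Prop :=
  ∃ _ : Group (Pt G K),
    (∀ x y z : Pt G K, M.Holds (Fin.append (Fin.append x.1 y.1) z.1) ↔ x * y = z) ∧
    Nat.card (Pt G K) * (n - 1) = n ^ μ - 1 ∧
    Nat.card {x : Pt G K // D.Holds x.1} * (n - 1) = n ^ (μ - 1) - 1 ∧
    ∀ g : Pt G K, g ≠ 1 →
      Nat.card {p : Pt G K × Pt G K // D.Holds p.1.1 ∧ D.Holds p.2.1 ∧ p.1 * p.2⁻¹ = g} * (n - 1) =
        n ^ (μ - 2) - 1

/-- **ABL** (from CNT, SMLP, DIRI, PL and LAG's embedding): there is no planar family in abelian groups with `#D(K) ^ 2 = #K ^ d`.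
Let `W₂` count the `(g, d₁, d₂, d₃, d₄, e)` with `d_i ∈ D`, `g d₂ = d₁`, `g d₄ = d₃`, `e e = e`, not `e d₁ = d₂`, not `e d₁ = d₃`
(`e = 1`, so `d₁ ≠ d₂`, `d₁ ≠ d₃`), and `W₃` the `(x, y, z)` with `x y = z` and not `y x = z`. Both are exponential
sums (CNT) and vanish at the infinitely many good `m` of the hypothesis (`λ = 1`: `d₁ d₂⁻¹ = d₃ d₄⁻¹ ≠ 1` implies `d₁ = d₃`). By SMLP for `W₂ + W₃` there are `c' ≡ c (mod T)` and a
multiple `T'` of `T` with `W₂ = W₃ = 0` at all `c' + T' t`, and we can take for `c' = m₀` itself a good `m`, with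
`n₀ = #D - 1 ≥ 2`. So for `m = m₀ + T' t` the group `G(K)` is abelian, and the map `(d₁, d₂) ↦ d₁ d₂⁻¹` is injective on
the pairs with `d₁ ≠ d₂`, of which there are `k (k - 1) = #G(K) - 1`: `D(K)` is a planar difference set of order `n = k - 1` (`IsPDS` for `Additive`).
`k₀ = #D(K_{m₀})`, `k₀ ^ 2 = q ^ (d m₀)` is a power of the prime `p`, so `k₀ = p ^ j`. DIRI (`v = #G(K_{m₀})`, `T = T'`) gives
`ℓ`, `t`; `m = m₀ (1 + T' t)`, `k = k₀ ^ (1 + T' t)`, `ℓ ∣ k - 1 = n`. Apply PL to the images in `G(K_m)` of three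
elements of `D(K_{m₀})`, of order dividing `#G(K_{m₀}) ∣ ℓ + 1`. -/
def S_ABL : Prop :=
  ∀ (F : Type) [Field F] [Finite F] (a : ℕ) (G D : QF F a) (M : QF F (a + a + a)), Grp G M →
    ∀ (c T d : ℕ), 1 ≤ c → 1 ≤ T → 1 ≤ d →
      (∀ (K : Type) [Field K] [Finite K] [Algebra F K] (t : ℕ), Module.finrank F K = c + T * t →
        Nat.card {x : Pt G K // D.Holds x.1} ^ 2 = Nat.card F ^ (d * (c + T * t)) ∧
        Nat.card (Pt G K) + Nat.card {x : Pt G K // D.Holds x.1} =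
          Nat.card {x : Pt G K // D.Holds x.1} ^ 2 + 1) →
      ¬ ∀ N₀ : ℕ, ∃ t : ℕ, N₀ ≤ c + T * t ∧ ∃ (K : Type) (_ : Field K) (_ : Finite K) (_ : Algebra F K),
        Module.finrank F K = c + T * t ∧ (∃ n : ℕ, 2 ≤ n ∧ IsSDS G M D K n 3) ∧
        ∀ x y z : Pt G K, M.Holds (Fin.append (Fin.append x.1 y.1) z.1) →
          M.Holds (Fin.append (Fin.append y.1 x.1) z.1)

/-- **CORE** (helper90; from RESTR, TOP, QUOT, INJ, ALG, BIGMU, CYC1, CYC2, GAL, PADIC) -/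
def S_CORE : Prop :=
  ∀ V K : ℕ → ℤ, IsExpSum V → IsExpSum K → (∀ m : ℕ, 1 ≤ m → 1 ≤ V m ∧ 0 ≤ K m) →
    (∀ m s : ℕ, 1 ≤ m → 1 ≤ s → V m ∣ V (m * s)) →
    ∃ N : ℕ, 1 ≤ N ∧ ∀ μ c T q d h : ℕ, 3 ≤ μ → 1 ≤ c → 1 ≤ T → N ∣ T → 2 ≤ q → 1 ≤ d → 1 ≤ h →
      (∀ t : ℕ, (V (c + T * t) - 1) ^ (μ - 1) =
        (V (c + T * t) - K (c + T * t)) * K (c + T * t) ^ (μ - 1)) →
      Tendsto (fun t : ℕ => (V (c + T * t) : ℝ) / (q : ℝ) ^ (d * (c + T * t))) atTop (𝓝 (h : ℝ)) →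
      (∀ B : ℤ, ∃ t : ℕ, B ≤ V (c + T * t) - K (c + T * t)) →
      (4 ≤ μ ∧ ∀ t : ℕ, V (c + T * t) - K (c + T * t) = (q : ℤ) ^ (d * (c + T * t))) ∨
      (μ = 3 ∧ (∀ t : ℕ, V (c + T * t) = K (c + T * t) ^ 2 - K (c + T * t) + 1) ∧
        ((∀ t : ℕ, (K (c + T * t) - 1) ^ 2 = (q : ℤ) ^ (d * (c + T * t))) ∨
          ∀ t : ℕ, K (c + T * t) ^ 2 = (q : ℤ) ^ (d * (c + T * t))))

/-- **MAIN** (helper90; from CORE, LWP, SMLP, `S_DWORK`, `S_RING`, LAG, ABL) -/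
def S_MAIN : Prop :=
  ∀ (F : Type) [Field F] [Finite F] (a : ℕ) (G D : QF F a) (M : QF F (a + a + a)), Grp G M →
    ∃ B : ℕ, ∀ (K : Type) [Field K] [Finite K] [Algebra F K] (n μ : ℕ), B ≤ n → 3 ≤ μ →
      IsSDS G M D K n μ →
      (∃ d : ℕ, n ^ (μ - 1) = Nat.card K ^ d) ∨
      (μ = 3 ∧ (∃ d : ℕ, (n + 1) ^ 2 = Nat.card K ^ d) ∧
        ∃ x y z : Pt G K, M.Holds (Fin.append (Fin.append x.1 y.1) z.1) ∧
          ¬ M.Holds (Fin.append (Fin.append y.1 x.1) z.1))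

end Pool.Agent.T3h90.PP
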