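import Mathlib

/-!
# Project PP: the prime power conjecture for the large members of algebraic families of difference sets

Statements of the tasks that need only Mathlib.

`Γ` is a finitely generated torsion free subgroup of `ℂˣ`. An element `v = ∑ v_δ [δ]` of the group ring
`ℂ[Γ]` (`MonoidAlgebra ℂ Γ`) stands for the exponential sum `m ↦ ∑ v_δ δ ^ m = ev m v`, and `dil s v` for
`m ↦ ev (s m) v`. A homomorphism `w : Γ → ℤ` maps `ℂ[Γ]` to the Laurent polynomials `ℂ[T;T⁻¹]`.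
-/

set_option autoImplicit false

namespace Pool.Agent.T3h90.PP

open Filter Topology LaurentPolynomial ComplexConjugate

/-- the value at `m`: `δ ↦ δ ^ m` -/
noncomputable def ev {Γ : Subgroup ℂˣ} (m : ℕ) : MonoidAlgebra ℂ Γ →ₐ[ℂ] ℂ :=
  MonoidAlgebra.lift ℂ ℂ Γ (((powMonoidHom m : ℂ →* ℂ).comp (Units.coeHom ℂ)).comp Γ.subtype)

/-- the homomorphism `[δ] ↦ [δ ^ s]` -/
noncomputable def dil {Γ : Subgroup ℂˣ} (s : ℕ) : MonoidAlgebra ℂ Γ →ₐ[ℂ] MonoidAlgebra ℂ Γ :=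
  MonoidAlgebra.mapDomainAlgHom ℂ ℂ (powMonoidHom s : Γ →* Γ)

/-- torsion free -/
def TF (Γ : Subgroup ℂˣ) : Prop := ∀ γ ∈ Γ, ∀ n : ℕ, 1 ≤ n → γ ^ n = 1 → γ = 1

/-- the value of a Laurent polynomial at `z ≠ 0` -/
noncomputable def lev (z : ℂˣ) : ℂ[T;T⁻¹] →+* ℂ := LaurentPolynomial.eval₂ (RingHom.id ℂ) z

/-- the primitive cube root of unity `(-1 + √3 i) / 2` -/
noncomputable def om : ℂ := ⟨-1 / 2, √3 / 2⟩

/-- **INJ** (an exponential sum that vanishes on a progression is zero). `ev (a + T t) v = ∑ δ, (v_δ δ ^ a) (δ ^ T) ^ t`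
with distinct `δ ^ T` (`TF`), and exponential functions with distinct nonzero bases are independent, also for
`t ≥ t₀` (multiply by the `t₀`-th powers; `Pool.Agent.T2h48.DW.indep_pow` in `T2h48/DW/T_ARITH.lean`; copy its
short proof from `linearIndependent_monoidHom`). -/
def S_INJ : Prop :=
  ∀ (Γ : Subgroup ℂˣ), TF Γ → ∀ (a T t₀ : ℕ), 1 ≤ T → ∀ v : MonoidAlgebra ℂ Γ,
    (∀ t : ℕ, t₀ ≤ t → ev (a + T * t) v = 0) → v = 0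

/-- **SPEC**. `Additive Γ` is a finitely generated torsion free `ℤ`-module, so free; let `x_1, …, x_r` be the
coordinates and `w γ = ∑ K ^ i x_i γ`. For `e ≠ 1` the polynomial `∑ x_i(e) X ^ i` has finitely many roots; take
`K` outside of the finite set of the roots for all `e ∈ E`. -/
def S_SPEC : Prop :=
  ∀ (Γ : Subgroup ℂˣ), Γ.FG → TF Γ → ∀ E : Finset Γ, (1 : Γ) ∉ E →
    ∃ w : Γ →* Multiplicative ℤ, ∀ e ∈ E, w e ≠ 1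

/-- **PADIC**. Let `x ∈ S` and `χ = ∏_{y ∈ S, y ≠ x} (X - y) = ∑ χ_i X ^ i`. With `f t = ∑ c_y y ^ t`,
`∑ χ_i f (t + i) = χ(x) c_x x ^ t = C x ^ t`, `C ≠ 0`. So all `C x ^ t` are in the `ℤ`-module `Λ` generated by the
`χ_i`. The submodule generated by the `C x ^ t` is finitely generated (`ℤ` is noetherian), stable under
multiplication by `x`, and contains `C ≠ 0`; so `x` is integral over `ℤ` (`isIntegral_of_smul_mem_submodule` or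
`IsIntegral.of_mem_of_fg` applied to `ℤ[x] ⊆ C⁻¹ Λ`). -/
def S_PADIC : Prop :=
  ∀ (S : Finset ℂ) (c : ℂ → ℂ), (∀ x ∈ S, c x ≠ 0) → (∀ t : ℕ, ∃ n : ℤ, ∑ x ∈ S, c x * x ^ t = n) →
    ∀ x ∈ S, IsIntegral ℤ x

/-- **NEAR**: a sequence of integers near an exponential sum is an exponential sum. Let
`χ ∈ ℤ[X]` be a nonzero multiple (by a common denominator) of the product of the distinct minimal polynomials
over `ℚ` of the elements of `Z`; it is separable (`Polynomial.separable_prod'`, distinct monic irreducible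
polynomials are coprime), so over `ℂ` it is `D ∏_{y ∈ Y'} (X - y)` with distinct `y`. It kills the exponential
sum, so `∑ χ_i J (t + i) → 0` is a sequence of integers, which is zero for `t ≥ t₀`. Let `L_y` be the Lagrange basis
polynomials of `Y'`, `∑ L_y = 1` (`Lagrange.sum_basis`); then `(X - y) L_y` is a constant multiple of
`∏ (X - y)`, so the sequence `(L_y J)(t) = ∑ (L_y)_i J (t + i)` satisfies `(L_y J)(t+1) = y (L_y J)(t)` for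
`t ≥ t₀`, and `J = ∑ L_y J`. Remove `y = 0` (it is zero for `t ≥ t₀ + 1`). (If `Y'` is empty, `J = 0` eventually.) -/
def S_NEAR : Prop :=
  ∀ (J : ℕ → ℤ) (Z : Finset ℂ) (f : ℂ → ℂ), (∀ z ∈ Z, IsAlgebraic ℚ z) →
    Tendsto (fun t : ℕ => (J t : ℂ) - ∑ z ∈ Z, f z * z ^ t) atTop (𝓝 0) →
    ∃ (Y : Finset ℂ) (g : ℂ → ℂ) (t₀ : ℕ), (0 : ℂ) ∉ Y ∧
      ∀ t : ℕ, t₀ ≤ t → (J t : ℂ) = ∑ y ∈ Y, g y * y ^ t

/-- the coefficients `a` of a Laurent polynomial `L` satisfy `conj L(1/X) = c X ^ (-e) L(X)` -/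
def Sym (a : ℤ → ℂ) (c : ℂ) (e : ℤ) : Prop := c ≠ 0 ∧ ∀ i, conj (a i) = c * a (e - i)

/-- **SELF** (a Laurent polynomial the zeros of which have absolute value one is self-inversive). Write
`L = T (-n) P`, `P = X ^ k P₁`, `P₁ = lead ∏ (X - ρ)` with `‖ρ‖ = 1`. For a polynomial `P` let the
property be `(P.map conj).reverse = C c * P`, `c ≠ 0`; it holds for `X - ρ` (`1 - conj ρ X = - conj ρ (X - ρ)`), for nonzero
constants, and is preserved by products (`Polynomial.reverse_mul_of_domain`); compare the coefficients. -/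
def S_SELF : Prop :=
  ∀ L : ℂ[T;T⁻¹], L ≠ 0 → (∀ z : ℂˣ, lev z L = 0 → ‖(z : ℂ)‖ = 1) →
    ∃ (c : ℂ) (e : ℤ), Sym (fun i => L.coeff i) c e

/-- **ONEA**. Let `a i` be the coefficients of `N`, `S = {i ≠ 0 | a i ≠ 0}`, not empty. The support of
`N - ζ_j` is `S` or `S ∪ {0}` and is mapped to itself by `i ↦ e_j - i`, so `e_j = min + max` of it. If `0` is in both
supports then `e₁ = e₂`. If not, say `a 0 = ζ₁`; by `hN` there are `i > 0` and `i' < 0` in `S`, so the minimum and the maximum of both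
supports are those of `S`, and again `e₁ = e₂ = e`. If `e = 0`: for `i ∈ S`, `conj (a i) = c_j a (-i)` gives
`c₁ = c₂`. If `e ≠ 0`: `i = 0` gives `conj (a 0 - ζ_j) = c_j a e`, so `c₁ = c₂` would imply `ζ₁ = ζ₂`; for
`i ≠ 0, e`: `c₁ a (e - i) = c₂ a (e - i)`, so `a (e - i) = 0`. -/
def S_ONEA : Prop :=
  ∀ (N : ℂ[T;T⁻¹]) (ζ₁ ζ₂ c₁ c₂ : ℂ) (e₁ e₂ : ℤ), ζ₁ ≠ ζ₂ → (∀ c, N ≠ C c) →
    ((∀ i < 0, N.coeff i = 0) ∨ (∀ i > 0, N.coeff i = 0) → N.coeff 0 ≠ ζ₁ ∧ N.coeff 0 ≠ ζ₂) →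
    Sym (fun i => (N - C ζ₁).coeff i) c₁ e₁ → Sym (fun i => (N - C ζ₂).coeff i) c₂ e₂ →
    e₁ = e₂ ∧ ((e₁ = 0 ∧ c₁ = c₂) ∨ (e₁ ≠ 0 ∧ ∃ A B : ℂ, B ≠ 0 ∧ N = C A + C B * T e₁))

/-- **ONEV** (from SELF, ONEA). `∑_{i<μ} N ^ i = ∏ (N - ζ)` over the `ζ ≠ 1` with `ζ ^ μ = 1`
(`N` not constant), so by SELF every `N - ζ` satisfies `Sym _ c_ζ e_ζ`.
If all exponents of `N` are `≥ 0` (or all are `≤ 0`) then the constant term of `∑_{i<μ-1} N ^ i` is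
`∑_{i<μ-1} a ^ i`, `a = N.coeff 0`; for `a = ζ` it is `- ζ⁻¹`, so it is real only if `ζ` is real. So the condition of ONEA
holds for all pairs of nonreal `ζ`. Apply it to `ζ`, `conj ζ` for a nonreal `ζ = exp (2 π i / μ)`.

Case `e = 0`: `conj (ζ - conj ζ) = c (ζ - conj ζ)`, so `c = -1`. If `μ = 3` this is the last alternative (`i = 0`:
`conj (a - ζ) = - (a - ζ)`, `2 Re a = 2 Re ζ = -1`). If `μ ≥ 5`, apply ONEA to `ζ`, `ζ' = ζ ^ 2` (nonreal, other real part): as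
`e = 0`, `c' = c = -1` and `conj (ζ - ζ') = - (ζ - ζ')` contradicts `Re ζ ≠ Re ζ'`. If `μ = 4`: `ζ = I`, so
`conj (a i) = - a (-i)` for all `i` (with `Re (a 0) = 0`). Let `c, e` be the constants of `N + 1`; so
`a j - [j = 0] = - c (a (e + j) + [e + j = 0])`. If `e = 0`, a `j ≠ 0` with `a j ≠ 0` gives `c = -1`, and `j = 0`
gives a contradiction. If `e ≠ 0`, `j = e, 2 e, 3 e, …`: `a (k e) = - c a ((k + 1) e)` for `k ≥ 1`, so `a (k e) = 0` for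
`k ≥ 1` (finite support), and `j = 0`: `a 0 = 1`, contradiction.

Case `e ≠ 0`: `N = A + B T ^ e`. For nonreal `ζ` (and for `ζ = -1`, if `μ` is even and `A ≠ -1`) `N - ζ` has the support `{0, e}` (`A ≠ ζ`
by the condition on the constant term), so `conj (A - ζ) = c B`, `conj B = c (A - ζ)`, and `|A - ζ| = |B|`. For `ζ` and `conj ζ`: `A` is real. So
`A ^ 2 - 2 A Re ζ + 1 = |B| ^ 2`. `μ = 3`: the second alternative. `μ ≥ 5`: two nonreal `ζ` with different real parts, so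
`A = 0`. `μ = 4`: `A ^ 2 + 1 = |B| ^ 2` and (`A = -1` or `A ^ 2 + 2 A + 1 = |B| ^ 2`). -/
def S_ONEV : Prop :=
  ∀ (N : ℂ[T;T⁻¹]) (μ : ℕ), 3 ≤ μ → (∀ c, N ≠ C c) →
    (∀ z : ℂˣ, lev z (∑ i ∈ Finset.range μ, N ^ i) = 0 → ‖(z : ℂ)‖ = 1) →
    ((∑ i ∈ Finset.range (μ - 1), N ^ i).coeff 0).im = 0 →
    (4 ≤ μ ∧ ∃ (A B : ℂ) (j : ℤ), j ≠ 0 ∧ N = C A + C B * T j ∧
      ((A = 0 ∧ ‖B‖ = 1) ∨ (μ = 4 ∧ A = -1 ∧ ‖B‖ ^ 2 = 2))) ∨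
    (μ = 3 ∧ ((∃ (A : ℝ) (B : ℂ) (j : ℤ), j ≠ 0 ∧ N = C (A : ℂ) + C B * T j ∧
      ‖B‖ ^ 2 = A ^ 2 + A + 1) ∨
      (∀ i, conj (N.coeff i) = - N.coeff (-i) - if i = 0 then 1 else 0)))

/-- **INTEG**. `κ ^ r ∣ (v - 1) ^ r`, so `κ ∣ v - 1` (`ℂ[T;T⁻¹]` is a localization of `ℂ[X]`: integrally closed, or
multiply by powers of `T`); `v - 1 = N κ`, `N ^ r = v - κ` (cancel `κ ^ r`), so `(N - 1) κ = N ^ r - 1`,
and `N ≠ 1`; cancel `N - 1`. -/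
def S_INTEG : Prop :=
  ∀ (v κ : ℂ[T;T⁻¹]) (r : ℕ), 1 ≤ r → (v - 1) ^ r = (v - κ) * κ ^ r → κ ≠ 0 → v - κ ≠ 1 →
    ∃ N : ℂ[T;T⁻¹], v = ∑ i ∈ Finset.range (r + 1), N ^ i ∧ κ = ∑ i ∈ Finset.range r, N ^ i ∧
      v - κ = N ^ r

/-- **ROOTU**. The set `Z` of the zeros `z ≠ 0` of `P` is finite and contains `z ^ (k t + 1)` for all `k`, if it
contains `z`; so `z ^ (k t + 1) = z ^ (l t + 1)` for some `k < l`. -/
def S_ROOTU : Prop :=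
  ∀ (P : ℂ[T;T⁻¹]) (t : ℕ), 1 ≤ t → P ≠ 0 →
    (∀ s : ℕ, t ∣ s → ∀ z : ℂˣ, lev z P = 0 → lev (z ^ (s + 1)) P = 0) →
    ∀ z : ℂˣ, lev z P = 0 → ∃ M : ℕ, 1 ≤ M ∧ z ^ M = 1

/-- **ALG** (from SPEC, INTEG, ROOTU, ONEV). Let `U = supp v ∪ (supp v)⁻¹ ∪ supp κ ∪ {1}`, and take `w` from SPEC
for `E = {x y⁻¹ | x ≠ y ∈ U}`: `w` is injective on `U`. Let `Φ : ℂ[Γ] → ℂ[T;T⁻¹]`, `Φ [δ] = T (w δ)`; then
`(Φ x).coeff (w δ) = x.coeff δ` for `δ ∈ U` and `x` with support in `U`. `lev z (Φ (dil s x)) = lev (z ^ s) (Φ x)`.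
`Φ (v - κ)` is not constant. If `κ = 0` then `(v - 1) ^ r = 0`, so `v - κ = 1`, excluded. INTEG (`r = μ - 1`) gives `N`; it is not
constant. By ROOTU the zeros of `Φ v = ∑_{i<μ} N ^ i` are roots of unity. `(Φ κ).coeff 0 = κ.coeff 1` is
real. Apply ONEV. `N = B T ^ j`: `Φ (v - κ) = B ^ (μ-1) T ^ ((μ-1) j)`. `μ = 4`, `N = -1 + B T ^ j`:
`v + 2 κ - 2 ↦ 1 + N + N² + N³ + 2 (1 + N + N²) - 2 = (1 + N) ^ 3 = B ^ 3 T ^ (3 j)`. `μ = 3`, `N = A + B T ^ j`: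
`Φ κ = 1 + N`; and the zeros of `Φ v = N² + N + 1 = (N - om) (N - conj om)`: choose `z` with `B z ^ j = om - A` and `z'` with
`B z' ^ j = conj om - A`: these are roots of unity, so for some `M ≥ 1` `((om - A) / B) ^ M = 1 = ((conj om - A) / B) ^ M`. Last case: let
`bar L = conj L (1/X)` (a ring homomorphism, `(bar L).coeff i = conj (L.coeff (-i))`); `bar N = - N - 1`, so
`bar (Φ v) = Φ v`, and as `w` is injective on `U`, the last alternative. (`μ = 3`: `Φ (v - κ ^ 2 + κ - 1) = 0`, and if `U`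
contains also the support of `v - κ ^ 2 + κ - 1` then `v = κ ^ 2 - κ + 1`.) -/
def S_ALG : Prop :=
  ∀ (Γ : Subgroup ℂˣ), Γ.FG → TF Γ → ∀ (μ t : ℕ) (v κ : MonoidAlgebra ℂ Γ), 3 ≤ μ → 1 ≤ t →
    (v - 1) ^ (μ - 1) = (v - κ) * κ ^ (μ - 1) → (∀ s : ℕ, t ∣ s → v ∣ dil (s + 1) v) →
    (κ.coeff 1).im = 0 → (∀ c : ℂ, v - κ ≠ MonoidAlgebra.single 1 c) →
    (4 ≤ μ ∧ ((∃ (b : ℂ) (δ : Γ), ‖b‖ = 1 ∧ v - κ = MonoidAlgebra.single δ b) ∨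
      (μ = 4 ∧ ∃ (b : ℂ) (δ : Γ), ‖b‖ ^ 2 = 8 ∧ v + 2 * κ - 2 = MonoidAlgebra.single δ b))) ∨
    (μ = 3 ∧ v = κ ^ 2 - κ + 1 ∧ ((∃ (A : ℝ) (b : ℂ) (δ : Γ), δ ≠ 1 ∧
        κ = MonoidAlgebra.single 1 (1 + (A : ℂ)) + MonoidAlgebra.single δ b ∧
        ‖b‖ ^ 2 = A ^ 2 + A + 1 ∧ ∃ M : ℕ, 1 ≤ M ∧ (om - A) ^ M = (conj om - A) ^ M) ∨
      ∀ δ : Γ, v.coeff δ⁻¹ = conj (v.coeff δ)))

/-- **GALU**. Let `ζ` be a primitive `M`-th root of unity and `z i = ζ ^ (x i)`. The polynomial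
`∑ n_i X ^ (a x_i)` has the zero `ζ`, so it is divisible by the minimal polynomial of `ζ`, of which `ζ ^ c` is also a
zero (`IsPrimitiveRoot.minpoly_eq_pow_coprime` or `Polynomial.cyclotomic`). -/
def S_GALU : Prop :=
  ∀ (ι : Type) (s : Finset ι) (z : ι → ℂ) (n : ι → ℤ) (M a c : ℕ), 1 ≤ M → Nat.Coprime c M →
    (∀ i ∈ s, z i ^ M = 1) → ∑ i ∈ s, (n i : ℂ) * z i ^ a = 0 →
    ∑ i ∈ s, (n i : ℂ) * z i ^ (c * a) = 0

/-- **CYC1**. `b ≠ 0`. Let `m = a + T t`. `(k m) ^ 2 / q ^ (d m) → h`, as `q ^ (d m) → ∞`; so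
`b ^ 2 x ^ (2 m) / q ^ (d m) → h ≠ 0`, and it is a constant times `u ^ t`, `u = x ^ (2 T) / q ^ (d T)`; so `u = 1`
(the quotient of two consecutive terms tends to one), and `b ^ 2 x ^ (2 m) = h q ^ (d m)` for all `t`. `‖x‖ ^ 2 = q ^ d`, so
`‖b‖ ^ 2 = h`. The differences of consecutive `k m` are nonzero (`x ^ T ≠ 1`), their quotient is `x ^ T`,
so `x ^ T` and then `b x ^ a` and `1 + A` are rational; `1 + A` is also integral, so it is an integer. -/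
def S_CYC1 : Prop :=
  ∀ (k : ℕ → ℤ) (a T q d h : ℕ) (A : ℝ) (b x : ℂ), 1 ≤ T → 2 ≤ q → 1 ≤ d → 1 ≤ h →
    (∀ n : ℕ, 1 ≤ n → x ^ n ≠ 1) → IsIntegral ℤ (1 + (A : ℂ)) → ‖b‖ ^ 2 = A ^ 2 + A + 1 →
    (∀ t : ℕ, (k (a + T * t) : ℂ) = 1 + A + b * x ^ (a + T * t)) →
    Tendsto (fun t : ℕ => (((k (a + T * t)) ^ 2 - k (a + T * t) + 1 : ℤ) : ℝ) /
      (q : ℝ) ^ (d * (a + T * t))) atTop (𝓝 (h : ℝ)) →
    ∃ A' : ℤ, (A : ℝ) = A' ∧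
      ∀ t : ℕ, (k (a + T * t) - 1 - A') ^ 2 = (A' ^ 2 + A' + 1) * (q : ℤ) ^ (d * (a + T * t))

/-- **CYC2**. `r = (om - A) / (conj om - A)` is a root of unity, so `r + r⁻¹ = 2 - 3 / (A ^ 2 + A + 1)` is a rational
algebraic integer, so an integer, and `A ^ 2 + A + 1 ∣ 3`. -/
def S_CYC2 : Prop :=
  ∀ (A : ℤ) (M : ℕ), 1 ≤ M → (om - A) ^ M = (conj om - A) ^ M →
    A = 0 ∨ A = -1 ∨ A ^ 2 + A + 1 = 3

/-- **BIGMU**. Let `m = a + T t`, `V = V m`, `K = K m`. If `K ≠ 0` then `K ^ (μ-1) ∣ (V - 1) ^ (μ-1)`, so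
`V - 1 = n K`, `n ≥ 0`, and `V - K = n ^ (μ-1)`; if `K = 0` this holds with `n = 1`. If `n ≥ 2` then
`(n - 1) K = n ^ (μ-1) - 1`, so `V = 1 + n + … + n ^ (μ-1)` and `V / (V - K) → 1` as `n → ∞`.
First case: `|V - K| = ‖x‖ ^ m` is unbounded, so `‖x‖ > 1`, `n → ∞`, and `‖x‖ ^ m / q ^ (d m) → h ≠ 0`; hence
`‖x‖ = q ^ d` (`(‖x‖ ^ T / q ^ (d T)) ^ t` has a nonzero limit), `h = 1`, and `V - K = n ^ (μ-1) = q ^ (d m)`.
Second case (`μ = 4`): for large `t`, `V` is large, so `n ≥ 2`, `V + 2 K - 2 = (n + 1) ^ 3`, or `n = 1`, `V = K + 1`; in both cases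
`V ≤ V + 2 K - 2 ≤ 3 V`, so `‖b‖ ‖x‖ ^ m / q ^ (d m)` is bounded above and below by positive constants, so `‖x‖ = q ^ d` and this quotient is constant
`= ‖b‖ = √8`; its limit along the `t` with `V - K → ∞` (so `n → ∞`, `V / (n + 1) ^ 3 → 1`) is `h`: `h ^ 2 = 8`, a contradiction. -/
def S_BIGMU : Prop :=
  ∀ (V K : ℕ → ℤ) (μ a T q d h : ℕ) (b x : ℂ), 4 ≤ μ → 1 ≤ T → 2 ≤ q → 1 ≤ d → 1 ≤ h →
    (∀ t : ℕ, 1 ≤ V (a + T * t) ∧ 0 ≤ K (a + T * t) ∧ (V (a + T * t) - 1) ^ (μ - 1) =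
      (V (a + T * t) - K (a + T * t)) * K (a + T * t) ^ (μ - 1)) →
    Tendsto (fun t : ℕ => (V (a + T * t) : ℝ) / (q : ℝ) ^ (d * (a + T * t))) atTop (𝓝 (h : ℝ)) →
    (∀ B : ℤ, ∃ t : ℕ, B ≤ V (a + T * t) - K (a + T * t)) →
    ((‖b‖ = 1 ∧ ∀ t : ℕ, ((V (a + T * t) - K (a + T * t) : ℤ) : ℂ) = b * x ^ (a + T * t)) ∨
      (μ = 4 ∧ ‖b‖ ^ 2 = 8 ∧
        ∀ t : ℕ, ((V (a + T * t) + 2 * K (a + T * t) - 2 : ℤ) : ℂ) = b * x ^ (a + T * t))) →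
    ∀ t : ℕ, V (a + T * t) - K (a + T * t) = (q : ℤ) ^ (d * (a + T * t))

/-- **DIRI**. Let `ℓ` be a prime `≡ -1` modulo `8 p v T` (Dirichlet, `Nat.forall_exists_prime_gt_and_eq_mod`).
Then `p` is a square modulo `ℓ`: for `p = 2` as `ℓ ≡ 7 (mod 8)`, for odd `p` by quadratic reciprocity
(`ℓ ≡ 3 (mod 4)`, `(p/ℓ) = (-1) ^ ((p-1)/2) (ℓ/p) = (-1) ^ ((p-1)/2) (-1/p) = 1`). So `s = (ℓ - 1) / 2` satisfies
`ℓ ∣ p ^ s - 1`, and `s ≡ -1 (mod T)`... (`ℓ - 1 = 2 s`, `ℓ + 1 ≡ 0 (mod 2 T)`, so `s + 1 ≡ 0 (mod T)`). Take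
`s * s ≡ 1 (mod T)` as the exponent: `s ^ 2 = 1 + T t` (`s ≥ 1`), and `ℓ ∣ p ^ (j s ^ 2) - 1`. -/
def S_DIRI : Prop :=
  ∀ (p j v T : ℕ), p.Prime → 1 ≤ v → 1 ≤ T →
    ∃ ℓ t : ℕ, ℓ.Prime ∧ v ∣ ℓ + 1 ∧ ℓ ∣ (p ^ j) ^ (1 + T * t) - 1

end Pool.Agent.T3h90.PP
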