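import Pool.Agent.T3h90.PP.Stm0

/-! Task CYC1 of project PP. -/

set_option autoImplicit false

namespace Pool.Agent.T3h90.PP

open Filter Topology

namespace Cyc1Aux

/-- if `z (t + 1) = u z t` and `z t → h ≠ 0` then `u = 1` -/
lemma ratio_one (z : ℕ → ℂ) (u h : ℂ) (hz : ∀ t, z (t + 1) = u * z t)
    (hlim : Tendsto z atTop (𝓝 h)) (hh : h ≠ 0) : u = 1 := by
  have h1 : Tendsto (fun t => z (t + 1)) atTop (𝓝 h) := hlim.comp (tendsto_add_atTop_nat 1)
  have h2 : Tendsto (fun t => z (t + 1)) atTop (𝓝 (u * h)) := by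
    simp only [hz]
    exact hlim.const_mul u
  have h3 := tendsto_nhds_unique h1 h2
  have : u * h = 1 * h := by rw [one_mul]; exact h3.symm
  exact mul_right_cancel₀ hh this

end Cyc1Aux

open Cyc1Aux

/-- task CYC1 -/
theorem t_CYC1 : S_CYC1 := by
  intro k a T q d h A b x hT hq hd hh hx hint hb hk hlim
  have hq1 : (1 : ℝ) < q := by exact_mod_cast (by omega : 1 < q)
  have hq0 : (0 : ℝ) < q := by linarith
  -- real numbers
  set y : ℕ → ℝ := fun t => (k (a + T * t) : ℝ) - 1 - A with hy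
  have hyc : ∀ t, ((y t : ℝ) : ℂ) = b * x ^ (a + T * t) := by
    intro t
    have := hk t
    simp only [hy]
    push_cast
    rw [this]; ring
  have hyc1 : ∀ t, ((y (t + 1) : ℝ) : ℂ) = x ^ T * (y t : ℝ) := by
    intro t
    rw [hyc, hyc]
    have : a + T * (t + 1) = T + (a + T * t) := by ring
    rw [this, pow_add x T]
    ring
  set Qt : ℕ → ℝ := fun t => (q : ℝ) ^ (d * (a + T * t)) with hQt
  have hQpos : ∀ t, 0 < Qt t := fun t => by positivity
  have hQ1 : ∀ t, Qt (t + 1) = (q : ℝ) ^ (d * T) * Qt t := by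
    intro t
    simp only [hQt]
    rw [← pow_add]
    congr 1
    ring
  have hQtop : Tendsto Qt atTop atTop := by
    have h1 : Tendsto (fun t : ℕ => (q : ℝ) ^ t) atTop atTop := tendsto_pow_atTop_atTop_of_one_lt hq1
    refine tendsto_atTop_mono (fun t => ?_) h1
    simp only [hQt]
    refine pow_le_pow_right₀ hq1.le ?_
    calc t ≤ T * t := Nat.le_mul_of_pos_left t (by omega)
      _ ≤ a + T * t := Nat.le_add_left _ _
      _ ≤ d * (a + T * t) := Nat.le_mul_of_pos_left _ (by omega)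
  have hQinv : Tendsto (fun t => (Qt t)⁻¹) atTop (𝓝 0) := tendsto_inv_atTop_zero.comp hQtop
  -- `K / sqrt Q` is bounded, so `y ^ 2 / Q → h`
  have hlim' : Tendsto (fun t => (((k (a + T * t) : ℝ)) ^ 2 - (k (a + T * t) : ℝ) + 1) / Qt t)
      atTop (𝓝 (h : ℝ)) := by
    refine hlim.congr fun t => ?_
    simp only [hQt]
    push_cast
    rfl
  -- `(K - 1/2)^2 / Q → h`
  have hlim2 : Tendsto (fun t => ((k (a + T * t) : ℝ) - 1 / 2) ^ 2 / Qt t) atTop (𝓝 (h : ℝ)) := by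
    have h1 := hlim'.sub (hQinv.const_mul (3 / 4))
    rw [mul_zero, sub_zero] at h1
    refine h1.congr fun t => ?_
    have := (hQpos t).ne'
    field_simp
    ring
  have hlim3 : Tendsto (fun t => ((k (a + T * t) : ℝ) - 1 / 2) / Qt t) atTop (𝓝 0) := by
    have h1 : Tendsto (fun t => ((k (a + T * t) : ℝ) - 1 / 2) ^ 2 / Qt t * (Qt t)⁻¹) atTop
        (𝓝 0) := by
      have := hlim2.mul hQinv
      rwa [mul_zero] at this
    have h2 : Tendsto (fun t => (((k (a + T * t) : ℝ) - 1 / 2) / Qt t) ^ 2) atTop (𝓝 0) := by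
      refine h1.congr fun t => ?_
      have := (hQpos t).ne'
      field_simp
    have h3 := (Real.continuous_sqrt.tendsto 0).comp h2
    rw [Real.sqrt_zero] at h3
    rw [tendsto_zero_iff_abs_tendsto_zero]
    refine h3.congr fun t => ?_
    simp only [Function.comp_apply]
    rw [Real.sqrt_sq_eq_abs]
  have hlim4 : Tendsto (fun t => (y t) ^ 2 / Qt t) atTop (𝓝 (h : ℝ)) := by
    have h1 := (hlim2.sub (hlim3.const_mul (2 * (1 / 2 + A)))).add
      (hQinv.const_mul ((1 / 2 + A) ^ 2))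
    rw [mul_zero, mul_zero, sub_zero, add_zero] at h1
    refine h1.congr fun t => ?_
    have := (hQpos t).ne'
    simp only [hy]
    field_simp
    ring
  -- the complex sequence
  set z : ℕ → ℂ := fun t => ((y t : ℝ) : ℂ) ^ 2 / ((Qt t : ℝ) : ℂ) with hz
  have hzlim : Tendsto z atTop (𝓝 ((h : ℝ) : ℂ)) := by
    have := (Complex.continuous_ofReal.tendsto (h : ℝ)).comp hlim4
    refine this.congr fun t => ?_
    simp only [hz, Function.comp_apply]
    push_cast
    rfl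
  have hh0 : ((h : ℝ) : ℂ) ≠ 0 := by
    have : (h : ℝ) ≠ 0 := by
      have : 0 < h := by omega
      positivity
    exact_mod_cast this
  set u : ℂ := (x ^ T) ^ 2 / (q : ℂ) ^ (d * T) with hu
  have hqc : (q : ℂ) ≠ 0 := by
    have : q ≠ 0 := by omega
    exact_mod_cast this
  have hz1 : ∀ t, z (t + 1) = u * z t := by
    intro t
    simp only [hz, hu]
    rw [hyc1, hQ1]
    have h1 : ((Qt t : ℝ) : ℂ) ≠ 0 := by exact_mod_cast (hQpos t).ne'
    push_cast
    field_simp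
  have hu1 : u = 1 := ratio_one z u _ hz1 hzlim hh0
  have hzc : ∀ t, z t = (h : ℝ) := by
    have h1 : ∀ t, z t = z 0 := by
      intro t
      induction t with
      | zero => rfl
      | succ t ih => rw [hz1, hu1, one_mul, ih]
    intro t
    have h2 : Tendsto z atTop (𝓝 (z 0)) := by
      refine tendsto_const_nhds.congr fun t => (h1 t).symm
    rw [h1 t]
    exact tendsto_nhds_unique h2 hzlim
  have hyQ : ∀ t, (y t) ^ 2 = h * Qt t := by
    intro t
    have h1 := hzc t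
    simp only [hz] at h1
    have h2 : ((Qt t : ℝ) : ℂ) ≠ 0 := by exact_mod_cast (hQpos t).ne'
    rw [div_eq_iff h2] at h1
    exact_mod_cast h1
  have hy0 : ∀ t, y t ≠ 0 := by
    intro t h1
    have h2 := hyQ t
    rw [h1] at h2
    have h3 : 0 < (h : ℝ) * Qt t := by
      have : (0 : ℝ) < h := by exact_mod_cast (by omega : 0 < h)
      exact mul_pos this (hQpos t)
    simp at h2
    rcases h2 with h2 | h2
    · omega
    · exact (hQpos t).ne' h2
  -- `‖x‖ ^ 2 = q ^ d`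
  have hxn : ‖x‖ ^ 2 = (q : ℝ) ^ d := by
    have h1 : (x ^ T) ^ 2 = (q : ℂ) ^ (d * T) := by
      rw [hu, div_eq_one_iff_eq (pow_ne_zero _ hqc)] at hu1
      exact hu1
    have h2 : (‖x‖ ^ 2) ^ T = ((q : ℝ) ^ d) ^ T := by
      have := congrArg norm h1
      rw [norm_pow, norm_pow, norm_pow, Complex.norm_natCast] at this
      rw [← pow_mul, ← pow_mul, mul_comm 2 T, pow_mul]
      exact this
    exact (pow_left_inj₀ (by positivity) (by positivity) (by omega)).1 h2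
  have hAh : A ^ 2 + A + 1 = h := by
    have h1 := hyQ 0
    have h2 := congrArg norm (hyc 0)
    rw [Complex.norm_real, norm_mul, norm_pow, Real.norm_eq_abs] at h2
    have h3 : (y 0) ^ 2 = ‖b‖ ^ 2 * (‖x‖ ^ 2) ^ (a + T * 0) := by
      rw [← sq_abs, h2]; ring
    rw [h3, hxn, hb, ← pow_mul] at h1
    exact mul_right_cancel₀ (hQpos 0).ne' h1
  -- rationality
  have hDc : ∀ t, ((k (a + T * (t + 1)) - k (a + T * t) : ℤ) : ℂ) = (x ^ T - 1) * (y t : ℝ) := by
    intro t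
    have h1 := hyc1 t
    have h2 : ((k (a + T * (t + 1)) - k (a + T * t) : ℤ) : ℂ) =
        ((y (t + 1) : ℝ) : ℂ) - (y t : ℝ) := by
      simp only [hy]; push_cast; ring
    rw [h2, h1]; ring
  have hxT1 : x ^ T - 1 ≠ 0 := sub_ne_zero.2 (hx T hT)
  have hyt0 : ((y 0 : ℝ) : ℂ) ≠ 0 := by exact_mod_cast hy0 0
  obtain ⟨D0, hD0⟩ : ∃ D0 : ℤ, (D0 : ℂ) = (x ^ T - 1) * (y 0 : ℝ) := ⟨_, hDc 0⟩
  obtain ⟨D1, hD1⟩ : ∃ D1 : ℤ, (D1 : ℂ) = (x ^ T - 1) * (y 1 : ℝ) := ⟨_, hDc 1⟩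
  have hD0n : (D0 : ℂ) ≠ 0 := by rw [hD0]; exact mul_ne_zero hxT1 hyt0
  have hxT : x ^ T = ((D1 / D0 : ℚ) : ℂ) := by
    push_cast
    rw [eq_div_iff hD0n, hD0, hD1, hyc1 0]; ring
  have hy0q : ((y 0 : ℝ) : ℂ) = ((D0 / (D1 / D0 - 1) : ℚ) : ℂ) := by
    have h9 : (D1 : ℂ) / (D0 : ℂ) = x ^ T := by rw [hxT]; push_cast; rfl
    push_cast
    rw [h9, eq_div_iff hxT1, hD0]; ring
  obtain ⟨ρ, hρ⟩ : ∃ ρ : ℚ, (1 + (A : ℂ)) = (ρ : ℂ) := by
    refine ⟨(k (a + T * 0) : ℚ) - D0 / (D1 / D0 - 1), ?_⟩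
    rw [Rat.cast_sub, ← hy0q, Rat.cast_intCast]
    simp only [hy]
    push_cast
    ring
  have hρint : IsIntegral ℤ ρ := by
    rw [hρ] at hint
    have h1 : ((ρ : ℚ) : ℂ) = algebraMap ℚ ℂ ρ := rfl
    rw [h1] at hint
    exact (isIntegral_algebraMap_iff (algebraMap ℚ ℂ).injective).1 hint
  obtain ⟨n, hn⟩ := IsIntegrallyClosed.isIntegral_iff.1 hρint
  have hA1 : A = ((n - 1 : ℤ) : ℝ) := by
    have h1 : (1 + (A : ℂ)) = (n : ℂ) := by
      rw [hρ, ← hn]; simp
    have h2 : (1 : ℝ) + A = n := by exact_mod_cast h1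
    push_cast
    linarith
  refine ⟨n - 1, hA1, fun t => ?_⟩
  have h1 := hyQ t
  rw [← hAh] at h1
  simp only [hy, hQt] at h1
  rw [hA1] at h1
  exact_mod_cast h1

end Pool.Agent.T3h90.PP
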